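import Pool.Agent.MP_8ed1d4_al.Trace

set_option autoImplicit false
set_option linter.style.haveILetI false
set_option linter.unusedVariables false

open Polynomial

namespace Pool.Agent.MP_8ed1d4_al

universe u v

section Abs

variable {F : Type u} [Field F] (v : AbsoluteValue F ℝ)

theorem nat_bounded {q : ℕ} (hq : 2 ≤ q) (h : v q < 1) (m : ℕ) : v m ≤ q / (1 - v q) := by
  have h1 : 0 < 1 - v q := by linarith
  induction m using Nat.strong_induction_on with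
  | _ m ih =>
    rcases Nat.eq_zero_or_pos m with rfl | hm
    · simp only [Nat.cast_zero, map_zero]; positivity
    have h2 := ih (m / q) (Nat.div_lt_self hm hq)
    have h3 : (m : F) = q * (m / q : ℕ) + (m % q : ℕ) := by
      rw [← Nat.cast_mul, ← Nat.cast_add, Nat.div_add_mod]
    have h4 : v (m % q : ℕ) ≤ q :=
      (v.apply_nat_le_self _).trans (by exact_mod_cast (Nat.mod_lt m (by omega)).le)
    calc v m ≤ v q * v (m / q : ℕ) + v (m % q : ℕ) := by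
          rw [h3, ← map_mul]; exact v.add_le _ _
      _ ≤ v q * (q / (1 - v q)) + q := by gcongr
      _ = q / (1 - v q) := by field_simp; ring

theorem one_le_of_coprime {q m : ℕ} (hq : 2 ≤ q) (h : v q < 1) (hc : Nat.Coprime q m) :
    1 ≤ v m := by
  by_contra hm
  push Not at hm
  set B : ℝ := q / (1 - v q)
  have hB : ∀ a : ℤ, v a ≤ B := fun a => by
    rw [← v.apply_natAbs_eq]; exact nat_bounded v hq h _
  have hk : ∀ k : ℕ, 1 ≤ B * (v q ^ k + v m ^ k) := by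
    intro k
    obtain ⟨a, b, hab⟩ : IsCoprime ((q : ℤ) ^ k) ((m : ℤ) ^ k) := hc.isCoprime.pow
    have h1 : (1 : F) = a * q ^ k + b * m ^ k := by exact_mod_cast congrArg (Int.cast : ℤ → F) hab.symm
    calc (1 : ℝ) = v 1 := (map_one v).symm
      _ ≤ v (a * q ^ k) + v (b * m ^ k) := by rw [h1]; exact v.add_le _ _
      _ ≤ B * v q ^ k + B * v m ^ k := by
        simp only [map_mul, map_pow]
        gcongr <;> exact hB _
      _ = _ := by ring
  have ht : Filter.Tendsto (fun k : ℕ => B * (v q ^ k + v m ^ k)) Filter.atTop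
      (nhds (B * (0 + 0))) :=
    ((tendsto_pow_atTop_nhds_zero_of_lt_one (v.nonneg _) h).add
      (tendsto_pow_atTop_nhds_zero_of_lt_one (v.nonneg _) hm)).const_mul B
  have := ge_of_tendsto' ht hk
  norm_num at this

theorem exists_kappa : ∃ κ : ℝ, 0 < κ ∧ κ ≤ 1 ∧ ∀ n : ℕ, (n : F) ≠ 0 → κ ^ n ≤ v n := by
  have h1 : ∃ κ : ℝ, 0 < κ ∧ κ ≤ 1 ∧ ∀ p : ℕ, p.Prime → (p : F) ≠ 0 → κ ≤ v p := by
    by_cases h : ∃ q : ℕ, q.Prime ∧ (q : F) ≠ 0 ∧ v q < 1
    · obtain ⟨q, hq, hq0, hq1⟩ := h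
      refine ⟨v q, v.pos hq0, hq1.le, fun p hp _ => ?_⟩
      by_cases hpq : q = p
      · rw [hpq]
      · exact hq1.le.trans (one_le_of_coprime v hq.two_le hq1 ((Nat.coprime_primes hq hp).2 hpq))
    · push Not at h
      exact ⟨1, one_pos, le_rfl, h⟩
  obtain ⟨κ, h0, h1, h2⟩ := h1
  refine ⟨κ, h0, h1, fun n => ?_⟩
  induction n using induction_on_primes with
  | zero => simp
  | one => simpa using h1
  | prime_mul p a hp ih =>
    intro hn
    rw [Nat.cast_mul] at hn ⊢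
    have ha : a ≠ 0 := by rintro rfl; simp at hn
    have h3 : a + 1 ≤ p * a := by
      have := hp.two_le
      have := Nat.pos_of_ne_zero ha
      nlinarith
    calc κ ^ (p * a) ≤ κ ^ (a + 1) := pow_le_pow_of_le_one h0.le h1 h3
      _ = κ * κ ^ a := by ring
      _ ≤ v p * v a := mul_le_mul (h2 p hp (left_ne_zero_of_mul hn))
          (ih (right_ne_zero_of_mul hn)) (by positivity) (v.nonneg _)
      _ = _ := (map_mul v _ _).symm

theorem binom_rem {a : F} (ha : v a ≤ 1) (n : ℕ) :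
    v ((1 + a) ^ n - 1 - n * a) ≤ 3 ^ n * v a ^ 2 := by
  induction n with
  | zero => simp
  | succ n ih =>
    have h1 : (1 + a) ^ (n + 1) - 1 - (n + 1 : ℕ) * a =
        ((1 + a) ^ n - 1 - n * a) * (1 + a) + n * a ^ 2 := by push_cast; ring
    have h2 : v (1 + a) ≤ 2 := (v.add_le _ _).trans (by rw [map_one]; linarith)
    have h3 : v n ≤ 3 ^ n := (v.apply_nat_le_self n).trans (by
      exact_mod_cast (Nat.lt_pow_self (by norm_num)).le)
    calc _ ≤ v ((1 + a) ^ n - 1 - n * a) * v (1 + a) + v n * v a ^ 2 := by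
          rw [h1, ← map_mul, ← map_pow, ← map_mul]; exact v.add_le _ _
      _ ≤ 3 ^ n * v a ^ 2 * 2 + 3 ^ n * v a ^ 2 := by gcongr
      _ = _ := by ring

theorem half_le {a : F} (ha : v a ≤ 1 / 2) : 1 / 2 ≤ v (1 + a) := by
  have := v.sub_le_add (1 + a) a
  rw [add_sub_cancel_right, map_one] at this
  linarith

theorem newton_step {κ : ℝ} (h0 : 0 < κ) (h1 : κ ≤ 1) {n : ℕ} (hn : 0 < n) (hv : κ ^ n ≤ v n)
    {e : F} (he : v e ≤ (κ ^ 2 / 12) ^ n) :
    ∃ s e' : F, 1 + e = s ^ n * (1 + e') ∧ v e' ≤ v e / 2 := by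
  have hκn : 0 < κ ^ n := by positivity
  have hn0 : (n : F) ≠ 0 := by
    intro h; rw [h, map_zero] at hv; linarith
  set a := e / n with ha
  have hva : v a ≤ v e / κ ^ n := by
    rw [ha, map_div₀]; gcongr
  have hva2 : v a ≤ 1 / 2 := by
    calc v a ≤ (κ ^ 2 / 12) ^ n / κ ^ n := hva.trans (by gcongr)
      _ = (κ / 12) ^ n := by rw [← div_pow]; congr 1; field_simp
      _ ≤ (κ / 12) ^ 1 := pow_le_pow_of_le_one (by positivity) (by linarith) hn
      _ ≤ 1 / 2 := by linarith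
  have h2 := half_le v hva2
  have h3 : 1 + a ≠ 0 := by intro h; rw [h, map_zero] at h2; linarith
  have hna : n * a = e := by rw [ha]; field_simp
  have h4 := binom_rem v (a := a) (by linarith) n
  rw [hna] at h4
  refine ⟨1 + a, -((1 + a) ^ n - 1 - e) / (1 + a) ^ n, by field_simp; ring, ?_⟩
  rw [map_div₀, v.map_neg, map_pow]
  have h5 := v.nonneg e
  calc _ ≤ 3 ^ n * (v e / κ ^ n) ^ 2 / (1 / 2) ^ n := by
        gcongr
        exact h4.trans (by gcongr)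
    _ = v e * (v e * (6 / κ ^ 2) ^ n) := by
        rw [show (6 : ℝ) = 3 * 2 by norm_num, div_pow (3 * 2), mul_pow, ← pow_mul, mul_comm 2 n,
          pow_mul, one_div, inv_pow]
        field_simp
    _ ≤ v e * ((κ ^ 2 / 12) ^ n * (6 / κ ^ 2) ^ n) := by gcongr
    _ = v e * (1 / 2) ^ n := by rw [← mul_pow]; congr 2; field_simp; norm_num
    _ ≤ v e * (1 / 2) ^ 1 := by
        gcongr ?_ * ?_
        exact pow_le_pow_of_le_one (by norm_num) (by norm_num) hn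
    _ = v e / 2 := by ring

theorem approx_root {κ : ℝ} (h0 : 0 < κ) (h1 : κ ≤ 1) {n : ℕ} (hn : 0 < n) (hv : κ ^ n ≤ v n)
    {f : F} (hf : v (1 - f) ≤ (κ ^ 2 / 12) ^ n) {η : ℝ} (hη : 0 < η) :
    ∃ s : F, v (s ^ n - f) ≤ η := by
  have hδ : (κ ^ 2 / 12) ^ n ≤ 1 / 2 := by
    have : κ ^ 2 ≤ 1 := pow_le_one₀ h0.le h1
    calc _ ≤ (κ ^ 2 / 12) ^ 1 := pow_le_pow_of_le_one (by positivity) (by linarith) hn
      _ ≤ _ := by linarith
  have key : ∀ k : ℕ, ∃ s e : F, f = s ^ n * (1 + e) ∧ v e ≤ (κ ^ 2 / 12) ^ n * (1 / 2) ^ k := by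
    intro k
    induction k with
    | zero => exact ⟨1, f - 1, by simp, by rw [v.map_sub]; simpa using hf⟩
    | succ k ih =>
      obtain ⟨s, e, h2, h3⟩ := ih
      obtain ⟨s', e', h4, h5⟩ := newton_step v h0 h1 hn hv (e := e) (h3.trans
        (mul_le_of_le_one_right (by positivity) (pow_le_one₀ (by norm_num) (by norm_num))))
      refine ⟨s * s', e', by rw [h2, h4, mul_pow, mul_assoc], h5.trans ?_⟩
      rw [pow_succ (1 / 2 : ℝ)]; linarith
  obtain ⟨k, hk⟩ := exists_pow_lt_of_lt_one (show 0 < η / 4 by positivity)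
    (show (1 / 2 : ℝ) < 1 by norm_num)
  obtain ⟨s, e, h2, h3⟩ := key k
  have h4 : v e ≤ (1 / 2) ^ k :=
    h3.trans (mul_le_of_le_one_left (by positivity) (by linarith))
  have h5 : v e ≤ 1 / 2 := h3.trans ((mul_le_of_le_one_right (by positivity)
    (pow_le_one₀ (by norm_num) (by norm_num))).trans hδ)
  have h6 := half_le v h5
  have h7 : v f ≤ 2 := by
    have := v.sub_le_add 1 (1 - f)
    rw [sub_sub_cancel, map_one] at this
    linarith
  have h8 : v (s ^ n) ≤ 4 := by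
    rw [h2, map_mul] at h7
    nlinarith [v.nonneg (s ^ n)]
  refine ⟨s, ?_⟩
  have h9 : s ^ n - f = -(s ^ n * e) := by rw [h2]; ring
  rw [h9, v.map_neg, map_mul]
  calc _ ≤ 4 * (1 / 2) ^ k := by gcongr
    _ ≤ η := by linarith

end Abs

section CL

variable {G : Type v} [Group G]

/-- `z` is a product of `k` commutators. -/
def CL (k : ℕ) (z : G) : Prop :=
  ∃ L : List (G × G), L.length = k ∧ (L.map fun p => p.1 * p.2 * p.1⁻¹ * p.2⁻¹).prod = z

theorem CL.one : CL 0 (1 : G) := ⟨[], rfl, rfl⟩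

theorem CL.single (a b : G) : CL 1 (a * b * a⁻¹ * b⁻¹) := ⟨[(a, b)], rfl, by simp⟩

theorem CL.mul {j k : ℕ} {x y : G} (hx : CL j x) (hy : CL k y) : CL (j + k) (x * y) := by
  obtain ⟨L, rfl, rfl⟩ := hx
  obtain ⟨M, rfl, rfl⟩ := hy
  exact ⟨L ++ M, by simp, by simp⟩

theorem CL.conj {k : ℕ} {x : G} (hx : CL k x) (y : G) : CL k (y * x * y⁻¹) := by
  obtain ⟨L, rfl, rfl⟩ := hx
  induction L with
  | nil => simpa using CL.one
  | cons p L ih =>
    have := (CL.single (y * p.1 * y⁻¹) (y * p.2 * y⁻¹)).mul ih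
    rw [List.length_cons, add_comm]
    convert this using 1
    simp only [List.map_cons, List.prod_cons]
    group

theorem CL.inv {k : ℕ} {x : G} (hx : CL k x) : CL k x⁻¹ := by
  obtain ⟨L, rfl, rfl⟩ := hx
  induction L with
  | nil => simpa using CL.one
  | cons p L ih =>
    have := ih.mul (CL.single p.2 p.1)
    rw [List.length_cons]
    convert this using 1
    simp only [List.map_cons, List.prod_cons]
    group

end CL

variable {F : Type u} {D : Type v} [Field F] [DivisionRing D] [Algebra F D]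

/-- `x` and `y` differ by a product of `k` commutators. -/
def Rl (k : ℕ) (x y : D) : Prop := ∃ z : Dˣ, CL k z ∧ x = z * y

theorem Rl.refl (x : D) : Rl 0 x x := ⟨1, CL.one, by simp⟩

theorem Rl.symm {k : ℕ} {x y : D} (h : Rl k x y) : Rl k y x := by
  obtain ⟨z, hz, rfl⟩ := h
  exact ⟨z⁻¹, hz.inv, by simp⟩

theorem Rl.trans {j k : ℕ} {x y w : D} (h : Rl j x y) (h' : Rl k y w) : Rl (j + k) x w := by
  obtain ⟨z, hz, rfl⟩ := h
  obtain ⟨z', hz', rfl⟩ := h'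
  exact ⟨z * z', hz.mul hz', by simp [mul_assoc]⟩

theorem Rl.mul {j k : ℕ} {x y x' y' : D} (h : Rl j x y) (h' : Rl k x' y') :
    Rl (j + k) (x * x') (y * y') := by
  obtain ⟨z, hz, rfl⟩ := h
  obtain ⟨z', hz', rfl⟩ := h'
  by_cases hy : y = 0
  · exact ⟨z * z', hz.mul hz', by simp [hy]⟩
  · refine ⟨z * (Units.mk0 y hy * z' * (Units.mk0 y hy)⁻¹), hz.mul (hz'.conj _), ?_⟩
    simp [mul_assoc, inv_mul_cancel_left₀ hy]

theorem Rl.swap (a b : D) : Rl 1 (a * b) (b * a) := by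
  by_cases ha : a = 0
  · exact ⟨_, CL.single 1 1, by simp [ha]⟩
  by_cases hb : b = 0
  · exact ⟨_, CL.single 1 1, by simp [hb]⟩
  refine ⟨_, CL.single (Units.mk0 a ha) (Units.mk0 b hb), ?_⟩
  simp [mul_assoc, inv_mul_cancel_left₀ hb, inv_mul_cancel₀ ha]

theorem Rl.of_cj {a c : D} (h : Cj a c) : Rl 1 c a := by
  obtain ⟨y, hy, rfl⟩ := h
  have := Rl.swap (y * a) y⁻¹
  rwa [inv_mul_cancel_left₀ hy] at this

theorem Rl.pow {k : ℕ} {x y : D} (h : Rl k x y) (j : ℕ) : Rl (k * j) (x ^ j) (y ^ j) := by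
  induction j with
  | zero => simpa using Rl.refl 1
  | succ j ih => rw [pow_succ, pow_succ, mul_add, mul_one]; exact ih.mul h

theorem Rl.mul_pow (a b : D) (m : ℕ) : Rl m ((a * b) ^ m) (a ^ m * b ^ m) := by
  induction m with
  | zero => simpa using Rl.refl 1
  | succ m ih =>
    have h1 := ih.mul (Rl.refl (a * b))
    have h2 := ((Rl.refl (a ^ m)).mul (Rl.swap (b ^ m) a)).mul (Rl.refl b)
    have h3 : a ^ m * b ^ m * (a * b) = a ^ m * (b ^ m * a) * b := by simp only [mul_assoc]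
    rw [h3] at h1
    have h4 := h1.trans h2
    rw [pow_succ, pow_succ, pow_succ]
    simpa only [mul_assoc, zero_add, add_zero] using h4

theorem Rl.list {a : D} (l : List D) (h : ∀ c ∈ l, Cj a c) : Rl l.length l.prod (a ^ l.length) := by
  induction l with
  | nil => simpa using Rl.refl 1
  | cons c l ih =>
    rw [List.prod_cons, List.length_cons, pow_succ', add_comm]
    exact (Rl.of_cj (h c List.mem_cons_self)).mul (ih fun c hc => h c (List.mem_cons_of_mem _ hc))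

variable (v : AbsoluteValue F ℝ)

/-- `α` is the normalised size of the algebraic element `a`. -/
def Nu (a : D) (α : ℝ) : Prop :=
  0 < α ∧ ∃ (d : ℕ) (A : F), 0 < d ∧ Rl d (algebraMap F D A) (a ^ d) ∧ v A = α ^ d

theorem Nu.scale {a : D} {α : ℝ} (h : Nu v a α) : ∃ d : ℕ, 0 < d ∧ ∀ m, d ∣ m →
    ∃ A : F, Rl m (algebraMap F D A) (a ^ m) ∧ v A = α ^ m := by
  obtain ⟨-, d, A, hd, h1, h2⟩ := h
  refine ⟨d, hd, ?_⟩
  rintro _ ⟨j, rfl⟩
  refine ⟨A ^ j, ?_, by rw [map_pow, h2, pow_mul]⟩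
  rw [map_pow, pow_mul]
  exact h1.pow j

theorem Nu.four {C : ℝ} (hC1 : 0 ≤ C)
    (hC : ∀ (k : ℕ) (z : Dˣ) (f : F), CL k z → (z : D) = algebraMap F D f → v f ≤ C ^ k)
    {a b c d : D} {α β γ δ : ℝ} (ha : Nu v a α) (hb : Nu v b β) (hc : Nu v c γ) (hd : Nu v d δ)
    (h : a * b = c * d) : α * β ≤ C ^ 6 * (γ * δ) := by
  obtain ⟨d1, p1, q1⟩ := ha.scale
  obtain ⟨d2, p2, q2⟩ := hb.scale
  obtain ⟨d3, p3, q3⟩ := hc.scale
  obtain ⟨d4, p4, q4⟩ := hd.scale
  set m := d1 * d2 * d3 * d4 with hm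
  have hm0 : m ≠ 0 := by positivity
  obtain ⟨A, r1, s1⟩ := q1 m ⟨d2 * d3 * d4, by ring⟩
  obtain ⟨B, r2, s2⟩ := q2 m ⟨d1 * d3 * d4, by ring⟩
  obtain ⟨E, r3, s3⟩ := q3 m ⟨d1 * d2 * d4, by ring⟩
  obtain ⟨G, r4, s4⟩ := q4 m ⟨d1 * d2 * d3, by ring⟩
  have h1 := (r1.mul r2).trans (Rl.mul_pow a b m).symm
  have h2 := (r3.mul r4).trans (Rl.mul_pow c d m).symm
  rw [h] at h1
  obtain ⟨z, hz, hz2⟩ := h1.trans h2.symm
  have hγ := hc.1
  have hδ := hd.1
  have hEG : 0 < v (E * G) := by rw [map_mul, s3, s4]; positivity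
  have hEG0 : E * G ≠ 0 := by intro h0; rw [h0, map_zero] at hEG; exact lt_irrefl _ hEG
  have h3 := hC _ z (A * B / (E * G)) hz (by
    rw [div_eq_mul_inv, map_mul, map_mul, hz2, ← map_mul, mul_assoc, ← map_mul,
      mul_inv_cancel₀ hEG0, map_one, mul_one])
  rw [map_div₀, div_le_iff₀ hEG, map_mul, map_mul, s1, s2, s3, s4] at h3
  refine le_of_pow_le_pow_left₀ hm0 (by positivity) ?_
  rw [mul_pow, mul_pow, mul_pow, ← pow_mul]
  convert h3 using 3
  ring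

theorem Hyp.nu_sub (H : Hyp F D) {x : D} (hx : ¬ ∃ f : F, algebraMap F D f = x)
    (hint : IsIntegral F x) {n : ℕ} {f : F} (hmin : minpoly F x = X ^ n - C f) (τ : F) :
    ∃ α : ℝ, Nu v (algebraMap F D τ - x) α ∧ α ^ n = v (τ ^ n - f) := by
  obtain ⟨l, hl, hlen, hp⟩ := wedderburn H.cen hint
  have hn : 0 < n := by
    have := minpoly.natDegree_pos hint
    rwa [hmin, natDegree_X_pow_sub_C] at this
  rw [hmin, natDegree_X_pow_sub_C] at hlen
  have h1 := eval_prod_list_central l τ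
  rw [hp, hmin, eval_map_eq_aeval, aeval_algebraMap_apply] at h1
  have h2 := Rl.list (a := algebraMap F D τ - x) (l.map fun c => algebraMap F D τ - c) (by
    intro c hc
    obtain ⟨c', hc', rfl⟩ := List.mem_map.1 hc
    obtain ⟨y, hy, rfl⟩ := hl c' hc'
    refine ⟨y, hy, ?_⟩
    rw [mul_sub, sub_mul, ← Algebra.commutes, mul_inv_cancel_right₀ hy])
  rw [← h1, List.length_map, hlen] at h2
  simp only [map_sub, map_pow, aeval_X, aeval_C, Algebra.algebraMap_self, RingHom.id_apply] at h2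
  rw [← map_pow, ← map_sub] at h2
  have h3 : τ ^ n - f ≠ 0 := by
    intro h0
    obtain ⟨z, -, hz⟩ := h2
    rw [h0, map_zero] at hz
    have := (mul_eq_zero.1 hz.symm).resolve_left z.ne_zero
    exact hx ⟨τ, sub_eq_zero.1 (pow_eq_zero_iff hn.ne' |>.1 this)⟩
  have h4 := v.pos h3
  have h5 := Real.rpow_inv_natCast_pow h4.le hn.ne'
  exact ⟨_, ⟨Real.rpow_pos_of_pos h4 _, n, _, hn, h2, h5.symm⟩, h5⟩

theorem Hyp.family (H : Hyp F D) {C : ℝ} (hC1 : 0 ≤ C)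
    (hC : ∀ (k : ℕ) (z : Dˣ) (f : F), CL k z → (z : D) = algebraMap F D f → v f ≤ C ^ k)
    {x : D} (hx : ¬ ∃ f : F, algebraMap F D f = x)
    (hint : IsIntegral F x) {n : ℕ} {f : F} (hmin : minpoly F x = X ^ n - Polynomial.C f) :
    ∃ u : D, ∀ τ : F, ∃ (h : D) (n' : ℕ) (f' : F) (a β : ℝ),
      (¬ ∃ g : F, algebraMap F D g = h) ∧ 0 < n' ∧ (n' : F) ≠ 0 ∧ IsIntegral F h ∧
      minpoly F h = X ^ n' - Polynomial.C f' ∧ a ^ n' = v (1 - f') ∧ β ^ n = v (τ ^ n - f) ∧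
      a ≤ 1 + C ∧ ∃ p q : D, Nu v p a ∧ Nu v q β ∧ p * q = u := by
  have : ∃ y, x * y ≠ y * x := by
    by_contra h
    push Not at h
    exact hx (H.cen x h)
  obtain ⟨y, hy⟩ := this
  have hy0 : y ≠ 0 := by rintro rfl; simp at hy
  have hne : y * x * y⁻¹ ≠ x := by
    intro h; apply hy; rw [mul_inv_eq_iff_eq_mul₀ hy0] at h; exact h.symm
  refine ⟨y * x * y⁻¹ - x, fun τ => ?_⟩
  obtain ⟨h1, h2, h3⟩ := H.ratio (t := -algebraMap F D τ) hy0 hne
    (Algebra.commute_algebraMap_left τ y).neg_left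
  obtain ⟨m, hm, f0, hf0⟩ := H.rad y _ hy0 h1
  obtain ⟨n', f', hn2, hnF, hf', hint', hmin'⟩ := H.minpoly_radical h3 hm hf0
  obtain ⟨a, ha, ha'⟩ := H.nu_sub v h3 hint' hmin' 1
  obtain ⟨β, hβ, hβ'⟩ := H.nu_sub v hx hint hmin τ
  rw [one_pow] at ha'
  refine ⟨_, n', f', a, β, h3, by omega, hnF, hint', hmin', ha', hβ', ?_, _, _, ha, hβ, ?_⟩
  · have h4 : Rl 1 (y * (x + -algebraMap F D τ) * y⁻¹ * (x + -algebraMap F D τ)⁻¹) 1 := by
      have := (Rl.of_cj (⟨y, hy0, rfl⟩ : Cj (x + -algebraMap F D τ) _)).mul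
        (Rl.refl (x + -algebraMap F D τ)⁻¹)
      rwa [mul_inv_cancel₀ h1] at this
    obtain ⟨z, hz, hz2⟩ := h4.pow n'
    rw [hf', one_pow, mul_one] at hz2
    have h5 := hC _ z f' hz hz2.symm
    rw [one_mul] at h5
    refine le_of_pow_le_pow_left₀ (n := n') (by omega) (by positivity) ?_
    have h6 := v.sub_le_add 1 f'
    rw [map_one] at h6
    have h7 : 1 + C ^ n' ≤ (1 + C) ^ n' := by
      have := pow_add_pow_le (x := (1 : ℝ)) (y := C) (n := n') zero_le_one hC1 (by omega)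
      rwa [one_pow] at this
    linarith
  · rw [h2, map_one, sub_add_cancel_left, ← neg_sub x (algebraMap F D τ), neg_mul_neg, sub_eq_add_neg x,
      inv_mul_cancel_right₀ h1]

theorem Hyp.comm_of_abs (H : Hyp F D) (hv : v.IsNontrivial) {C : ℝ}
    (hC : ∀ (k : ℕ) (z : Dˣ) (f : F), CL k z → (z : D) = algebraMap F D f → v f ≤ C ^ k)
    (a b : D) : a * b = b * a := by
  by_contra hab
  have hC1 : 1 ≤ C := by simpa using hC 1 _ 1 (CL.single 1 1) (by simp)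
  have hC0 : 0 ≤ C := by linarith
  obtain ⟨κ, hκ0, hκ1, hκ⟩ := exists_kappa v
  obtain ⟨x0, y0, hx0, hy0, hr⟩ := H.exists_noncentral hab
  obtain ⟨m, hm, f0, h0⟩ := H.rad x0 y0 hx0 hy0
  generalize x0 * y0 * x0⁻¹ * y0⁻¹ = r at hr h0
  obtain ⟨n, f, hn2, -, -, hint, hmin⟩ := H.minpoly_radical hr hm h0
  obtain ⟨u, hu⟩ := H.family v hC0 hC hr hint hmin
  obtain ⟨-, -, -, a0, β0, -, -, -, -, -, -, -, -, p0, q0, hp0, hq0, hpq0⟩ := hu 0
  set ε := κ ^ 2 / 12 with hε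
  have hε0 : 0 < ε := by positivity
  set M := C ^ 6 * (a0 * β0) / ε with hM
  obtain ⟨t, ht⟩ := hv.exists_abv_gt_one
  obtain ⟨j, hj⟩ := pow_unbounded_of_one_lt (M ^ n + v f) ht
  obtain ⟨g, n', f', a1, β1, hg, hn', hn'F, hgi, hgm, ha1, hβ1, -, p1, q1, hp1, hq1, hpq1⟩ :=
    hu (t ^ j)
  have h1 := Nu.four v hC0 hC hp1 hq1 hp0 hq0 (hpq1.trans hpq0.symm)
  have h2 : M ≤ β1 := by
    refine le_of_pow_le_pow_left₀ (n := n) (by omega) hq1.1.le ?_
    have h3 := v.add_le ((t ^ j) ^ n - f) f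
    rw [sub_add_cancel, map_pow, map_pow, ← hβ1] at h3
    have h4 : v t ^ j ≤ (v t ^ j) ^ n := le_self_pow₀ (one_le_pow₀ ht.le) (by omega)
    linarith
  have h3 : a1 ≤ ε := by
    have h4 : C ^ 6 * (a0 * β0) = ε * M := by rw [hM]; field_simp
    have h5 : a1 * β1 ≤ ε * β1 := by
      calc _ ≤ ε * M := h4 ▸ h1
        _ ≤ _ := by gcongr
    exact le_of_mul_le_mul_right h5 hq1.1
  have h4 : v (1 - f') ≤ ε ^ n' := by
    rw [← ha1]; exact pow_le_pow_left₀ hp1.1.le h3 _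
  obtain ⟨w, hw⟩ := H.family v hC0 hC hg hgi hgm
  obtain ⟨-, -, -, a2, β2, -, -, -, -, -, -, -, -, p2, q2, hp2, hq2, hpq2⟩ := hw 0
  have hpos : 0 < a2 * β2 := mul_pos hp2.1 hq2.1
  set η := a2 * β2 / (2 * (C ^ 6 * (1 + C))) with hη
  have hη0 : 0 < η := by positivity
  obtain ⟨s, hs⟩ := approx_root v hκ0 hκ1 hn' (hκ n' hn'F) h4 (pow_pos hη0 n')
  obtain ⟨-, -, -, a3, β3, -, -, -, -, -, -, hβ3, ha3, p3, q3, hp3, hq3, hpq3⟩ := hw s
  have h5 := Nu.four v hC0 hC hp2 hq2 hp3 hq3 (hpq2.trans hpq3.symm)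
  have h6 : β3 ≤ η := le_of_pow_le_pow_left₀ hn'.ne' hη0.le (hβ3 ▸ hs)
  have h7 : C ^ 6 * (a3 * β3) ≤ C ^ 6 * ((1 + C) * η) := by
    have := hq3.1.le
    gcongr
  have h8 : C ^ 6 * ((1 + C) * η) = a2 * β2 / 2 := by rw [hη]; field_simp
  linarith

end Pool.Agent.MP_8ed1d4_al
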