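import Pool.Agent.MP_8ed1d4_al.Cyclo

set_option autoImplicit false

/-!
Congruences modulo powers of a central element in a subring.
-/

namespace Pool.Agent.MP_8ed1d4_al

universe u v

variable {D : Type v} [DivisionRing D]

/-- `z` is a multiple of `s` by an element of `R`. -/
def Dv (R : Subring D) (s z : D) : Prop := ∃ r ∈ R, z = s * r

namespace Dv

variable {R : Subring D} {s s' z w : D}

theorem add (h : Dv R s z) (h' : Dv R s w) : Dv R s (z + w) := by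
  obtain ⟨r, hr, rfl⟩ := h
  obtain ⟨r', hr', rfl⟩ := h'
  exact ⟨r + r', R.add_mem hr hr', (mul_add _ _ _).symm⟩

theorem sub (h : Dv R s z) (h' : Dv R s w) : Dv R s (z - w) := by
  obtain ⟨r, hr, rfl⟩ := h
  obtain ⟨r', hr', rfl⟩ := h'
  exact ⟨r - r', R.sub_mem hr hr', (mul_sub _ _ _).symm⟩

theorem right (h : Dv R s z) (hw : w ∈ R) : Dv R s (z * w) := by
  obtain ⟨r, hr, rfl⟩ := h
  exact ⟨r * w, R.mul_mem hr hw, mul_assoc _ _ _⟩

theorem left (hs : ∀ a, s * a = a * s) (h : Dv R s z) (hw : w ∈ R) : Dv R s (w * z) := by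
  obtain ⟨r, hr, rfl⟩ := h
  exact ⟨w * r, R.mul_mem hw hr, by rw [← mul_assoc, ← hs w, mul_assoc]⟩

theorem mul (hs : ∀ a, s' * a = a * s') (h : Dv R s z) (h' : Dv R s' w) :
    Dv R (s * s') (z * w) := by
  obtain ⟨r, hr, rfl⟩ := h
  obtain ⟨r', hr', rfl⟩ := h'
  exact ⟨r * r', R.mul_mem hr hr', by
    rw [mul_assoc, ← mul_assoc r, ← hs r, mul_assoc, mul_assoc]⟩

theorem mono (h : Dv R (s * s') z) (hs : s' ∈ R) : Dv R s z := by
  obtain ⟨r, hr, rfl⟩ := h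
  exact ⟨s' * r, R.mul_mem hs hr, mul_assoc _ _ _⟩

theorem cancel (hs : s ≠ 0) (h : Dv R (s * s') (s * z)) : Dv R s' z := by
  obtain ⟨r, hr, e⟩ := h
  exact ⟨r, hr, mul_left_cancel₀ hs (by rw [e, mul_assoc])⟩

theorem self (hz : z ∈ R) : Dv R s (s * z) := ⟨z, hz, rfl⟩

theorem pow_sub_one {g : D} (hg : g ∈ R) (h : Dv R s (g - 1)) (l : ℕ) : Dv R s (g ^ l - 1) := by
  induction l with
  | zero => exact ⟨0, R.zero_mem, by simp⟩
  | succ l ih =>
    have e : g ^ (l + 1) - 1 = (g ^ l - 1) * g + (g - 1) := by rw [pow_succ]; noncomm_ring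
    rw [e]
    exact (ih.right hg).add h

theorem pow_comm {g q : D} (hs : ∀ a, s * a = a * s) (hq : ∀ a, q * a = a * q) (hg : g ∈ R)
    (h : Dv R q (g - 1)) (hd : Dv R s (g * z - z * g)) (l : ℕ) :
    Dv R (s * q) (g ^ l * z - z * g ^ l - l * (g * z - z * g)) := by
  induction l with
  | zero => exact ⟨0, R.zero_mem, by simp⟩
  | succ l ih =>
    have e : g ^ (l + 1) * z - z * g ^ (l + 1) - ((l + 1 : ℕ) : D) * (g * z - z * g) =
        (g ^ l - 1) * (g * z - z * g) +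
          (g ^ l * z - z * g ^ l - l * (g * z - z * g)) * g +
          (l : D) * (g * z - z * g) * (g - 1) := by
      rw [pow_succ, Nat.cast_succ]; noncomm_ring
    rw [e]
    refine Dv.add (Dv.add ?_ (ih.right hg)) (Dv.mul hq (hd.left hs (natCast_mem R l)) h)
    rw [hs q]
    exact Dv.mul hs (pow_sub_one hg h l) hd

end Dv

section

variable {R : Subring D} {σ z : D}

theorem adic_prime (hσ : ∀ a, σ * a = a * σ) {l : ℕ} (hl : (l : D) ≠ 0)
    (hρ : Dv R l σ) {g : D} (hg : g ∈ R) (h : Dv R (σ * σ) (g - 1)) (hz : z ∈ R)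
    (hJ : ∀ j : ℕ, Dv R (σ ^ j) (g ^ l * z - z * g ^ l)) (j : ℕ) :
    Dv R (σ ^ j) (g * z - z * g) := by
  induction j with
  | zero => exact ⟨_, R.sub_mem (R.mul_mem hg hz) (R.mul_mem hz hg), by simp⟩
  | succ j ih =>
    have hc : ∀ (k : ℕ) a, σ ^ k * a = a * σ ^ k := fun k a =>
      (Commute.pow_left (hσ a) k).eq
    have h1 := Dv.pow_comm (hc j) (fun a => by rw [mul_assoc, hσ a, ← mul_assoc, hσ a, mul_assoc])
      hg h ih l
    have h2 : Dv R (σ ^ j * (σ * σ)) (g ^ l * z - z * g ^ l) := by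
      have := hJ (j + 2)
      rwa [pow_add, pow_two] at this
    have h3 := h2.sub h1
    rw [sub_sub_cancel] at h3
    obtain ⟨ρ, hρ, e⟩ := hρ
    have e2 : σ ^ j * (σ * σ) = l * (σ ^ (j + 1) * ρ) := by
      rw [← mul_assoc, ← pow_succ, ← mul_assoc, ← hc (j + 1), mul_assoc, ← e]
    rw [e2] at h3
    exact (h3.cancel hl).mono hρ

theorem adic_all (hσ : ∀ a, σ * a = a * σ)
    (hρ : ∀ l : ℕ, l.Prime → (l : D) ≠ 0 → Dv R l σ) (hz : z ∈ R) (n : ℕ) :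
    (n : D) ≠ 0 → ∀ g ∈ R, Dv R (σ * σ) (g - 1) →
      (∀ j : ℕ, Dv R (σ ^ j) (g ^ n * z - z * g ^ n)) →
      ∀ j : ℕ, Dv R (σ ^ j) (g * z - z * g) := by
  induction n using induction_on_primes with
  | zero => intro h; simp at h
  | one => intro _ g _ _ h; simpa using h
  | prime_mul l m hl ih =>
    intro hn g hg h hJ
    rw [Nat.cast_mul] at hn
    have h1 := left_ne_zero_of_mul hn
    refine ih (right_ne_zero_of_mul hn) g hg h ?_
    refine adic_prime hσ h1 (hρ l hl h1) (R.pow_mem hg m) (Dv.pow_sub_one hg h m) hz ?_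
    rwa [← pow_mul, mul_comm m l]

end

/-- One can invert all primes but one without inverting `t`. -/
theorem exists_loc (L : Subring D) {t : D} (ht : ¬ Dv L t 1) :
    ∃ (R : Subring D) (P : ℕ), L ≤ R ∧ ¬ Dv R t 1 ∧ (P : D) ≠ 0 ∧
      ∀ l : ℕ, l.Prime → (l : D) ≠ 0 → Dv R l P := by
  let I : Ideal ℤ :=
    { carrier := {n | Dv L t n}
      add_mem' := fun {a b} ha hb => by
        have := Dv.add ha hb
        rwa [← Int.cast_add] at this
      zero_mem' := ⟨0, L.zero_mem, by simp⟩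
      smul_mem' := fun c a ha => by
        have := Dv.right ha (intCast_mem L c)
        rwa [← Int.cast_mul, mul_comm a c] at this }
  have hI : I ≠ ⊤ := fun e => ht (by
    have : (1 : ℤ) ∈ I := e ▸ Submodule.mem_top
    have h2 : Dv L t ((1 : ℤ) : D) := this
    rwa [Int.cast_one] at h2)
  obtain ⟨M, hM, hIM⟩ := Ideal.exists_le_maximal I hI
  have hp := hM.isPrime
  let R : Subring D :=
    { carrier := {z | ∃ s : ℤ, s ∉ M ∧ (s : D) * z ∈ L}
      mul_mem' := by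
        rintro a b ⟨s, hs, ha⟩ ⟨s', hs', hb⟩
        refine ⟨s * s', fun h => (hp.mem_or_mem h).elim hs hs', ?_⟩
        have e : ((s * s' : ℤ) : D) * (a * b) = s * a * (s' * b) := by
          rw [Int.cast_mul, mul_assoc, mul_assoc, ← mul_assoc a, ← (Int.cast_commute s' a).eq,
            mul_assoc]
        rw [e]
        exact L.mul_mem ha hb
      one_mem' := ⟨1, fun h => hM.ne_top ((Ideal.eq_top_iff_one M).2 h), by simp⟩
      add_mem' := by
        rintro a b ⟨s, hs, ha⟩ ⟨s', hs', hb⟩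
        refine ⟨s * s', fun h => (hp.mem_or_mem h).elim hs hs', ?_⟩
        have e : ((s * s' : ℤ) : D) * (a + b) = s' * (s * a) + s * (s' * b) := by
          rw [mul_add, ← mul_assoc, ← mul_assoc, ← Int.cast_mul, ← Int.cast_mul, mul_comm s' s]
        rw [e]
        exact L.add_mem (L.mul_mem (intCast_mem L _) ha) (L.mul_mem (intCast_mem L _) hb)
      zero_mem' := ⟨1, fun h => hM.ne_top ((Ideal.eq_top_iff_one M).2 h), by simp⟩
      neg_mem' := by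
        rintro a ⟨s, hs, ha⟩
        exact ⟨s, hs, by rw [mul_neg]; exact L.neg_mem ha⟩ }
  have h1 : (1 : ℤ) ∉ M := fun h => hM.ne_top ((Ideal.eq_top_iff_one M).2 h)
  have hLR : L ≤ R := fun z hz => ⟨1, h1, by simpa using hz⟩
  have hR : ¬ Dv R t 1 := by
    rintro ⟨r, ⟨s, hs, hr⟩, e⟩
    refine hs (hIM ⟨_, hr, ?_⟩)
    rw [← mul_assoc, ← (Int.cast_commute s t).eq, mul_assoc, ← e, mul_one]
  have hu : ∀ l : ℕ, (l : D) ≠ 0 → (l : ℤ) ∉ M → ∀ P : ℕ, Dv R l P := fun l hl hlM P =>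
    ⟨(l : D)⁻¹ * P, ⟨l, hlM, by
      rw [Int.cast_natCast, mul_inv_cancel_left₀ hl]; exact natCast_mem L P⟩,
      (mul_inv_cancel_left₀ hl _).symm⟩
  by_cases hP : ∃ p : ℕ, p.Prime ∧ (p : D) ≠ 0 ∧ (p : ℤ) ∈ M
  · obtain ⟨p, hp1, hp2, hp3⟩ := hP
    refine ⟨R, p, hLR, hR, hp2, fun l hl hl0 => ?_⟩
    by_cases e : l = p
    · exact ⟨1, R.one_mem, by rw [e, mul_one]⟩
    refine hu l hl0 (fun hlM => h1 ?_) p
    obtain ⟨a, b, hab⟩ := Nat.isCoprime_iff_coprime.2 ((Nat.coprime_primes hl hp1).2 e)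
    rw [← hab]
    exact M.add_mem (M.mul_mem_left _ hlM) (M.mul_mem_left _ hp3)
  · exact ⟨R, 1, hLR, hR, by simp, fun l hl hl0 => hu l hl0 (fun h => hP ⟨l, hl, hl0, h⟩) 1⟩

variable {F : Type u} [Field F] [Algebra F D]

theorem Hyp.period (H : Hyp F D) {a b : D} (ha : a ≠ 0) (hb : b ≠ 0) :
    ∃ n : ℕ, (n : D) ≠ 0 ∧ ∀ z, (a * b * a⁻¹ * b⁻¹) ^ n * z = z * (a * b * a⁻¹ * b⁻¹) ^ n := by
  by_cases hc : ∃ f : F, algebraMap F D f = a * b * a⁻¹ * b⁻¹
  · obtain ⟨f, hf⟩ := hc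
    exact ⟨1, by simp, fun z => by rw [pow_one, ← hf, Algebra.commutes]⟩
  · obtain ⟨m, hm, f, hf⟩ := H.rad a b ha hb
    obtain ⟨n, f', -, hn, e, -⟩ := H.minpoly_radical hc hm hf
    refine ⟨n, fun h => hn ?_, fun z => by rw [e, Algebra.commutes]⟩
    apply (algebraMap F D).injective
    rw [map_natCast, h, map_zero]

/-- The main statement. -/
theorem Hyp.unit_commutator (H : Hyp F D) (L : Subring D) {x y : D} (hx : x ∈ L) (hy : y ∈ L)
    (hy0 : y ≠ 0) (hy' : y⁻¹ ∈ L)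
    (hU : ∀ c ∈ L, (∀ a, c * a = a * c) → 1 + c * x ≠ 0 ∧ (1 + c * x)⁻¹ ∈ L)
    (hne : x * y ≠ y * x) : (x * y - y * x)⁻¹ ∈ L := by
  by_contra hni
  obtain ⟨x', hx'⟩ : ∃ x', x' = y * x * y⁻¹ := ⟨_, rfl⟩
  obtain ⟨δ, hδ⟩ : ∃ δ, δ = x - x' := ⟨_, rfl⟩
  have hx'L : x' ∈ L := hx' ▸ L.mul_mem (L.mul_mem hy hx) hy'
  have hδL : δ ∈ L := hδ ▸ L.sub_mem hx hx'L
  have e0 : x' * y = y * x := by rw [hx', inv_mul_cancel_right₀ hy0]
  have e1 : x * y - y * x = δ * y := by rw [hδ, sub_mul, e0]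
  have hg : ∀ c ∈ L, (∀ a, c * a = a * c) → ∃ w ∈ L, w * (1 + c * x') = 1 ∧
      (1 + c * x) * y * (1 + c * x)⁻¹ * y⁻¹ = 1 + c * (δ * w) := by
    intro c hc hcc
    obtain ⟨h0, h1⟩ := hU c hc hcc
    have e2 : 1 + c * x' = y * (1 + c * x) * y⁻¹ := by
      rw [mul_add, add_mul, mul_one, mul_inv_cancel₀ hy0, hx', ← mul_assoc y, ← hcc y]
      simp only [mul_assoc]
    have e3 : (1 + c * x') * (y * (1 + c * x)⁻¹ * y⁻¹) = 1 := by
      rw [e2]
      simp only [mul_assoc, inv_mul_cancel_left₀ hy0, mul_inv_cancel_left₀ h0, mul_inv_cancel₀ hy0]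
    refine ⟨y * (1 + c * x)⁻¹ * y⁻¹, L.mul_mem (L.mul_mem hy h1) hy', ?_, ?_⟩
    · rw [e2]
      simp only [mul_assoc, inv_mul_cancel_left₀ hy0, inv_mul_cancel_left₀ h0, mul_inv_cancel₀ hy0]
    · calc _ = (1 + c * x') * (y * (1 + c * x)⁻¹ * y⁻¹) +
            c * (δ * (y * (1 + c * x)⁻¹ * y⁻¹)) := by rw [hδ]; noncomm_ring
        _ = _ := by rw [e3]
  obtain ⟨t, r, hr, etr, ht0, htc⟩ : ∃ t r, r ∈ L ∧ t = δ * r ∧ t ≠ 0 ∧ ∀ a, t * a = a * t := by
    obtain ⟨w, hw, -, e⟩ := hg 1 L.one_mem (fun a => by simp)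
    obtain ⟨n, hn, f, hf⟩ := H.rad (1 + 1 * x) y (hU 1 L.one_mem (fun a => by simp)).1 hy0
    have hgL : 1 + 1 * (δ * w) ∈ L := L.add_mem L.one_mem (L.mul_mem L.one_mem (L.mul_mem hδL hw))
    obtain ⟨r, hr, er⟩ := Dv.pow_sub_one (s := δ) hgL ⟨w, hw, by simp⟩ n
    refine ⟨_, r, hr, er, fun h0 => hne ?_, fun a => ?_⟩
    · have := H.comm_of_central (H.central_of_pow_eq_one hn (by
        rw [e]; exact sub_eq_zero.1 h0))
      rw [add_mul, mul_add, one_mul, one_mul, mul_one] at this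
      exact add_left_cancel this
    · rw [← e, hf, sub_mul, mul_sub, Algebra.commutes, one_mul, mul_one]
  have htL : t ∈ L := etr ▸ L.mul_mem hδL hr
  have hnt : ¬ Dv L t 1 := by
    rintro ⟨s, hs, e⟩
    apply hni
    have : (x * y - y * x) * (y⁻¹ * (r * s)) = 1 := by
      rw [e1, mul_assoc, mul_inv_cancel_left₀ hy0, ← mul_assoc, ← etr, ← e]
    rw [← eq_inv_of_mul_eq_one_right this]
    exact L.mul_mem hy' (L.mul_mem hr hs)
  obtain ⟨R, P, hLR, hR, hP0, hP⟩ := exists_loc L hnt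
  have key : ∀ c ∈ L, (∀ a, c * a = a * c) → c ≠ 0 → ∀ σ, σ = (P : D) * (t * c) →
      σ ∈ L ∧ σ ≠ 0 ∧ (∀ a, σ * a = a * σ) ∧ ∃ γ ∈ R, δ = γ * (1 + σ * σ * x') ∧
        ∀ z ∈ R, ∀ j : ℕ, Dv R (σ ^ j) (γ * z - z * γ) := by
    intro c hc hcc hc0 σ hσ
    have hσL : σ ∈ L := hσ ▸ L.mul_mem (natCast_mem L P) (L.mul_mem htL hc)
    have hσ0 : σ ≠ 0 := hσ ▸ mul_ne_zero hP0 (mul_ne_zero ht0 hc0)
    have hσc : ∀ a, σ * a = a * σ := fun a => hσ ▸
      ((Nat.cast_commute P a).mul_left (Commute.mul_left (htc a) (hcc a))).eq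
    have hτc : ∀ a, σ * σ * a = a * (σ * σ) := fun a => (Commute.mul_left (hσc a) (hσc a)).eq
    obtain ⟨w, hw, ew, e⟩ := hg (σ * σ) (L.mul_mem hσL hσL) hτc
    obtain ⟨n, hn, hcn⟩ := H.period (hU (σ * σ) (L.mul_mem hσL hσL) hτc).1 hy0
    rw [e] at hcn
    have hγ : δ * w ∈ R := hLR (L.mul_mem hδL hw)
    refine ⟨hσL, hσ0, hσc, δ * w, hγ, by rw [mul_assoc, ew, mul_one], fun z hz j => ?_⟩
    have h1 := adic_all (R := R) hσc (fun l hl hl0 => by
      rw [hσ]; exact (hP l hl hl0).right (hLR (L.mul_mem htL hc))) hz n hn _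
      (R.add_mem R.one_mem (R.mul_mem (hLR (L.mul_mem hσL hσL)) hγ))
      (by rw [add_sub_cancel_left]; exact Dv.self hγ)
      (fun j => ⟨0, R.zero_mem, by rw [hcn, sub_self, mul_zero]⟩) (2 + j)
    have e4 : (1 + σ * σ * (δ * w)) * z - z * (1 + σ * σ * (δ * w)) =
        σ * σ * (δ * w * z - z * (δ * w)) := by
      rw [mul_add, ← mul_assoc z, ← hτc z]; noncomm_ring
    rw [e4, pow_add, pow_two] at h1
    exact h1.cancel (mul_ne_zero hσ0 hσ0)
  have hA : ∀ c ∈ L, (∀ a, c * a = a * c) → c ≠ 0 → ∀ z ∈ R, Dv R c (δ * z - z * δ) := by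
    intro c hc hcc hc0 z hz
    obtain ⟨hσL, -, hσc, γ, hγ, e, hJ⟩ := key c hc hcc hc0 _ rfl
    obtain ⟨σ, hσ⟩ : ∃ σ, σ = (P : D) * (t * c) := ⟨_, rfl⟩
    rw [← hσ] at hσL hσc e hJ
    have h1 := hJ z hz 1
    rw [pow_one] at h1
    have h2 : Dv R σ (γ * (σ * σ * x')) :=
      Dv.left hσc (((Dv.self (hLR hσL)).right (hLR hx'L))) hγ
    have e2 : δ * z - z * δ = γ * z - z * γ + (γ * (σ * σ * x') * z - z * (γ * (σ * σ * x'))) := by
      rw [e]; noncomm_ring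
    have h3 : Dv R σ (δ * z - z * δ) := e2 ▸ h1.add ((h2.right hz).sub (h2.left hσc hz))
    have e3 : σ = c * (P * t) := by rw [hσ, hcc, mul_assoc]
    rw [e3] at h3
    exact h3.mono (hLR (L.mul_mem (natCast_mem L P) htL))
  obtain ⟨hσL, hσ0, hσc, γ, hγ, e, hJ⟩ := key 1 L.one_mem (fun a => by simp) one_ne_zero _ rfl
  obtain ⟨σ, hσ⟩ : ∃ σ, σ = (P : D) * (t * 1) := ⟨_, rfl⟩
  rw [← hσ] at hσL hσ0 hσc e hJ
  obtain ⟨q, hq⟩ : ∃ q, q = t * t * t := ⟨_, rfl⟩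
  have hqc : ∀ a, q * a = a * q := fun a => hq ▸
    (Commute.mul_left (Commute.mul_left (htc a) (htc a)) (htc a)).eq
  have hqL : q ∈ L := hq ▸ L.mul_mem (L.mul_mem htL htL) htL
  have hq0 : q ≠ 0 := hq ▸ mul_ne_zero (mul_ne_zero ht0 ht0) ht0
  have hτc : ∀ a, σ * σ * a = a * (σ * σ) := fun a => (Commute.mul_left (hσc a) (hσc a)).eq
  have e3 : σ ^ 3 = q * (P : D) ^ 3 := by
    rw [hσ, mul_one, (Nat.cast_commute P t).mul_pow, hqc, hq, pow_three' t]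
  have hP3 : (P : D) ^ 3 ∈ R := R.pow_mem (natCast_mem R P) 3
  have huR : 1 + σ * σ * x' ∈ R := hLR (L.add_mem L.one_mem (L.mul_mem (L.mul_mem hσL hσL) hx'L))
  have hyδ : y * δ ∈ R := hLR (L.mul_mem hy hδL)
  have b1 : Dv R (σ * σ * q) (γ * y - y * γ) := by
    have := hJ y (hLR hy) (2 + 3)
    rw [pow_add, pow_two, e3, ← mul_assoc] at this
    exact this.mono hP3
  have b2 := hA (σ * σ * q) (L.mul_mem (L.mul_mem hσL hσL) hqL)
    (fun a => (Commute.mul_left (hτc a) (hqc a)).eq) (mul_ne_zero (mul_ne_zero hσ0 hσ0) hq0) y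
    (hLR hy)
  have b3 : Dv R q (γ * (y * δ)) := by
    have e5 : δ * y - y * δ - (γ * y - y * γ) * (1 + σ * σ * x') = σ * σ * (γ * (y * δ)) := by
      have e6 : y * δ = x' * y - y * x' := by rw [hδ, mul_sub, e0]
      have e7 : y * (σ * σ * x') = σ * σ * (y * x') := by
        rw [← mul_assoc, ← hτc y, mul_assoc]
      calc _ = γ * (σ * σ * x' * y - y * (σ * σ * x')) := by
            rw [e]; noncomm_ring
        _ = γ * (σ * σ) * (x' * y - y * x') := by rw [e7]; noncomm_ring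
        _ = _ := by rw [← hτc γ, ← e6, mul_assoc]
    have := b2.sub (b1.right huR)
    rw [e5] at this
    exact this.cancel (mul_ne_zero hσ0 hσ0)
  have b4 : Dv R q (δ * (y * δ)) := by
    have h1 := hJ _ huR 3
    rw [e3] at h1
    have e5 : δ * (y * δ) = (1 + σ * σ * x') * (γ * (y * δ)) +
        (γ * (1 + σ * σ * x') - (1 + σ * σ * x') * γ) * (y * δ) := by
      rw [← e]; noncomm_ring
    rw [e5]
    exact (b3.left hqc huR).add ((h1.mono hP3).right hyδ)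
  have hry : r * y⁻¹ ∈ R := hLR (L.mul_mem hr hy')
  have b5 : Dv R (t * t * t) (t * t * 1) := by
    have e5 : t * t * 1 = (r * y⁻¹ * (δ * (y * δ)) +
        (δ * (r * y⁻¹) - r * y⁻¹ * δ) * (y * δ)) * r := by
      have e6 : δ * (r * y⁻¹) * (y * δ) = δ * r * δ := by
        simp only [mul_assoc, inv_mul_cancel_left₀ hy0]
      rw [sub_mul, e6, etr]; noncomm_ring
    rw [e5, ← hq]
    exact ((b4.left hqc hry).add ((hA q hqL hqc hq0 _ hry).right hyδ)).right (hLR hr)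
  exact hR (b5.cancel (mul_ne_zero ht0 ht0))

end Pool.Agent.MP_8ed1d4_al
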