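import Pool.Agent.MP_8ed1d4_al.Adic

set_option autoImplicit false

/-!
Consequences of `Hyp.unit_commutator`.
-/

namespace Pool.Agent.MP_8ed1d4_al

universe u v

variable {D : Type v} [DivisionRing D] {F : Type u} [Field F] [Algebra F D]

/-- A subring with a nonzero quasi-regular ideal is commutative. -/
theorem Hyp.comm_of_ideal (H : Hyp F D) (L : Subring D) (I : Set D) (hIL : ∀ x ∈ I, x ∈ L)
    (hl : ∀ x ∈ I, ∀ a ∈ L, a * x ∈ I) (hr : ∀ x ∈ I, ∀ a ∈ L, x * a ∈ I)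
    (hs : ∀ x ∈ I, ∀ y ∈ I, x - y ∈ I) (hq : ∀ x ∈ I, 1 + x ≠ 0 ∧ (1 + x)⁻¹ ∈ L)
    {j : D} (hj : j ∈ I) (hj0 : j ≠ 0) {a b : D} (ha : a ∈ L) (hb : b ∈ L) : a * b = b * a := by
  have h1 : ∀ x ∈ I, ∀ y ∈ I, x * y = y * x := by
    intro x hx y hy
    by_contra hne
    have hu : 1 + y ∈ L := L.add_mem L.one_mem (hIL y hy)
    have hne' : x * (1 + y) ≠ (1 + y) * x := fun h => hne (by
      rw [mul_add, add_mul, mul_one, one_mul] at h
      exact add_left_cancel h)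
    have h2 := H.unit_commutator L (hIL x hx) hu (hq y hy).1 (hq y hy).2
      (fun c hc _ => hq _ (hl x hx c hc)) hne'
    have h3 := hr _ (hs _ (hr x hx _ hu) _ (hl x hx _ hu)) _ (L.neg_mem h2)
    rw [mul_neg, mul_inv_cancel₀ (sub_ne_zero.2 hne')] at h3
    exact (hq _ h3).1 (add_neg_cancel 1)
  have h2 : ∀ x ∈ I, ∀ c ∈ L, x * c = c * x := by
    intro x hx c hc
    by_cases hx0 : x = 0
    · simp [hx0]
    exact mul_right_cancel₀ hx0 (by rw [mul_assoc, h1 x hx _ (hl x hx c hc)])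
  refine mul_left_cancel₀ hj0 ?_
  rw [← mul_assoc, h2 _ (hr j hj a ha) b hb, ← mul_assoc, ← h2 j hj b hb, mul_assoc]

/-- A subring with nonzero Jacobson radical is commutative. -/
theorem Hyp.comm_of_jacobson (H : Hyp F D) (L : Subring D) (hJ : Ring.jacobson L ≠ ⊥)
    {a b : D} (ha : a ∈ L) (hb : b ∈ L) : a * b = b * a := by
  obtain ⟨j, hj, hj0⟩ := Submodule.exists_mem_ne_zero_of_ne_bot hJ
  refine H.comm_of_ideal L {x | ∃ y ∈ Ring.jacobson L, (y : D) = x} ?_ ?_ ?_ ?_ ?_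
    ⟨j, hj, rfl⟩ (fun h => hj0 (Subtype.ext h)) ha hb
  · rintro _ ⟨y, -, rfl⟩
    exact y.2
  · rintro _ ⟨y, hy, rfl⟩ c hc
    exact ⟨⟨c, hc⟩ * y, Ideal.mul_mem_left _ _ hy, rfl⟩
  · rintro _ ⟨y, hy, rfl⟩ c hc
    exact ⟨y * ⟨c, hc⟩, Ideal.mul_mem_right _ _ hy, rfl⟩
  · rintro _ ⟨y, hy, rfl⟩ _ ⟨z, hz, rfl⟩
    exact ⟨y - z, Ideal.sub_mem _ hy hz, rfl⟩
  · rintro _ ⟨y, hy, rfl⟩
    rw [← Ideal.jacobson_bot] at hy
    obtain ⟨z, hz⟩ := Ideal.mem_jacobson_iff.1 hy 1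
    have h1 : (z : D) * (1 + y) = 1 := by
      have h2 := congrArg Subtype.val (Ideal.mem_bot.1 hz)
      push_cast at h2
      rw [mul_add, mul_one, add_comm, ← sub_eq_zero, ← h2, mul_one]
    refine ⟨right_ne_zero_of_mul_eq_one h1, ?_⟩
    rw [← eq_inv_of_mul_eq_one_left h1]
    exact z.2

theorem ore_of_noeth {A : Type v} [Ring A] [IsNoetherianRing A] {t : A} (ht : ∀ a, t * a = a * t)
    (a j : A) : ∃ c e : A, (1 + t * c) * a = e * (1 + t * j) := by
  obtain ⟨N, hN⟩ := monotone_stabilizes_iff_noetherian.2 (inferInstance : IsNoetherian A A)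
    ⟨fun n => Submodule.span A {z | ∃ k < n, z = a * (-j) ^ k}, fun m n h =>
      Submodule.span_mono fun _ ⟨k, hk, e⟩ => ⟨k, hk.trans_le h, e⟩⟩
  have h1 : a * (-j) ^ N ∈ Submodule.span A {z | ∃ k < N, z = a * (-j) ^ k} := by
    have h := hN (N + 1) (Nat.le_succ N)
    simp only [OrderHom.coe_mk] at h
    rw [h]
    exact Submodule.subset_span ⟨N, Nat.lt_succ_self N, rfl⟩
  have htk : ∀ (k : ℕ) b, t ^ k * b = b * t ^ k := fun k b => (Commute.pow_left (ht b) k).eq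
  have h2 : ∀ k : ℕ, ∃ e, t ^ k * (a * (-j) ^ k) = a + e * (1 + t * j) := by
    intro k
    induction k with
    | zero => exact ⟨0, by simp⟩
    | succ k ih =>
      obtain ⟨e, he⟩ := ih
      refine ⟨e - t ^ k * (a * (-j) ^ k), ?_⟩
      have e1 : t ^ (k + 1) * (a * (-j) ^ (k + 1)) = -(t ^ k * (a * (-j) ^ k) * (t * j)) := by
        rw [pow_succ, pow_succ, mul_assoc (t ^ k), ← mul_assoc a, ← mul_assoc t, ht (a * _)]
        noncomm_ring
      rw [e1, sub_mul, mul_add (t ^ k * _), mul_one, ← add_sub_assoc, ← he]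
      abel
  have h3 : ∀ z ∈ Submodule.span A {z | ∃ k < N, z = a * (-j) ^ k},
      ∃ c e, t ^ N * z = t * c * a + e * (1 + t * j) := by
    intro z hz
    induction hz using Submodule.span_induction with
    | mem z hz =>
      obtain ⟨k, hk, rfl⟩ := hz
      obtain ⟨m, rfl⟩ := Nat.exists_eq_add_of_lt hk
      obtain ⟨e, he⟩ := h2 k
      exact ⟨t ^ m, t * t ^ m * e, by
        rw [add_comm k m, add_right_comm, pow_add, pow_succ', mul_assoc _ (t ^ k), he]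
        noncomm_ring⟩
    | zero => exact ⟨0, 0, by simp⟩
    | add y z _ _ hy hz =>
      obtain ⟨c, e, h⟩ := hy
      obtain ⟨c', e', h'⟩ := hz
      exact ⟨c + c', e + e', by rw [mul_add, h, h']; noncomm_ring⟩
    | smul b z _ hz =>
      obtain ⟨c, e, h⟩ := hz
      exact ⟨b * c, b * e, by
        rw [smul_eq_mul, ← mul_assoc, htk, mul_assoc, h, ← mul_assoc t, ht b]; noncomm_ring⟩
  obtain ⟨c, e, h⟩ := h3 _ h1
  obtain ⟨e', h'⟩ := h2 N
  refine ⟨-c, e - e', ?_⟩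
  rw [sub_mul, eq_sub_iff_add_eq, add_mul, one_mul, add_right_comm, ← h', h]
  noncomm_ring

/-- If `1 + tL` is a left Ore set of `L` for a central nonzero non-unit `t`, then `L` is
commutative. -/
theorem Hyp.comm_of_ore (H : Hyp F D) (L : Subring D) {t : D} (htL : t ∈ L) (ht0 : t ≠ 0)
    (hti : t⁻¹ ∉ L) (ht : ∀ a ∈ L, t * a = a * t)
    (hO : ∀ a ∈ L, ∀ j ∈ L, ∃ c ∈ L, ∃ e ∈ L, (1 + t * c) * a = e * (1 + t * j))
    {a b : D} (ha : a ∈ L) (hb : b ∈ L) : a * b = b * a := by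
  have h0 : ∀ c ∈ L, 1 + t * c ≠ 0 := fun c hc h => hti (by
    have : t * (-c) = 1 := by rw [mul_neg, neg_eq_iff_add_eq_zero, add_comm, h]
    rw [← eq_inv_of_mul_eq_one_right this]
    exact L.neg_mem hc)
  have hS : ∀ c ∈ L, 1 + t * c ∈ L := fun c hc => L.add_mem L.one_mem (L.mul_mem htL hc)
  have hm : ∀ c ∈ L, ∀ c' ∈ L, ∃ d ∈ L, (1 + t * c) * (1 + t * c') = 1 + t * d :=
    fun c hc c' hc' => ⟨c' + c * (1 + t * c'), L.add_mem hc' (L.mul_mem hc (hS c' hc')), by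
      noncomm_ring⟩
  let R : Subring D :=
    { carrier := {z | ∃ c ∈ L, (1 + t * c) * z ∈ L}
      mul_mem' := by
        rintro x y ⟨c, hc, hx⟩ ⟨c', hc', hy⟩
        obtain ⟨d, hd, e, he, h⟩ := hO _ hx c' hc'
        obtain ⟨d', hd', h'⟩ := hm d hd c hc
        refine ⟨d', hd', ?_⟩
        rw [← h', mul_assoc, ← mul_assoc _ x, ← mul_assoc, h, mul_assoc]
        exact L.mul_mem he hy
      one_mem' := ⟨0, L.zero_mem, by simp⟩
      add_mem' := by
        rintro x y ⟨c, hc, hx⟩ ⟨c', hc', hy⟩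
        obtain ⟨d, hd, e, he, h⟩ := hO _ (hS c hc) c' hc'
        obtain ⟨d', hd', h'⟩ := hm d hd c hc
        refine ⟨d', hd', ?_⟩
        rw [← h', mul_add]
        refine L.add_mem ?_ ?_
        · rw [mul_assoc]; exact L.mul_mem (hS d hd) hx
        · rw [h, mul_assoc]; exact L.mul_mem he hy
      zero_mem' := ⟨0, L.zero_mem, by simp⟩
      neg_mem' := by
        rintro x ⟨c, hc, hx⟩
        exact ⟨c, hc, by rw [mul_neg]; exact L.neg_mem hx⟩ }
  have hLR : L ≤ R := fun z hz => ⟨0, L.zero_mem, by simpa using hz⟩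
  have htR : ∀ z ∈ R, t * z = z * t := by
    rintro z ⟨c, hc, hz⟩
    refine mul_left_cancel₀ (h0 c hc) ?_
    rw [← mul_assoc, ← ht _ (hS c hc), mul_assoc, ht _ hz, mul_assoc]
  refine H.comm_of_ideal R {z | Dv R t z} ?_ (fun x hx c hc => ?_) (fun x hx c hc => Dv.right hx hc)
    (fun x hx y hy => Dv.sub hx hy) ?_ (j := t) ⟨1, R.one_mem, (mul_one t).symm⟩ ht0 (hLR ha)
    (hLR hb)
  · rintro _ ⟨r, hr, rfl⟩
    exact R.mul_mem (hLR htL) hr
  · obtain ⟨r, hr, rfl⟩ := hx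
    exact ⟨c * r, R.mul_mem hc hr, by rw [← mul_assoc, ← htR c hc, mul_assoc]⟩
  · rintro _ ⟨r, ⟨c, hc, hr⟩, rfl⟩
    have e : (1 + t * c) * (1 + t * r) = 1 + t * (c + (1 + t * c) * r) := by
      rw [mul_add (1 + t * c), mul_one, ← mul_assoc, ← ht _ (hS c hc)]; noncomm_ring
    have h1 : 1 + t * r ≠ 0 := fun h => h0 _ (L.add_mem hc hr) (by rw [← e, h, mul_zero])
    refine ⟨h1, _, L.add_mem hc hr, ?_⟩
    rw [← e, mul_inv_cancel_right₀ h1]
    exact hS c hc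

/-- A left Noetherian subring whose centre is not a field is commutative. -/
theorem Hyp.comm_of_noeth (H : Hyp F D) (L : Subring D) [IsNoetherianRing L] {t : D}
    (htL : t ∈ L) (ht0 : t ≠ 0) (hti : t⁻¹ ∉ L) (ht : ∀ a ∈ L, t * a = a * t)
    {a b : D} (ha : a ∈ L) (hb : b ∈ L) : a * b = b * a := by
  refine H.comm_of_ore L htL ht0 hti ht (fun x hx j hj => ?_) ha hb
  obtain ⟨c, e, h⟩ := ore_of_noeth (A := L) (t := ⟨t, htL⟩) (fun z => Subtype.ext (ht z z.2))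
    ⟨x, hx⟩ ⟨j, hj⟩
  exact ⟨c, c.2, e, e.2, congrArg Subtype.val h⟩

/-- If `L` meets the centre in a ring that is not a field, an element of `L` with a central power
commutes with the units of `L`. -/
theorem Hyp.comm_of_radical (H : Hyp F D) (L : Subring D) {t : D} (htL : t ∈ L) (ht0 : t ≠ 0)
    (hti : t⁻¹ ∉ L) (ht : ∀ a, t * a = a * t) {x y : D} (hx : x ∈ L) {n : ℕ} (hn : 0 < n)
    (hxn : ∀ a, x ^ n * a = a * x ^ n) (hy : y ∈ L) (hy0 : y ≠ 0) (hy' : y⁻¹ ∈ L) :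
    x * y = y * x := by
  have hS : ∀ c ∈ L, 1 + t * c ∈ L := fun c hc => L.add_mem L.one_mem (L.mul_mem htL hc)
  have hC : ∀ c : D, (∀ a, c * a = a * c) → ∀ a, (1 + t * c) * a = a * (1 + t * c) :=
    fun c hc a => ((Commute.one_left a).add_left (Commute.mul_left (ht a) (hc a))).eq
  have hm : ∀ c c' : D, (1 + t * c) * (1 + t * c') = 1 + t * (c' + c * (1 + t * c')) :=
    fun c c' => by noncomm_ring
  have hm' : ∀ c c' : D, (∀ a, c * a = a * c) → (∀ a, c' * a = a * c') →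
      ∀ a, (c' + c * (1 + t * c')) * a = a * (c' + c * (1 + t * c')) := fun c c' h h' a =>
    (Commute.add_left (h' a) (Commute.mul_left (h a) (hC c' h' a))).eq
  let R : Subring D :=
    { carrier := {z | ∃ c ∈ L, (∀ a, c * a = a * c) ∧ (1 + t * c) * z ∈ L}
      mul_mem' := by
        rintro p q ⟨c, hc, h1, hp⟩ ⟨c', hc', h2, hq⟩
        refine ⟨_, L.add_mem hc' (L.mul_mem hc (hS c' hc')), hm' c c' h1 h2, ?_⟩
        rw [← hm, mul_assoc, ← mul_assoc _ p, hC c' h2 p, mul_assoc, ← mul_assoc]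
        exact L.mul_mem hp hq
      one_mem' := ⟨0, L.zero_mem, by simp, by simp⟩
      add_mem' := by
        rintro p q ⟨c, hc, h1, hp⟩ ⟨c', hc', h2, hq⟩
        refine ⟨_, L.add_mem hc' (L.mul_mem hc (hS c' hc')), hm' c c' h1 h2, ?_⟩
        rw [← hm, mul_add]
        refine L.add_mem ?_ ?_
        · rw [hC c h1, mul_assoc]; exact L.mul_mem (hS c' hc') hp
        · rw [mul_assoc]; exact L.mul_mem (hS c hc) hq
      zero_mem' := ⟨0, L.zero_mem, by simp, by simp⟩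
      neg_mem' := by
        rintro p ⟨c, hc, h1, hp⟩
        exact ⟨c, hc, h1, by rw [mul_neg]; exact L.neg_mem hp⟩ }
  have hLR : L ≤ R := fun z hz => ⟨0, L.zero_mem, by simp, by simpa using hz⟩
  have htR : ∀ r ∈ R, t * r ≠ 1 := by
    rintro r ⟨c, hc, h1, hr⟩ h
    apply hti
    have : t * ((1 + t * c) * r - c) = 1 := by
      rw [mul_sub, ← mul_assoc, ← hC c h1 t, mul_assoc, h, mul_one, add_sub_cancel_right]
    rw [← eq_inv_of_mul_eq_one_right this]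
    exact L.sub_mem hr hc
  have hu : ∀ r ∈ R, (∀ a, r * a = a * r) → ∃ w ∈ R, (1 + t * r) * w = 1 := by
    intro r hr hrc
    have h0 : 1 + t * r ≠ 0 := fun h => htR _ (R.neg_mem hr) (by
      rw [mul_neg, neg_eq_iff_add_eq_zero, add_comm, h])
    obtain ⟨c, hc, h1, hr⟩ := hr
    refine ⟨(1 + t * r)⁻¹, ⟨c + (1 + t * c) * r, L.add_mem hc hr,
      fun a => (Commute.add_left (h1 a) (Commute.mul_left (hC c h1 a) (hrc a))).eq, ?_⟩,
      mul_inv_cancel₀ h0⟩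
    have e : 1 + t * (c + (1 + t * c) * r) = (1 + t * c) * (1 + t * r) := by
      rw [mul_add (1 + t * c), mul_one, ← mul_assoc, hC c h1 t]; noncomm_ring
    rw [e, mul_inv_cancel_right₀ h0]
    exact hS c hc
  by_contra hne
  have hne' : t * x * y ≠ y * (t * x) := fun h => hne (mul_left_cancel₀ ht0 (by
    rw [← mul_assoc, h, ← mul_assoc, ← ht y, mul_assoc]))
  have h1 := H.unit_commutator R (hLR (L.mul_mem htL hx)) (hLR hy) hy0 (hLR hy') (fun c hc hcc => by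
    have hg : -(c * (t * x)) ∈ R := R.neg_mem (R.mul_mem hc (hLR (L.mul_mem htL hx)))
    obtain ⟨r, hr, e⟩ := Dv.pow_sub_one (s := 1 + c * (t * x)) hg
      ⟨-1, R.neg_mem R.one_mem, by noncomm_ring⟩ n
    obtain ⟨m, rfl⟩ := Nat.exists_eq_succ_of_ne_zero hn.ne'
    have e1 : (-(c * (t * x))) ^ (m + 1) = t * (t ^ m * ((-c) ^ (m + 1) * x ^ (m + 1))) := by
      rw [← neg_mul, ← mul_assoc (-c), ← ht (-c), mul_assoc, Commute.mul_pow (ht _),
        Commute.mul_pow (Commute.neg_left (hcc x)), pow_succ' t, mul_assoc]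
    obtain ⟨w, hw, ew⟩ := hu (-(t ^ m * ((-c) ^ (m + 1) * x ^ (m + 1))))
      (R.neg_mem (R.mul_mem (R.pow_mem (hLR htL) _) (R.mul_mem (R.pow_mem (R.neg_mem hc) _)
        (R.pow_mem (hLR hx) _))))
      (fun a => (Commute.neg_left ((Commute.pow_left (ht a) m).mul_left
        (((Commute.neg_left (hcc a)).pow_left _).mul_left (hxn a)))).eq)
    have e2 : (1 + c * (t * x)) * (-r * w) = 1 := by
      rw [mul_neg, ← sub_eq_add_neg] at ew
      rw [← mul_assoc, mul_neg, ← e, e1, neg_sub, ew]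
    refine ⟨left_ne_zero_of_mul_eq_one e2, ?_⟩
    rw [← eq_inv_of_mul_eq_one_right e2]
    exact R.mul_mem (R.neg_mem hr) hw) hne'
  refine htR ((x * y - y * x) * (t * x * y - y * (t * x))⁻¹)
    (R.mul_mem (hLR (L.sub_mem (L.mul_mem hx hy) (L.mul_mem hy hx))) h1) ?_
  rw [← mul_assoc, mul_sub, ← mul_assoc, ← mul_assoc, ht y, mul_assoc y,
    mul_inv_cancel₀ (sub_ne_zero.2 hne')]

end Pool.Agent.MP_8ed1d4_al
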