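import Pool.Agent.MP_8ed1d4_al.Wedderburn

set_option autoImplicit false
set_option linter.style.haveILetI false
set_option linter.unusedVariables false

open Polynomial

namespace Pool.Agent.MP_8ed1d4_al

universe u v

variable {F : Type u} {D : Type v} [Field F] [DivisionRing D] [Algebra F D]

/-- Standing hypothesis: `F` is the centre and commutators are radical over `F`. -/
structure Hyp (F : Type u) (D : Type v) [Field F] [DivisionRing D] [Algebra F D] : Prop where
  cen : ∀ x : D, (∀ y, x * y = y * x) → ∃ f : F, algebraMap F D f = x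
  rad : ∀ x y : D, x ≠ 0 → y ≠ 0 →
    ∃ n : ℕ, 0 < n ∧ ∃ f : F, (x * y * x⁻¹ * y⁻¹) ^ n = algebraMap F D f

/-- The bicommutant of a set. -/
def bic (S : Set D) : Subfield D where
  carrier := {z | ∀ w, (∀ s ∈ S, Commute s w) → Commute z w}
  mul_mem' := fun ha hb w hw => (ha w hw).mul_left (hb w hw)
  one_mem' := fun w _ => Commute.one_left w
  add_mem' := fun ha hb w hw => (ha w hw).add_left (hb w hw)
  zero_mem' := fun w _ => Commute.zero_left w
  neg_mem' := fun ha w hw => (ha w hw).neg_left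
  inv_mem' := fun _ ha w hw => (ha w hw).inv_left₀

theorem exists_field (F : Type u) [Field F] [Algebra F D] (S : Set D)
    (hS : ∀ a ∈ S, ∀ b ∈ S, Commute a b) :
    ∃ (E : Type v) (_ : Field E) (_ : Algebra F E) (ι : E →ₐ[F] D), ∀ s ∈ S, ∃ e, ι e = s := by
  have hcomm : ∀ a b : bic S, a * b = b * a := by
    intro a b
    apply Subtype.ext
    refine a.2 b.1 (fun s hs => ?_)
    exact (b.2 s (fun s' hs' => hS s' hs' s hs)).symm
  letI fld : Field (bic S) := { (inferInstance : DivisionRing (bic S)) with mul_comm := hcomm }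
  let φ : F →+* bic S := (algebraMap F D).codRestrict (bic S).toSubring
    (fun f w _ => Algebra.commutes f w)
  letI alg : Algebra F (bic S) := φ.toAlgebra
  refine ⟨bic S, fld, alg, { (bic S).subtype with commutes' := fun f => rfl }, ?_⟩
  intro s hs
  exact ⟨⟨s, fun w hw => hw s hs⟩, rfl⟩

theorem conj_add_comm {y t : D} (hy : y ≠ 0) (x : D) (ht : Commute t y) :
    y * (x + t) * y⁻¹ = y * x * y⁻¹ + t := by
  rw [mul_add, add_mul, ← ht.eq, mul_assoc t, mul_inv_cancel₀ hy, mul_one]

theorem conj_pow_left {y u : D} (hy : y ≠ 0) {f : F} (h : y * u * y⁻¹ = algebraMap F D f * u)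
    (k : ℕ) : y ^ k * u * (y ^ k)⁻¹ = algebraMap F D (f ^ k) * u := by
  induction k with
  | zero => simp
  | succ k ih =>
    rw [pow_succ', mul_inv_rev, mul_assoc y, mul_assoc y, ← mul_assoc (y ^ k * u), ih,
      ← mul_assoc, ← mul_assoc, ← Algebra.commutes, mul_assoc _ y, mul_assoc _ (y * u), h,
      ← mul_assoc, ← map_mul, ← pow_succ]

/-- If `y u y⁻¹ = f u` with `f` central then `f` is a root of unity. -/
theorem Hyp.root_of_unity (H : Hyp F D) {y u : D} (hy : y ≠ 0) (hu : u ≠ 0) {f : F}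
    (h : y * u * y⁻¹ = algebraMap F D f * u) : ∃ k : ℕ, 0 < k ∧ f ^ k = 1 := by
  by_cases hf1 : f = 1
  · exact ⟨1, one_pos, by simp [hf1]⟩
  have hf0 : f ≠ 0 := by
    rintro rfl
    simp [hy, hu] at h
  have hu1 : u + 1 ≠ 0 := by
    intro h1
    have : u = -1 := eq_neg_of_add_eq_zero_left h1
    subst this
    apply hf1
    apply (algebraMap F D).injective
    simp only [mul_neg, mul_one, neg_mul, mul_inv_cancel₀ hy, neg_inj] at h
    rw [← h, map_one]
  obtain ⟨n, hn, f1, hf⟩ := H.rad y (u + 1) hy hu1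
  rw [conj_add_comm hy u (Commute.one_left y), h] at hf
  obtain ⟨E, _, _, ι, hι⟩ := exists_field F ({u} : Set D) (by
    rintro a rfl b rfl; exact Commute.refl _)
  obtain ⟨e, rfl⟩ := hι u rfl
  have hinj : Function.Injective ι := ι.toRingHom.injective
  have he0 : e ≠ 0 := by rintro rfl; simp at hu
  have he1 : e + 1 ≠ 0 := by
    intro h1; apply hu1; rw [← map_one ι, ← map_add, h1, map_zero]
  set P : F[X] := (C f * X + 1) ^ n - C f1 * (X + 1) ^ n with hP
  have hPe : aeval e P = 0 := by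
    have : ((algebraMap F E f * e + 1) * (e + 1)⁻¹) ^ n = algebraMap F E f1 := by
      apply hinj
      simpa [map_inv₀] using hf
    rw [mul_pow, inv_pow, mul_inv_eq_iff_eq_mul₀ (pow_ne_zero _ he1)] at this
    simp [hP, this]
  have hP0 : P ≠ 0 := by
    intro h0
    have := congrArg (eval (-1)) h0
    simp [hP, hn.ne'] at this
    apply hf1
    linear_combination -this
  have hroot : ∀ k : ℕ, aeval (algebraMap F E (f ^ k) * e) P = 0 := by
    intro k
    apply hinj
    rw [← aeval_algHom_apply, map_zero, map_mul, AlgHom.commutes, ← conj_pow_left hy h k,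
      aeval_conj (pow_ne_zero k hy), aeval_algHom_apply, hPe]
    simp
  have hfin := rootSet_finite P E
  have : ¬ Function.Injective (fun k : ℕ => algebraMap F E (f ^ k) * e) := by
    intro hi
    refine (Set.infinite_range_of_injective hi) (hfin.subset ?_)
    rintro _ ⟨k, rfl⟩
    exact (mem_rootSet_of_ne hP0).2 (hroot k)
  simp only [Function.Injective, not_forall] at this
  obtain ⟨i, j, hij, hne⟩ := this
  have hij' : f ^ i = f ^ j := (algebraMap F E).injective (mul_right_cancel₀ he0 hij)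
  rcases Nat.lt_or_gt_of_ne hne with hl | hl
  · obtain ⟨k, rfl⟩ := Nat.exists_eq_add_of_lt hl
    refine ⟨k + 1, Nat.succ_pos _, ?_⟩
    rw [add_assoc, pow_add] at hij'
    exact (mul_left_cancel₀ (pow_ne_zero i hf0) (by rw [mul_one]; exact hij')).symm
  · obtain ⟨k, rfl⟩ := Nat.exists_eq_add_of_lt hl
    refine ⟨k + 1, Nat.succ_pos _, ?_⟩
    rw [add_assoc, pow_add] at hij'
    exact mul_left_cancel₀ (pow_ne_zero j hf0) (by rw [mul_one]; exact hij')

theorem Hyp.ratio_finite_order (H : Hyp F D) {x y t : D} (hy : y ≠ 0)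
    (hc : Commute x (y * x * y⁻¹)) (hty : Commute t y) (htx : Commute t x) (hxt : x + t ≠ 0) :
    ∃ k : ℕ, 0 < k ∧ ((y * x * y⁻¹ + t) * (x + t)⁻¹) ^ k = 1 := by
  obtain ⟨n, hn, f, hf⟩ := H.rad y (x + t) hy hxt
  have hconj := conj_add_comm hy x hty
  have htx' : Commute t (y * x * y⁻¹) := (hty.mul_right htx).mul_right hty.inv_right₀
  have hcm : Commute (y * x * y⁻¹ + t) (x + t) :=
    (hc.symm.add_right htx'.symm).add_left (htx.add_right (Commute.refl t))
  have h1 : y * (x + t) ^ n * y⁻¹ = algebraMap F D f * (x + t) ^ n := by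
    rw [← conj_pow' hy, ← hf, hconj, hcm.inv_right₀.mul_pow, inv_pow,
      inv_mul_cancel_right₀ (pow_ne_zero _ hxt)]
  obtain ⟨k, hk, hfk⟩ := H.root_of_unity hy (pow_ne_zero _ hxt) h1
  refine ⟨n * k, Nat.mul_pos hn hk, ?_⟩
  rw [pow_mul, ← hconj, hf, ← map_pow, hfk, map_one]

theorem integral_of_pow_eq_one {K E : Type*} [Field K] [Field E] [Algebra K E] {z : E} {k : ℕ}
    (hk : 0 < k) (h : z ^ k = 1) : IsIntegral K z :=
  IsIntegral.of_pow hk (by rw [h]; exact isIntegral_one)

theorem finite_order_of_integral {p : ℕ} [Fact p.Prime] {E : Type*} [Field E]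
    [Algebra (ZMod p) E] {z : E} (hz : z ≠ 0) (h : IsIntegral (ZMod p) z) :
    ∃ k : ℕ, 0 < k ∧ z ^ k = 1 := by
  haveI := IntermediateField.adjoin.finiteDimensional h
  haveI : Finite (IntermediateField.adjoin (ZMod p) {z}) := Module.finite_of_finite (ZMod p)
  let w : IntermediateField.adjoin (ZMod p) {z} := IntermediateField.AdjoinSimple.gen (ZMod p) z
  have hw : w ≠ 0 := fun h0 => hz (by simpa [w] using congrArg Subtype.val h0)
  have := isOfFinOrder_of_finite (Units.mk0 w hw)
  obtain ⟨k, hk, hk1⟩ := isOfFinOrder_iff_pow_eq_one.1 this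
  refine ⟨k, hk, ?_⟩
  have h2 := congrArg (fun u : (IntermediateField.adjoin (ZMod p) {z})ˣ => ((u.1 : _) : E)) hk1
  simpa [w] using h2

theorem commute_of_finite_order {p : ℕ} [Fact p.Prime] [CharP D p] {x y : D} {N M k : ℕ}
    (hN : 0 < N) (hM : 0 < M) (hx : x ^ N = 1) (hy : y ^ M = 1) (h : y * x = x ^ k * y) :
    x * y = y * x := by
  letI := ZMod.algebra D p
  have h1 : ∀ a : ℕ, y * x ^ a = x ^ (k * a) * y := by
    intro a
    induction a with
    | zero => simp
    | succ a ih => rw [pow_succ, ← mul_assoc, ih, mul_assoc, h, ← mul_assoc, ← pow_add, mul_add,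
        mul_one]
  have h2 : ∀ j a : ℕ, y ^ j * x ^ a = x ^ (k ^ j * a) * y ^ j := by
    intro j
    induction j with
    | zero => simp
    | succ j ih =>
      intro a
      rw [pow_succ' y, mul_assoc, ih, ← mul_assoc, h1, mul_assoc, pow_succ' k, mul_assoc]
  have hfx : (Submonoid.powers x : Set D).Finite :=
    (isOfFinOrder_iff_pow_eq_one.2 ⟨N, hN, hx⟩).finite_powers
  have hfy : (Submonoid.powers y : Set D).Finite :=
    (isOfFinOrder_iff_pow_eq_one.2 ⟨M, hM, hy⟩).finite_powers
  have hfin : (Submonoid.closure ({x, y} : Set D) : Set D).Finite := by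
    refine (hfx.image2 (· * ·) hfy).subset ?_
    intro z hz
    induction hz using Submonoid.closure_induction with
    | mem z hz =>
      rcases hz with rfl | rfl
      · exact ⟨z, ⟨1, by simp⟩, 1, ⟨0, by simp⟩, by simp⟩
      · exact ⟨1, ⟨0, by simp⟩, z, ⟨1, by simp⟩, by simp⟩
    | one => exact ⟨1, ⟨0, by simp⟩, 1, ⟨0, by simp⟩, by simp⟩
    | mul a b _ _ ha hb =>
      obtain ⟨_, ⟨i, rfl⟩, _, ⟨j, rfl⟩, rfl⟩ := ha
      obtain ⟨_, ⟨a, rfl⟩, _, ⟨b, rfl⟩, rfl⟩ := hb
      refine ⟨_, ⟨i + k ^ j * a, rfl⟩, _, ⟨j + b, rfl⟩, ?_⟩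
      simp only
      rw [pow_add, pow_add, mul_assoc (x ^ i) (y ^ j), ← mul_assoc (y ^ j), h2]
      simp only [mul_assoc]
  let A := Algebra.adjoin (ZMod p) ({x, y} : Set D)
  haveI : Module.Finite (ZMod p) A := by
    have : Module.Finite (ZMod p) (Subalgebra.toSubmodule A) := by
      rw [Algebra.adjoin_eq_span]
      exact Module.Finite.span_of_finite _ hfin
    exact this
  haveI : Finite A := Module.finite_of_finite (ZMod p)
  have hF := Finite.isDomain_to_isField A
  have := hF.mul_comm ⟨x, Algebra.subset_adjoin (by simp)⟩ ⟨y, Algebra.subset_adjoin (by simp)⟩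
  exact congrArg Subtype.val this

/-- Commuting conjugates are equal. -/
theorem Hyp.eq_of_commute (H : Hyp F D) {x x' : D} (hcj : Cj x x') (hc : Commute x x') :
    x' = x := by
  obtain ⟨y, hy, rfl⟩ := hcj
  by_contra hne
  have hxt : ∀ t, Commute t y → x + t ≠ 0 := by
    intro t ht h0
    apply hne
    have : x = -t := eq_neg_of_add_eq_zero_left h0
    rw [this, ← ht.neg_left.eq, mul_assoc, mul_inv_cancel₀ hy, mul_one]
  have hG := fun t (hty : Commute t y) (htx : Commute t x) =>
    H.ratio_finite_order hy hc hty htx (hxt t hty)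
  -- a field statement used repeatedly
  have hE : ∀ (E : Type v) [Field E] [Algebra F E] (ι : E →ₐ[F] D) (e e' τ : E), ι e = x →
      ι e' = y * x * y⁻¹ → Commute (ι τ) y →
      e' ≠ e ∧ e + τ ≠ 0 ∧ ∃ k : ℕ, 0 < k ∧ ((e' + τ) / (e + τ)) ^ k = 1 := by
    intro E _ _ ι e e' τ he he' hτ
    refine ⟨fun h => hne (by rw [← he', h, he]), fun h => hxt _ hτ (by
      rw [← he, ← map_add, h, map_zero]), ?_⟩
    obtain ⟨k, hk, hk1⟩ := hG (ι τ) hτ (by
      rw [← he]; exact (Commute.all τ e).map ι)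
    refine ⟨k, hk, ι.toRingHom.injective ?_⟩
    rw [div_eq_mul_inv]
    simpa [map_inv₀, he, he'] using hk1
  have hsolve : ∀ (E : Type v) [Field E] (e e' : E), e' ≠ e → e + 0 ≠ 0 → e + 1 ≠ 0 →
      e = ((e' + 1) / (e + 1) - 1) / ((e' + 0) / (e + 0) - (e' + 1) / (e + 1)) ∧
      e' = (e' + 0) / (e + 0) * e := by
    intro E _ e e' h h0 h1
    rw [add_zero] at h0
    have h2 : e' - e ≠ 0 := sub_ne_zero.2 h
    refine ⟨?_, by rw [add_zero, add_zero, div_mul_cancel₀ _ h0]⟩
    have h3 : (e' + 0) / (e + 0) - (e' + 1) / (e + 1) = (e' - e) / (e * (e + 1)) := by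
      rw [add_zero, add_zero]; field_simp; ring
    rw [h3]; field_simp; ring
  obtain ⟨p, hp⟩ := CharP.exists D
  obtain ⟨E, _, _, ι, hι⟩ := exists_field F ({x, y * x * y⁻¹} : Set D) (by
    rintro a (rfl | rfl) b (rfl | rfl)
    exacts [Commute.refl _, hc, hc.symm, Commute.refl _])
  obtain ⟨e, he⟩ := hι x (by simp)
  obtain ⟨e', he'⟩ := hι (y * x * y⁻¹) (by simp)
  obtain ⟨hne', h0, k0, hk0, hg0⟩ := hE E ι e e' 0 he he' (by simp)
  obtain ⟨-, h1, k1, hk1, hg1⟩ := hE E ι e e' 1 he he' (by simp)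
  obtain ⟨hs1, hs2⟩ := hsolve E e e' hne' h0 h1
  rcases CharP.char_is_prime_or_zero D p with hpr | rfl
  · haveI := Fact.mk hpr
    haveI : CharP E p := RingHom.charP ι.toRingHom ι.toRingHom.injective p
    letI := ZMod.algebra E p
    have i0 := integral_of_pow_eq_one (K := ZMod p) hk0 hg0
    have i1 := integral_of_pow_eq_one (K := ZMod p) hk1 hg1
    have ie : IsIntegral (ZMod p) e := by
      rw [hs1, div_eq_mul_inv]
      exact (i1.sub isIntegral_one).mul (i0.sub i1).inv
    have he0 : e ≠ 0 := by simpa using h0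
    obtain ⟨N0, hN0, hN0e⟩ := finite_order_of_integral he0 ie
    have hfo : IsOfFinOrder e := isOfFinOrder_iff_pow_eq_one.2 ⟨N0, hN0, hN0e⟩
    have hNpos : 0 < orderOf e := hfo.orderOf_pos
    haveI : NeZero (orderOf e) := ⟨hNpos.ne'⟩
    have hxN : x ^ orderOf e = 1 := by rw [← he, ← map_pow, pow_orderOf_eq_one, map_one]
    have he'N : e' ^ orderOf e = 1 := by
      apply ι.toRingHom.injective
      simp only [AlgHom.toRingHom_eq_coe, RingHom.coe_coe, map_pow, map_one]
      rw [he', conj_pow' hy, hxN, mul_one, mul_inv_cancel₀ hy]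
    obtain ⟨k, -, hk⟩ := (IsPrimitiveRoot.orderOf e).eq_pow_of_pow_eq_one he'N
    have hxk : y * x * y⁻¹ = x ^ k := by rw [← he', ← hk, map_pow, he]
    have hj : ∀ j : ℕ, y ^ j * x * (y ^ j)⁻¹ = x ^ (k ^ j) := by
      intro j
      induction j with
      | zero => simp
      | succ j ih =>
        rw [pow_succ' y, mul_inv_rev, mul_assoc y, mul_assoc y, ← mul_assoc (y ^ j * x), ih,
          ← mul_assoc, ← conj_pow' hy, hxk, ← pow_mul, pow_succ']
    have hfx : (Submonoid.powers x : Set D).Finite :=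
      (isOfFinOrder_iff_pow_eq_one.2 ⟨_, hNpos, hxN⟩).finite_powers
    have : ¬ Function.Injective (fun j : ℕ => y ^ j * x * (y ^ j)⁻¹) := by
      intro hi
      refine (Set.infinite_range_of_injective hi) (hfx.subset ?_)
      rintro _ ⟨j, rfl⟩
      exact ⟨_, (hj j).symm⟩
    have hr : ∃ r : ℕ, 0 < r ∧ Commute (y ^ r) x := by
      simp only [Function.Injective, not_forall] at this
      obtain ⟨i, j, hij, hne2⟩ := this
      have key : ∀ i j : ℕ, i < j → y ^ i * x * (y ^ i)⁻¹ = y ^ j * x * (y ^ j)⁻¹ →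
          ∃ r : ℕ, 0 < r ∧ Commute (y ^ r) x := by
        intro i j hl hij
        obtain ⟨r, rfl⟩ := Nat.exists_eq_add_of_lt hl
        refine ⟨r + 1, Nat.succ_pos _, ?_⟩
        rw [add_assoc, pow_add y i, mul_inv_rev, ← mul_assoc] at hij
        have h5 := mul_right_cancel₀ (inv_ne_zero (pow_ne_zero i hy)) hij
        rw [mul_assoc, mul_assoc] at h5
        have h6 := mul_left_cancel₀ (pow_ne_zero i hy) h5
        rw [← mul_assoc, eq_mul_inv_iff_mul_eq₀ (pow_ne_zero _ hy)] at h6
        exact h6.symm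
      rcases Nat.lt_or_gt_of_ne hne2 with hl | hl
      exacts [key i j hl hij, key j i hl hij.symm]
    obtain ⟨r, hr0, hrx⟩ := hr
    obtain ⟨E2, _, _, ι2, hι2⟩ := exists_field F ({x, y ^ r} : Set D) (by
      rintro a (rfl | rfl) b (rfl | rfl)
      exacts [Commute.refl _, hrx.symm, hrx, Commute.refl _])
    obtain ⟨a, ha⟩ := hι2 x (by simp)
    obtain ⟨τ, hτ⟩ := hι2 (y ^ r) (by simp)
    obtain ⟨hne2, h02, k2, hk2, hg2⟩ := hE E2 ι2 a (a ^ k) τ ha (by rw [map_pow, ha, hxk])
      (by rw [hτ]; exact (Commute.refl y).pow_left r)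
    haveI : CharP E2 p := RingHom.charP ι2.toRingHom ι2.toRingHom.injective p
    letI := ZMod.algebra E2 p
    have i2 := integral_of_pow_eq_one (K := ZMod p) hk2 hg2
    have ia : IsIntegral (ZMod p) a := integral_of_pow_eq_one hNpos (by
      apply ι2.toRingHom.injective
      simp only [AlgHom.toRingHom_eq_coe, RingHom.coe_coe, map_pow, map_one]
      rw [ha, hxN])
    have hτ0 : τ ≠ 0 := by
      rintro rfl
      exact pow_ne_zero r hy (by rw [← hτ, map_zero])
    have iτ : IsIntegral (ZMod p) τ := by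
      have h7 : a ^ k - a ≠ 0 := sub_ne_zero.2 hne2
      have h8 : (a ^ k + τ) / (a + τ) - 1 = (a ^ k - a) / (a + τ) := by field_simp; ring
      have : τ = (a ^ k - a) * ((a ^ k + τ) / (a + τ) - 1)⁻¹ - a := by
        rw [h8]; field_simp; ring
      rw [this]
      exact (((ia.pow k).sub ia).mul (i2.sub isIntegral_one).inv).sub ia
    obtain ⟨M, hM, hMτ⟩ := finite_order_of_integral hτ0 iτ
    have hyM : y ^ (r * M) = 1 := by rw [pow_mul, ← hτ, ← map_pow, hMτ, map_one]
    have := commute_of_finite_order (p := p) hNpos (Nat.mul_pos hr0 hM) hxN hyM (k := k) (by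
      rw [← hxk, mul_assoc, inv_mul_cancel₀ hy, mul_one])
    apply hne
    rw [← this, mul_assoc, mul_inv_cancel₀ hy, mul_one]
  · haveI := CharP.charP_to_charZero D
    haveI : CharZero E := RingHom.charZero ι.toRingHom
    have i0 := integral_of_pow_eq_one (K := ℚ) hk0 hg0
    have i1 := integral_of_pow_eq_one (K := ℚ) hk1 hg1
    have ie : IsIntegral ℚ e := by
      rw [hs1, div_eq_mul_inv]
      exact (i1.sub isIntegral_one).mul (i0.sub i1).inv
    have ie' : IsIntegral ℚ e' := by rw [hs2]; exact i0.mul ie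
    let L := IntermediateField.adjoin ℚ ({e, e'} : Set E)
    haveI : FiniteDimensional ℚ L := IntermediateField.finiteDimensional_adjoin (by
      rintro a (rfl | rfl); exacts [ie, ie'])
    haveI : NumberField L := {}
    let a : L := ⟨e, IntermediateField.subset_adjoin _ _ (by simp)⟩
    let a' : L := ⟨e', IntermediateField.subset_adjoin _ _ (by simp)⟩
    have hfin := NumberField.Embeddings.finite_of_norm_le L ℂ 1
    have hall : ∀ t : ℕ, a + t ≠ 0 ∧ ∃ k : ℕ, 0 < k ∧ ((a' + t) / (a + t)) ^ k = 1 := by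
      intro t
      obtain ⟨-, h3, k, hk, hg⟩ := hE E ι e e' t he he' (by
        rw [map_natCast]; exact Nat.cast_commute t y)
      refine ⟨fun h => h3 (by simpa [a] using congrArg Subtype.val h), k, hk, Subtype.ext ?_⟩
      simpa [a, a'] using hg
    have haa : a' ≠ a := fun h => hne' (congrArg Subtype.val h)
    have hi : Function.Injective (fun t : ℕ => (a' + t) / (a + t)) := by
      intro s t hst
      simp only at hst
      rw [div_eq_div_iff (hall s).1 (hall t).1] at hst
      have : (a' - a) * ((t : L) - s) = 0 := by linear_combination hst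
      rcases mul_eq_zero.1 this with h | h
      · exact absurd (sub_eq_zero.1 h) haa
      · exact (Nat.cast_injective (sub_eq_zero.1 h)).symm
    refine (Set.infinite_range_of_injective hi) (hfin.subset ?_)
    rintro _ ⟨t, rfl⟩
    obtain ⟨-, k, hk, hg⟩ := hall t
    refine ⟨IsIntegral.of_pow hk (by rw [hg]; exact isIntegral_one), fun φ => ?_⟩
    have : ‖φ ((a' + t) / (a + t))‖ ^ k = 1 := by rw [← norm_pow, ← map_pow, hg]; simp
    exact ((pow_eq_one_iff_of_nonneg (norm_nonneg _) hk.ne').1 this).le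

/-- Elements of finite order are central. -/
theorem Hyp.central_of_pow_eq_one (H : Hyp F D) {η : D} {N : ℕ} (hN : 0 < N) (h : η ^ N = 1) :
    ∃ f : F, algebraMap F D f = η := by
  obtain ⟨E, _, _, ι, hι⟩ := exists_field F ({η} : Set D) (by
    rintro a rfl b rfl; exact Commute.refl _)
  obtain ⟨e, rfl⟩ := hι η rfl
  have hinj : Function.Injective ι := ι.toRingHom.injective
  have he : e ^ N = 1 := hinj (by rw [map_pow, h, map_one])
  have hfo : IsOfFinOrder e := isOfFinOrder_iff_pow_eq_one.2 ⟨N, hN, he⟩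
  have hNpos : 0 < orderOf e := hfo.orderOf_pos
  haveI : NeZero (orderOf e) := ⟨hNpos.ne'⟩
  have hprim := IsPrimitiveRoot.orderOf e
  have hie : IsIntegral F e := integral_of_pow_eq_one hN he
  have hdvd : (minpoly F e).map (algebraMap F E) ∣ X ^ orderOf e - C 1 := by
    have : minpoly F e ∣ X ^ orderOf e - C 1 := minpoly.dvd _ _ (by simp [pow_orderOf_eq_one])
    simpa using Polynomial.map_dvd (algebraMap F E) this
  have hne0 : (X ^ orderOf e - C 1 : E[X]) ≠ 0 := X_pow_sub_C_ne_zero hNpos _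
  have hsp := (X_pow_sub_one_splits hprim).of_dvd hne0 hdvd
  have hsep : ((minpoly F e).map (algebraMap F E)).Separable := by
    refine Separable.of_dvd ?_ hdvd
    rw [C_1]
    exact X_pow_sub_one_separable_iff.2 hprim.neZero'.out
  have hall : ∀ ρ ∈ ((minpoly F e).map (algebraMap F E)).roots, ρ = e := by
    intro ρ hρ
    have h1 : aeval ρ (minpoly F e) = 0 := by
      have := (mem_roots'.1 hρ).2
      rwa [IsRoot, eval_map_algebraMap] at this
    have hcj : Cj (ι e) (ι ρ) := dickson H.cen (hie.map ι) (by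
      rw [minpoly.algHom_eq ι hinj, aeval_algHom_apply, h1, map_zero])
    exact hinj (H.eq_of_commute hcj ((Commute.all e ρ).map ι))
  have hcard : ((minpoly F e).map (algebraMap F E)).roots.card ≤ 1 := by
    have hnd := nodup_roots hsep
    have : ((minpoly F e).map (algebraMap F E)).roots ≤ {e} := by
      rw [Multiset.le_iff_subset hnd]
      intro ρ hρ; simp [hall ρ hρ]
    simpa using Multiset.card_le_card this
  rw [← hsp.natDegree_eq_card_roots, natDegree_map] at hcard
  have hd : (minpoly F e).natDegree = 1 := le_antisymm hcard (minpoly.natDegree_pos hie)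
  obtain ⟨f, hf⟩ := minpoly.natDegree_eq_one_iff.1 hd
  exact ⟨f, by rw [← hf, AlgHom.commutes]⟩

end Pool.Agent.MP_8ed1d4_al
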