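import Pool.Agent.MP_8ed1d4_al.Trace

set_option autoImplicit false
set_option linter.style.haveILetI false
set_option linter.unusedVariables false

open Polynomial

namespace Pool.Agent.MP_8ed1d4_al

universe u v

variable {F : Type u} {D : Type v} [Field F] [DivisionRing D] [Algebra F D]

theorem exists_prime_step {r : D} (hr : ¬ ∃ f : F, algebraMap F D f = r) :
    ∀ n : ℕ, 0 < n → (∃ f : F, algebraMap F D f = r ^ n) → ∃ k l : ℕ, l.Prime ∧ l ∣ n ∧
      (¬ ∃ f : F, algebraMap F D f = r ^ k) ∧ ∃ f : F, algebraMap F D f = (r ^ k) ^ l := by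
  intro n
  induction n using induction_on_primes with
  | zero => simp
  | one => intro _ h; exact absurd (by simpa using h) hr
  | prime_mul p a hp ih =>
    intro hn h
    by_cases ha : ∃ f : F, algebraMap F D f = r ^ a
    · obtain ⟨k, l, h1, h2, h3⟩ := ih (Nat.pos_of_mul_pos_left hn) ha
      exact ⟨k, l, h1, h2.mul_left p, h3⟩
    · exact ⟨a, p, hp, dvd_mul_right p a, ha, by rwa [← pow_mul, mul_comm]⟩

theorem exists_irreducible_kill {V : Type*} [AddCommGroup V] [Module F V] (φ : Module.End F V)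
    (P : F[X]) : P ≠ 0 → ∀ w : V, w ≠ 0 → aeval φ P w = 0 →
      ∃ (q : F[X]) (w' : V), Irreducible q ∧ q ∣ P ∧ w' ≠ 0 ∧ aeval φ q w' = 0 := by
  induction P using WfDvdMonoid.induction_on_irreducible with
  | zero => simp
  | unit u hu =>
    intro _ w hw h
    obtain ⟨c, hc, rfl⟩ := Polynomial.isUnit_iff.1 hu
    simp [hw, hc.ne_zero] at h
  | mul a i ha hi ih =>
    intro _ w hw h
    by_cases h1 : aeval φ a w = 0
    · obtain ⟨q, w', h2, h3, h4⟩ := ih ha w hw h1
      exact ⟨q, w', h2, h3.mul_left i, h4⟩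
    · exact ⟨i, _, hi, dvd_mul_right i a, h1, by rwa [map_mul, Module.End.mul_apply] at h⟩

theorem Hyp.central_of_cyclo (H : Hyp F D) {r : D} {n : ℕ} (hn : 0 < n)
    (hq : ∀ l : ℕ, l.Prime → l ∣ n → ∀ q : F[X], Irreducible q → q ∣ X ^ l - 1 → q.natDegree ≤ 2)
    (h : ∃ f : F, algebraMap F D f = r ^ n) : ∃ f : F, algebraMap F D f = r := by
  by_contra hr
  obtain ⟨k, l, hl, hln, hb, f, hf⟩ := exists_prime_step hr n hn h
  generalize r ^ k = b at hb hf
  have hb0 : b ≠ 0 := by rintro rfl; exact hb ⟨0, map_zero _⟩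
  have hlF : (l : F) ≠ 0 := by
    intro h0
    haveI := Fact.mk hl
    haveI : CharP F l := (CharP.charP_iff_prime_eq_zero hl).2 h0
    exact hb (H.central_of_pow_char hf.symm)
  let φ : Module.End F D := LinearMap.mulLeft F b * LinearMap.mulRight F b⁻¹
  have hφ : ∀ z, φ z = b * z * b⁻¹ := fun z => (mul_assoc _ _ _).symm
  have hφn : ∀ (j : ℕ) z, (φ ^ j) z = b ^ j * z * (b ^ j)⁻¹ := by
    intro j z
    induction j with
    | zero => simp
    | succ j ih =>
      rw [pow_succ', Module.End.mul_apply, ih, hφ, pow_succ' b, mul_inv_rev]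
      simp only [mul_assoc]
  have : ∃ z, b * z ≠ z * b := by
    by_contra h
    push Not at h
    exact hb (H.cen b h)
  obtain ⟨z, hz⟩ := this
  have hgeom : (∑ i ∈ Finset.range l, (X : F[X]) ^ i) * (X - 1) = X ^ l - 1 := geom_sum_mul _ _
  have h1 : eval 1 (∑ i ∈ Finset.range l, (X : F[X]) ^ i) ≠ 0 := by
    simpa [eval_finsetSum] using hlF
  obtain ⟨q, w, hqi, hqd, hw, hqw⟩ := exists_irreducible_kill φ
    (∑ i ∈ Finset.range l, (X : F[X]) ^ i) (by rintro h; simp [h] at h1) (aeval φ (X - 1 : F[X]) z)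
    (by
      simp only [map_sub, aeval_X, map_one, LinearMap.sub_apply, Module.End.one_apply, hφ]
      rw [Ne, sub_eq_zero, mul_inv_eq_iff_eq_mul₀ hb0]; exact hz)
    (by
      rw [← Module.End.mul_apply, ← map_mul, hgeom]
      simp only [map_sub, aeval_X, map_one, map_pow, LinearMap.sub_apply, Module.End.one_apply, hφn]
      rw [← hf, Algebra.commutes, mul_inv_cancel_right₀ (by rw [hf]; exact pow_ne_zero _ hb0),
        sub_self])
  have hq1 : eval 1 q ≠ 0 := fun h0 => h1 (eval_eq_zero_of_dvd_of_eval_eq_zero hqd h0)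
  have hdeg := hq l hl hln q hqi (hgeom ▸ hqd.mul_right _)
  rw [aeval_eq_sum_range' (n := 3) (by omega)] at hqw
  rw [eval_eq_sum_range' (n := 3) (by omega)] at hq1
  simp only [Finset.sum_range_succ, Finset.range_zero, Finset.sum_empty, zero_add,
    LinearMap.add_apply, LinearMap.smul_apply, hφn, pow_zero, pow_one, Module.End.one_apply, hφ, mul_one,
    one_pow] at hqw hq1
  generalize q.coeff 0 = c0 at hqw hq1
  generalize q.coeff 1 = c1 at hqw hq1
  generalize q.coeff 2 = c2 at hqw hq1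
  set b' := w * b * w⁻¹ with hb'
  have h2 : (c0 • (b⁻¹ * b') + c1 • (1 : D)) * (b' * b⁻¹) = -(c2 • (1 : D)) := by
    have := congrArg (fun t => b⁻¹ * t * (b * b * w⁻¹ * b⁻¹)) hqw
    simp only [mul_add, add_mul, mul_smul_comm, smul_mul_assoc, mul_zero, zero_mul, pow_two,
      mul_inv_rev, mul_assoc, inv_mul_cancel_left₀ hb0, mul_inv_cancel_left₀ hw,
      mul_inv_cancel₀ hb0] at this
    rw [eq_neg_iff_add_eq_zero, ← this]
    simp only [hb', add_mul, smul_mul_assoc, mul_assoc,
      inv_mul_cancel_left₀ hw, one_mul]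
  have h3 : Commute (b⁻¹ * b') (b' * b⁻¹) := by
    by_cases h4 : c0 • (b⁻¹ * b') + c1 • (1 : D) = 0
    · by_cases h5 : c0 = 0
      · exfalso
        rw [h4, zero_mul, zero_eq_neg, smul_eq_zero] at h2
        rw [h5, zero_smul, zero_add, smul_eq_zero] at h4
        simp only [one_ne_zero, or_false] at h2 h4
        simp [h2, h4, h5] at hq1
      · have : b⁻¹ * b' = (-(c0⁻¹ * c1)) • (1 : D) := by
          rw [neg_smul, mul_smul, ← smul_neg, eq_inv_smul_iff₀ h5]
          exact eq_neg_of_add_eq_zero_left h4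
        rw [this]
        exact (Commute.one_left _).smul_left _
    · have : b' * b⁻¹ = (c0 • (b⁻¹ * b') + c1 • (1 : D))⁻¹ * -(c2 • (1 : D)) := by
        rw [← h2, inv_mul_cancel_left₀ h4]
      rw [this]
      exact (((Commute.refl _).smul_right _).add_right
        ((Commute.one_right _).smul_right _)).inv_right₀.mul_right
        ((Commute.one_right _).smul_right _).neg_right
  have h4 := H.eq_of_commute (x := b⁻¹ * b') (x' := b' * b⁻¹)
    ⟨b, hb0, by rw [mul_inv_cancel_left₀ hb0]⟩ h3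
  have h5 : Commute b b' := by
    have : Commute b⁻¹ b' := h4.symm
    simpa using this.inv_left₀
  have h6 := H.eq_of_commute (x := b) (x' := b') ⟨w, hw, rfl⟩ h5
  rw [hb', mul_inv_eq_iff_eq_mul₀ hw] at h6
  have h7 : Commute b w := h6.symm
  rw [h7.eq, (h7.pow_left 2).eq, mul_inv_cancel_right₀ hb0,
    mul_inv_cancel_right₀ (pow_ne_zero 2 hb0), ← add_smul, ← add_smul, smul_eq_zero] at hqw
  exact hqw.elim hq1 hw

theorem Hyp.comm_of_central (H : Hyp F D) {a b : D}
    (h : ∃ f : F, algebraMap F D f = a * b * a⁻¹ * b⁻¹) : a * b = b * a := by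
  by_cases ha : a = 0
  · simp [ha]
  by_cases hb : b = 0
  · simp [hb]
  obtain ⟨f, hf⟩ := h
  have h1 : a * b * a⁻¹ = algebraMap F D f * b := by rw [hf, inv_mul_cancel_right₀ hb]
  have := H.eq_of_commute (x := b) (x' := a * b * a⁻¹) ⟨a, ha, rfl⟩ (by
    rw [h1]
    exact (Algebra.commute_algebraMap_right f b).mul_right (Commute.refl b))
  rwa [mul_inv_eq_iff_eq_mul₀ ha] at this

end Pool.Agent.MP_8ed1d4_al
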