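import Pool.Agent.MP_8ed1d4_al.Cyclo

set_option autoImplicit false
set_option linter.style.haveILetI false
set_option linter.unusedVariables false

namespace Pool.Agent.MP_8ed1d4_al

universe u v

variable {F : Type u} {D : Type v} [Field F] [DivisionRing D] [Algebra F D] [StarRing D]

/-- Two symmetric elements commute as soon as some power of their commutator is central and
symmetric. -/
theorem Hyp.symm_comm (H : Hyp F D) {s r : D} (hs : star s = s) (hr : star r = r) {n : ℕ}
    (hn : 0 < n) (hc : ∀ z, z * (s * r * s⁻¹ * r⁻¹) ^ n = (s * r * s⁻¹ * r⁻¹) ^ n * z)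
    (hf : star ((s * r * s⁻¹ * r⁻¹) ^ n) = (s * r * s⁻¹ * r⁻¹) ^ n) : s * r = r * s := by
  by_cases hs0 : s = 0
  · simp [hs0]
  by_cases hr0 : r = 0
  · simp [hr0]
  set u := s * r * s⁻¹ * r⁻¹ with hu
  have hu0 : u ≠ 0 := by simp [hu, hs0, hr0]
  have hrs : (r * s)⁻¹ ≠ 0 := by simp [hs0, hr0]
  have h1 : star u = (r * s)⁻¹ * u⁻¹ * ((r * s)⁻¹)⁻¹ := by
    simp only [hu, star_mul, star_inv₀, hs, hr, mul_inv_rev, inv_inv, mul_assoc,
      inv_mul_cancel_left₀ hr0, inv_mul_cancel_left₀ hs0]
  have h2 : u ^ n = (u ^ n)⁻¹ := by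
    have hc' : Commute (r * s)⁻¹ (u ^ n)⁻¹ := (show Commute (r * s)⁻¹ (u ^ n) from hc _).inv_right₀
    conv_lhs => rw [← hf, star_pow, h1, conj_pow' hrs, inv_pow, hc'.eq,
      mul_inv_cancel_right₀ hrs]
  have h3 : u ^ (n * 2) = 1 := by
    rw [pow_mul, pow_two]
    nth_rewrite 1 [h2]
    exact inv_mul_cancel₀ (pow_ne_zero n hu0)
  exact H.comm_of_central (H.central_of_pow_eq_one (Nat.mul_pos hn two_pos) h3)

/-- If symmetric elements commute with each other they are central. -/
theorem Hyp.symm_central (H : Hyp F D)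
    (h : ∀ s r : D, star s = s → star r = r → s * r = r * s) {s : D} (hs : star s = s) (x : D) :
    s * x = x * s := by
  by_contra hne
  have hw0 : s * x - x * s ≠ 0 := sub_ne_zero.2 hne
  have h1 := h s (x + star x) hs (by rw [star_add, star_star, add_comm])
  have h2 : star (s * x - x * s) = s * x - x * s := by
    rw [star_sub, star_mul, star_mul, hs]
    rw [mul_add, add_mul] at h1
    have : star x * s - s * star x - (s * x - x * s) =
        (x * s + star x * s) - (s * x + s * star x) := by abel
    rw [← sub_eq_zero, this, h1, sub_self]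
  have h3 : Commute s (s * x - x * s) := h s _ hs h2
  apply H.commutator_ne_one s (x * (s * x - x * s)⁻¹)
  rw [mul_assoc x, ← h3.inv_right₀.eq, ← mul_assoc, ← mul_assoc, ← sub_mul, mul_inv_cancel₀ hw0]

theorem Hyp.comm_of_symm (H : Hyp F D)
    (h : ∀ s r : D, star s = s → star r = r → s * r = r * s) (x y : D) : x * y = y * x := by
  by_contra hne
  have hw0 : x * y - y * x ≠ 0 := sub_ne_zero.2 hne
  have ht := fun z => H.symm_central h (s := x + star x) (by rw [star_add, star_star, add_comm]) z
  have hN := fun z => H.symm_central h (s := x * star x) (by rw [star_mul, star_star]) z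
  have hx : Commute x (star x) := by
    have := ht x
    rw [add_mul, mul_add] at this
    exact (add_left_cancel this).symm
  have key : (x * y - y * x) * x = star x * (x * y - y * x) := by
    have e1 := ht (y * x)
    have e2 := hN y
    have e3 : (x * y - y * x) * x - star x * (x * y - y * x) =
        ((x + star x) * (y * x) - y * x * (x + star x)) +
          (y * (x * star x) - star x * x * y) := by noncomm_ring
    rw [← sub_eq_zero, e3, e1, ← hx.eq, e2, sub_self, sub_self, add_zero]
  have h1 : star x = x := H.eq_of_commute ⟨x * y - y * x, hw0, by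
    rw [key, mul_inv_cancel_right₀ hw0]⟩ hx
  exact hne (H.symm_central h h1 y)

end Pool.Agent.MP_8ed1d4_al
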