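import Pool.Agent.MP_8ed1d4_al.Normed2

set_option autoImplicit false

/-!
Division rings with a locally bounded ring topology.
-/

namespace Pool.Agent.MP_8ed1d4_al

open Topology Filter

universe v

/-- A seminorm from a family of upper bounds. -/
theorem Nm.of_bounds {R : Type*} [Ring R] (P : R → ℝ → Prop) (ex : ∀ x, ∃ c, P x c)
    (nn : ∀ x c, P x c → 0 ≤ c) (add : ∀ x y c d, P x c → P y d → P (x + y) (c + d))
    (mul : ∀ x y c d, P x c → P y d → P (x * y) (c * d)) (neg : ∀ x c, P x c → P (-x) c)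
    (zero : P 0 0) (one : ∀ c, P 1 c → 1 ≤ c) :
    ∃ N : R → ℝ, Nm N ∧ ∀ x c, P x c → N x ≤ c := by
  have le : ∀ x c, P x c → sInf {c | P x c} ≤ c := fun x c h => csInf_le ⟨0, nn x⟩ h
  have ge : ∀ x b, (∀ c, P x c → b ≤ c) → b ≤ sInf {c | P x c} := fun x b h => le_csInf (ex x) h
  have n0 : ∀ x, 0 ≤ sInf {c | P x c} := fun x => ge x 0 (nn x)
  refine ⟨fun x => sInf {c | P x c}, ⟨n0, fun x y => ?_, fun x y => ?_, fun x => ?_,
    le_antisymm (le 0 0 zero) (n0 0), ge 1 1 one⟩, le⟩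
  · refine sub_le_iff_le_add'.1 (ge y _ fun d hd => sub_le_comm.1 (ge x _ fun c hc => ?_))
    exact sub_le_iff_le_add.2 (le _ _ (add x y c d hc hd))
  · have h1 : ∀ d, P y d → sInf {c | P (x * y) c} ≤ sInf {c | P x c} * d := by
      intro d hd
      rcases (nn y d hd).eq_or_lt with e | e
      · obtain ⟨c, hc⟩ := ex x
        have := le _ _ (mul x y c d hc hd)
        rw [← e, mul_zero] at this ⊢
        exact this
      · exact (div_le_iff₀ e).1 (ge x _ fun c hc => (div_le_iff₀ e).2 (le _ _ (mul x y c d hc hd)))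
    rcases (n0 x).eq_or_lt with e | e
    · obtain ⟨d, hd⟩ := ex y
      have := h1 d hd
      rw [← e, zero_mul] at this ⊢
      exact this
    · exact (div_le_iff₀' e).1 (ge y _ fun d hd => (div_le_iff₀' e).2 (h1 d hd))
  · refine le_antisymm (ge x _ fun c hc => le _ _ (neg x c hc)) (ge _ _ fun c hc => le _ _ ?_)
    simpa using neg _ c hc

section Sums

variable {R : Type*} [Ring R]

/-- Products of elements of `A` and of `k` letters from `X`. -/
def Wd (A X : Set R) : ℕ → R → Prop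
  | 0, z => z ∈ A
  | k + 1, z => ∃ a ∈ A, ∃ x ∈ X, ∃ y, Wd A X k y ∧ z = a * x * y

/-- Sums of such products, where a product with `k` letters has weight `2 ^ k`. -/
inductive Sz (A X : Set R) : ℕ → R → Prop
  | zero : Sz A X 0 0
  | cons {t k : ℕ} {y z : R} : Sz A X t y → Wd A X k z → Sz A X (t + 2 ^ k) (y + z)

variable {A X : Set R}

theorem Wd.mul (hm : ∀ a ∈ A, ∀ b ∈ A, a * b ∈ A) {k : ℕ} {y : R} (hy : Wd A X k y) (j : ℕ) :
    ∀ {z : R}, Wd A X j z → Wd A X (k + j) (z * y) := by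
  induction j with
  | zero =>
    intro z hz
    cases k with
    | zero => exact hm z hz y hy
    | succ k =>
      obtain ⟨a, ha, x, hx, y, hy, rfl⟩ := hy
      exact ⟨z * a, hm z hz a ha, x, hx, y, hy, by simp only [mul_assoc]⟩
  | succ j ih =>
    rintro _ ⟨a, ha, x, hx, z, hz, rfl⟩
    exact ⟨a, ha, x, hx, z * y, ih hz, mul_assoc _ _ _⟩

theorem Sz.single {k : ℕ} {z : R} (h : Wd A X k z) : Sz A X (2 ^ k) z := by
  simpa using Sz.zero.cons h

theorem Sz.add {s t : ℕ} {y z : R} (hy : Sz A X s y) (hz : Sz A X t z) :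
    Sz A X (s + t) (y + z) := by
  induction hz with
  | zero => simpa using hy
  | cons _ hw ih => rw [← add_assoc, ← add_assoc]; exact ih.cons hw

theorem Sz.left (hm : ∀ a ∈ A, ∀ b ∈ A, a * b ∈ A) {j t : ℕ} {x z : R} (hx : Wd A X j x)
    (hz : Sz A X t z) : Sz A X (2 ^ j * t) (x * z) := by
  induction hz with
  | zero => simpa using Sz.zero
  | cons _ hw ih =>
    rw [mul_add, mul_add, ← pow_add, add_comm j]
    exact ih.cons (hw.mul hm j hx)

theorem Sz.mul (hm : ∀ a ∈ A, ∀ b ∈ A, a * b ∈ A) {s t : ℕ} {y z : R} (hy : Sz A X s y)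
    (hz : Sz A X t z) : Sz A X (s * t) (y * z) := by
  induction hy with
  | zero => simpa using Sz.zero
  | cons _ hw ih =>
    rw [add_mul, add_mul]
    exact ih.add (Sz.left hm hw hz)

theorem Sz.neg (hm : ∀ a ∈ A, ∀ b ∈ A, a * b ∈ A) (h1 : (-1 : R) ∈ A) {t : ℕ} {z : R}
    (hz : Sz A X t z) : Sz A X t (-z) := by
  simpa using Sz.left hm (j := 0) h1 hz

theorem Sz.le_one (h0 : (0 : R) ∈ A) {t : ℕ} {z : R} (hz : Sz A X t z) (ht : t ≤ 1) : z ∈ A := by
  cases hz with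
  | zero => exact h0
  | @cons t k y z hy hw =>
    have hk : 0 < 2 ^ k := Nat.two_pow_pos k
    cases hy with
    | zero =>
      cases k with
      | zero => rwa [zero_add]
      | succ k => rw [pow_succ] at ht; have := Nat.two_pow_pos k; omega
    | @cons t j _ _ _ _ => have := Nat.two_pow_pos j; omega

theorem Sz.half (hm : ∀ a ∈ A, ∀ b ∈ A, a * b ∈ A) (h0 : (0 : R) ∈ A) {w : R}
    (hw : ∀ a ∈ A, ∀ b ∈ A, w * (a + b) ∈ A) (hX : ∀ a ∈ A, ∀ x ∈ X, w * a * x ∈ A) {t : ℕ}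
    {z : R} (hz : Sz A X t z) : ∃ s, 2 * s ≤ t + 1 ∧ Sz A X s (w * z) := by
  have key : (∃ s, 2 * s ≤ t ∧ Sz A X s (w * z)) ∨
      ∃ a ∈ A, ∃ s, 2 * s + 1 ≤ t ∧ Sz A X s (w * (z - a)) := by
    induction hz with
    | zero => exact Or.inl ⟨0, le_rfl, by simpa using Sz.zero⟩
    | @cons t k y z _ hk ih =>
      cases k with
      | zero =>
        rcases ih with ⟨s, h1, h2⟩ | ⟨a, ha, s, h1, h2⟩
        · exact Or.inr ⟨z, hk, s, by omega, by rwa [add_sub_cancel_right]⟩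
        · refine Or.inl ⟨s + 2 ^ 0, by omega, ?_⟩
          have := h2.cons (k := 0) (hw a ha z hk)
          rwa [← mul_add, ← add_assoc, sub_add_cancel] at this
      | succ k =>
        obtain ⟨a, ha, x, hx, z, hz, rfl⟩ := hk
        have h3 : Wd A X k (w * (a * x * z)) := by
          have := hz.mul hm 0 (hX a ha x hx)
          simpa only [mul_assoc, add_zero] using this
        rcases ih with ⟨s, h1, h2⟩ | ⟨b, hb, s, h1, h2⟩
        · exact Or.inl ⟨s + 2 ^ k, by rw [pow_succ]; omega, by rw [mul_add]; exact h2.cons h3⟩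
        · refine Or.inr ⟨b, hb, s + 2 ^ k, by rw [pow_succ]; omega, ?_⟩
          rw [add_sub_right_comm, mul_add]
          exact h2.cons h3
  rcases key with ⟨s, h1, h2⟩ | ⟨a, ha, s, h1, h2⟩
  · exact ⟨s, by omega, h2⟩
  · refine ⟨s + 2 ^ 0, by omega, ?_⟩
    have := h2.cons (k := 0) (hw a ha 0 h0)
    rwa [← mul_add, add_zero, sub_add_cancel] at this

end Sums

variable {D : Type v} [DivisionRing D]

/-- Generators that are contracted by an element give a norm that is not discrete. -/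
theorem exists_nm {A X : Set D} (h0 : (0 : D) ∈ A) (h1 : (-1 : D) ∈ A)
    (hm : ∀ a ∈ A, ∀ b ∈ A, a * b ∈ A) (hA : ∃ z, z ∉ A) (hs : ∀ z, ∃ t, Sz A X t z) {w : D}
    (hw0 : w ≠ 0) (hw : ∀ a ∈ A, ∀ b ∈ A, w * (a + b) ∈ A)
    (hX : ∀ a ∈ A, ∀ x ∈ X, w * a * x ∈ A) : ∃ N : D → ℝ, Nm N ∧ N w < 1 := by
  classical
  have spec : ∀ z, Sz A X (Nat.find (hs z)) z := fun z => Nat.find_spec (hs z)
  have min' : ∀ z t, Sz A X t z → Nat.find (hs z) ≤ t := fun z t h => Nat.find_min' (hs z) h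
  generalize hn : (fun z => Nat.find (hs z)) = n
  have hn' : ∀ z, Nat.find (hs z) = n z := fun z => congrFun hn z
  simp only [hn'] at spec min'
  have min : ∀ z t, Sz A X t z → (n z : ℝ) ≤ t := fun z t h => by exact_mod_cast min' z t h
  have half : ∀ z, 2 * n (w * z) ≤ n z + 1 := fun z => by
    obtain ⟨s, h2, h3⟩ := (spec z).half hm h0 hw hX
    have := min' _ _ h3
    omega
  have unb : ∀ T : ℕ, ¬ ∀ z, n z ≤ T + 1 := by
    intro T
    induction T with
    | zero =>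
      obtain ⟨z, hz⟩ := hA
      exact fun h => hz ((spec z).le_one h0 (h z))
    | succ T ih =>
      refine fun h => ih fun z => ?_
      have h2 := half (w⁻¹ * z)
      have h3 := h (w⁻¹ * z)
      rw [mul_inv_cancel_left₀ hw0] at h2
      omega
  obtain ⟨N, hN, hle⟩ := Nm.of_bounds
    (fun (x : D) (c : ℝ) => 0 ≤ c ∧ ∃ K : ℝ, ∀ z, (n (x * z) : ℝ) ≤ c * n z + K)
    (fun x => ⟨n x, Nat.cast_nonneg _, 0, fun z => by
      have := min _ _ (Sz.mul hm (spec x) (spec z))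
      push_cast at this
      linarith⟩)
    (fun _ _ h => h.1)
    (by
      rintro x y c d ⟨hc, K, hK⟩ ⟨hd, L, hL⟩
      refine ⟨add_nonneg hc hd, K + L, fun z => ?_⟩
      have := min _ _ ((spec (x * z)).add (spec (y * z)))
      rw [← add_mul] at this
      push_cast at this
      linarith [hK z, hL z])
    (by
      rintro x y c d ⟨hc, K, hK⟩ ⟨hd, L, hL⟩
      refine ⟨mul_nonneg hc hd, c * L + K, fun z => ?_⟩
      have := mul_le_mul_of_nonneg_left (hL z) hc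
      rw [mul_assoc]
      linarith [hK (y * z)])
    (by
      rintro x c ⟨hc, K, hK⟩
      refine ⟨hc, K, fun z => le_trans ?_ (hK z)⟩
      have := min _ _ ((spec (x * z)).neg hm h1)
      rwa [← neg_mul] at this)
    ⟨le_rfl, 0, fun z => by simpa using min 0 0 Sz.zero⟩
    (by
      rintro c ⟨hc, K, hK⟩
      by_contra hlt
      obtain ⟨T, hT⟩ := exists_nat_ge (K / (1 - c))
      refine unb T fun z => Nat.le_succ_of_le ?_
      have := hK z
      rw [one_mul] at this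
      rw [div_le_iff₀ (by linarith)] at hT
      have h2 : (n z : ℝ) ≤ T := le_of_mul_le_mul_right (by linarith) (by linarith : 0 < 1 - c)
      exact_mod_cast h2)
  refine ⟨N, hN, (hle w (1 / 2) ⟨by norm_num, 1, fun z => ?_⟩).trans_lt (by norm_num)⟩
  have h2 : (2 : ℝ) * n (w * z) ≤ n z + 1 := by exact_mod_cast half z
  linarith

/-- The conjecture of Herstein for division rings with a locally bounded ring topology. -/
theorem comm_of_locBdd [TopologicalSpace D] [IsTopologicalRing D] [T1Space D]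
    (h : ∀ x y : D, x ≠ 0 → y ≠ 0 →
      ∃ n : ℕ, 0 < n ∧ (x * y * x⁻¹ * y⁻¹) ^ n ∈ Subring.center D)
    (nd : ∀ W ∈ 𝓝 (0 : D), ∃ w ∈ W, w ≠ 0) {U0 : Set D} (hU0 : U0 ∈ 𝓝 (0 : D))
    (hb : ∀ V ∈ 𝓝 (0 : D), ∃ W ∈ 𝓝 (0 : D), ∀ w ∈ W, ∀ u ∈ U0, w * u ∈ V) (a b : D) :
    a * b = b * a := by
  by_contra hab
  have pre : ∀ {f : D → D}, Continuous f → f 0 = 0 → ∀ {W : Set D}, W ∈ 𝓝 (0 : D) →
      f ⁻¹' W ∈ 𝓝 (0 : D) := fun hf e W hW => hf.continuousAt.preimage_mem_nhds (by rwa [e])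
  let U : Set D := U0 ∩ Neg.neg ⁻¹' U0
  have hU : U ∈ 𝓝 (0 : D) := inter_mem hU0 (pre continuous_neg neg_zero hU0)
  let A : Set D := {a | ∀ u ∈ U, a * u ∈ U}
  have A0 : (0 : D) ∈ A := fun u _ => by rw [zero_mul]; exact mem_of_mem_nhds hU
  have A1 : (1 : D) ∈ A := fun u hu => by rwa [one_mul]
  have An : (-1 : D) ∈ A := fun u hu => by
    rw [neg_one_mul]
    exact ⟨hu.2, by simpa using hu.1⟩
  have Am : ∀ a ∈ A, ∀ b ∈ A, a * b ∈ A := fun a ha b hb u hu => by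
    rw [mul_assoc]; exact ha _ (hb u hu)
  have hA : A ∈ 𝓝 (0 : D) := by
    obtain ⟨W, hW, hWU⟩ := hb U hU
    exact mem_of_superset hW fun w hw u hu => hWU w hw u hu.1
  let X : Set D := {a, a⁻¹, b, b⁻¹}
  let R : Subring D :=
    { carrier := {z | ∃ t, Sz A X t z}
      mul_mem' := fun ⟨_, hs⟩ ⟨_, ht⟩ => ⟨_, hs.mul Am ht⟩
      one_mem' := ⟨_, Sz.single (k := 0) A1⟩
      add_mem' := fun ⟨_, hs⟩ ⟨_, ht⟩ => ⟨_, hs.add ht⟩
      zero_mem' := ⟨0, Sz.zero⟩
      neg_mem' := fun ⟨t, ht⟩ => ⟨t, ht.neg Am An⟩ }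
  have AR : ∀ z ∈ A, z ∈ R := fun z hz => ⟨_, Sz.single (k := 0) hz⟩
  have XR : ∀ x ∈ X, x ∈ R := fun x hx =>
    ⟨_, Sz.single (k := 1) ⟨1, A1, x, hx, 1, A1, by simp⟩⟩
  have all : ∀ z, z ∈ R := by
    intro z
    obtain ⟨w, ⟨h1, h2⟩, hw⟩ := nd _ (inter_mem hA (pre (continuous_const_mul z) (mul_zero z) hA))
    rw [← mul_inv_cancel_right₀ hw z]
    exact R.mul_mem (AR _ h2) (inv_mem_of_units h R (XR a (by simp [X])) (XR _ (by simp [X]))
      (XR b (by simp [X])) (XR _ (by simp [X])) hab (AR w h1))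
  obtain ⟨u, hu, hu0⟩ := nd U hU
  have prop : ∃ z, z ∉ A := by
    by_contra hall
    push Not at hall
    obtain ⟨W, hW, hWU⟩ := hb {1}ᶜ (compl_singleton_mem_nhds zero_ne_one)
    obtain ⟨w, hw, hw0⟩ := nd W hW
    have := hall (w⁻¹ * u⁻¹) u hu
    rw [inv_mul_cancel_right₀ hu0] at this
    exact hWU w hw _ this.1 (mul_inv_cancel₀ hw0)
  obtain ⟨V, hV, hVU⟩ := exists_nhds_zero_half hU
  have hG : ⋂ x ∈ X, (· * (u⁻¹ * x)) ⁻¹' A ∈ 𝓝 (0 : D) :=
    (biInter_mem (Set.toFinite X)).2 fun x _ => pre (continuous_mul_const _) (zero_mul _) hA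
  obtain ⟨W, hW, hWV⟩ := hb _ (inter_mem hV hG)
  obtain ⟨w, hw, hw0⟩ := nd W hW
  obtain ⟨N, hN, hlt⟩ := exists_nm A0 An Am prop all hw0 (fun x hx y hy u hu => by
    rw [mul_assoc, add_mul, mul_add]
    exact hVU _ (hWV w hw _ (hx u hu).1).1 _ (hWV w hw _ (hy u hu).1).1) (fun c hc x hx => by
    have := Set.mem_iInter₂.1 (hWV w hw _ (hc u hu).1).2 x hx
    simpa only [Set.mem_preimage, mul_assoc, mul_inv_cancel_left₀ hu0] using this)
  exact hab (hN.comm h hw0 hlt a b)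

end Pool.Agent.MP_8ed1d4_al
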