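import Pool.Agent.MP_8ed1d4_al.Units

set_option autoImplicit false

/-!
Ring norms: general lemmas, and the case where the integers grow slowly.
-/

namespace Pool.Agent.MP_8ed1d4_al

open Finset

/-- A ring seminorm that does not vanish at `1`. -/
structure Nm {R : Type*} [Ring R] (N : R → ℝ) : Prop where
  nn : ∀ x, 0 ≤ N x
  add : ∀ x y, N (x + y) ≤ N x + N y
  mul : ∀ x y, N (x * y) ≤ N x * N y
  neg : ∀ x, N (-x) = N x
  zero : N 0 = 0
  one : 1 ≤ N 1

theorem exists_small {q : ℝ} (h0 : 0 ≤ q) (h1 : q < 1) (C : ℝ) :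
    ∃ k : ℕ, 0 < k ∧ C * (k * q ^ k) < 1 := by
  have h := (tendsto_self_mul_const_pow_of_lt_one h0 h1).const_mul C
  rw [mul_zero] at h
  obtain ⟨k, hk, hk'⟩ := ((h.eventually (gt_mem_nhds one_pos)).and
    (Filter.eventually_gt_atTop 0)).exists
  exact ⟨k, hk', hk⟩

namespace Nm

variable {R : Type*} [Ring R] {N : R → ℝ}

theorem sub (h : Nm N) (x y : R) : N (x - y) ≤ N x + N y := by
  rw [sub_eq_add_neg, ← h.neg y]; exact h.add _ _

theorem mul_le (h : Nm N) {x y : R} {a b : ℝ} (hx : N x ≤ a) (hy : N y ≤ b) :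
    N (x * y) ≤ a * b :=
  (h.mul x y).trans (mul_le_mul hx hy (h.nn y) ((h.nn x).trans hx))

theorem sum (h : Nm N) {ι : Type*} (s : Finset ι) (f : ι → R) :
    N (∑ i ∈ s, f i) ≤ ∑ i ∈ s, N (f i) := by
  classical
  induction s using Finset.induction_on with
  | empty => simp [h.zero]
  | insert j s hj ih =>
    rw [sum_insert hj, sum_insert hj]
    exact (h.add _ _).trans (by linarith)

theorem natmul (h : Nm N) (q : ℕ) (x : R) : N (q * x) ≤ q * N x := by
  induction q with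
  | zero => simp [h.zero]
  | succ q ih =>
    rw [Nat.cast_succ, Nat.cast_succ, add_mul, add_mul, one_mul, one_mul]
    exact (h.add _ _).trans (by linarith)

theorem pow (h : Nm N) {x : R} {b : ℝ} (hx : N x ≤ b) (k : ℕ) : N (x ^ k) ≤ N 1 * b ^ k := by
  induction k with
  | zero => simp
  | succ k ih => rw [pow_succ, pow_succ, ← mul_assoc]; exact h.mul_le ih hx

theorem pow_one_sub (h : Nm N) {x : R} {b : ℝ} (hx : N x ≤ b) (k : ℕ) :
    N ((1 - x) ^ k) ≤ N 1 * (1 + b) ^ k := by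
  induction k with
  | zero => simp
  | succ k ih =>
    rw [pow_succ, mul_sub, mul_one, pow_succ, ← mul_assoc, mul_add, mul_one]
    exact (h.sub _ _).trans (add_le_add ih (h.mul_le ih hx))

theorem digit (h : Nm N) {m : ℕ} {C l : ℝ} (hC : 0 ≤ C) (hl : 1 ≤ l)
    (hm : ∀ i : ℕ, N ((m : R) ^ i) ≤ C * l ^ i) (I : ℕ) :
    ∀ t : ℕ, t < m ^ I → N (t : R) ≤ m * C * (I * l ^ I) := by
  induction I with
  | zero =>
    intro t ht
    have : t = 0 := by simpa using ht
    simp [this, h.zero]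
  | succ I ih =>
    intro t ht
    have hp : 0 < m ^ I := by
      rcases Nat.eq_zero_or_pos m with rfl | h0
      · simp at ht
      · exact pow_pos h0 I
    have hq : t / m ^ I < m := Nat.div_lt_of_lt_mul (by rwa [← pow_succ])
    have e : (t : R) = ((t / m ^ I : ℕ) : R) * (m : R) ^ I + ((t % m ^ I : ℕ) : R) := by
      conv_lhs => rw [← Nat.div_add_mod' t (m ^ I)]
      push_cast
      rfl
    have h1 := ih _ (Nat.mod_lt t hp)
    have h2 := h.natmul (t / m ^ I) ((m : R) ^ I)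
    have h3 : ((t / m ^ I : ℕ) : ℝ) * N ((m : R) ^ I) ≤ m * (C * l ^ I) :=
      mul_le_mul (by exact_mod_cast hq.le) (hm I) (h.nn _) (Nat.cast_nonneg m)
    have h4 : l ^ I ≤ l ^ (I + 1) := pow_le_pow_right₀ hl (Nat.le_succ I)
    have h5 : (m : ℝ) * C * ((I + 1) * l ^ I) ≤ m * C * ((I + 1) * l ^ (I + 1)) := by gcongr
    rw [e]
    refine (h.add _ _).trans ?_
    push_cast
    nlinarith

theorem comp (h : Nm N) {S : Type*} [Ring S] (φ : S →+* R) : Nm fun x => N (φ x) :=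
  ⟨fun _ => h.nn _, fun x y => by rw [map_add]; exact h.add _ _,
    fun x y => by rw [map_mul]; exact h.mul _ _, fun x => by rw [map_neg]; exact h.neg _,
    by rw [map_zero]; exact h.zero, by rw [map_one]; exact h.one⟩

end Nm

section Slow

variable {R : Type*} [Ring R] {N : R → ℝ}

/-- `z` is an integer combination with bounded coefficients of elements of total norm `≤ b`. -/
def Rp (N : R → ℝ) (M : ℕ) (b : ℝ) (z : R) : Prop :=
  ∃ (ι : Type) (_ : Fintype ι) (m : ι → ℤ) (d : ι → R), (∀ i, (m i).natAbs ≤ M) ∧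
    ∑ i, N (d i) ≤ b ∧ ∑ i, (m i : R) * d i = z

theorem Rp.single (m : ℤ) (d : R) : Rp N m.natAbs (N d) (m * d) :=
  ⟨Unit, inferInstance, fun _ => m, fun _ => d, fun _ => le_rfl, by simp, by simp⟩

theorem Rp.mono {M M' : ℕ} {b b' : ℝ} {z : R} (h : Rp N M b z) (hM : M ≤ M') (hb : b ≤ b') :
    Rp N M' b' z := by
  obtain ⟨ι, _, m, d, h1, h2, h3⟩ := h
  exact ⟨ι, inferInstance, m, d, fun i => (h1 i).trans hM, h2.trans hb, h3⟩

theorem Rp.add {M : ℕ} {b b' : ℝ} {z z' : R} (h : Rp N M b z) (h' : Rp N M b' z') :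
    Rp N M (b + b') (z + z') := by
  obtain ⟨ι, _, m, d, h1, h2, h3⟩ := h
  obtain ⟨ι', _, m', d', h1', h2', h3'⟩ := h'
  refine ⟨ι ⊕ ι', inferInstance, Sum.elim m m', Sum.elim d d', ?_, ?_, ?_⟩
  · rintro (i | i)
    · exact h1 i
    · exact h1' i
  · rw [Fintype.sum_sum_type]; exact add_le_add h2 h2'
  · rw [Fintype.sum_sum_type, ← h3, ← h3']; rfl

theorem Rp.mul (hN : Nm N) {M M' : ℕ} {b b' : ℝ} {z z' : R} (h : Rp N M b z)
    (h' : Rp N M' b' z') : Rp N (M * M') (b * b') (z * z') := by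
  obtain ⟨ι, _, m, d, h1, h2, h3⟩ := h
  obtain ⟨ι', _, m', d', h1', h2', h3'⟩ := h'
  refine ⟨ι × ι', inferInstance, fun p => m p.1 * m' p.2, fun p => d p.1 * d' p.2, ?_, ?_, ?_⟩
  · intro p
    rw [Int.natAbs_mul]
    exact Nat.mul_le_mul (h1 _) (h1' _)
  · have h0 : 0 ≤ ∑ i, N (d i) := sum_nonneg fun i _ => hN.nn _
    refine le_trans ?_ (mul_le_mul h2 h2' (sum_nonneg fun i _ => hN.nn _) (h0.trans h2))
    rw [sum_mul_sum, Fintype.sum_prod_type]
    exact sum_le_sum fun i _ => sum_le_sum fun j _ => hN.mul _ _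
  · rw [← h3, ← h3', sum_mul_sum, Fintype.sum_prod_type]
    refine sum_congr rfl fun i _ => sum_congr rfl fun j _ => ?_
    rw [Int.cast_mul, mul_assoc, mul_assoc, ← mul_assoc (d i), ← mul_assoc (m' j : R),
      Int.cast_comm (m' j) (d i)]

theorem Rp.bound (hN : Nm N) {M : ℕ} {b c : ℝ} {z : R} (h : Rp N M b z)
    (hc : ∀ t : ℕ, t ≤ M → N (t : R) ≤ c) : N z ≤ c * b := by
  obtain ⟨ι, _, m, d, h1, h2, h3⟩ := h
  have c0 : 0 ≤ c := (hN.nn _).trans (hc 0 (Nat.zero_le M))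
  rw [← h3]
  refine (hN.sum _ _).trans (le_trans ?_ (mul_le_mul_of_nonneg_left h2 c0))
  rw [mul_sum]
  refine sum_le_sum fun i _ => hN.mul_le ?_ le_rfl
  have := hc _ (h1 i)
  rcases Int.natAbs_eq (m i) with e | e
  · rw [e, Int.cast_natCast]; exact this
  · rw [e, Int.cast_neg, Int.cast_natCast, hN.neg]; exact this

theorem Rp.not_one (hN : Nm N) (hs : ∀ θ : ℝ, 1 < θ → ∃ k : ℕ, 0 < k ∧ N (2 ^ k) < θ ^ k)
    {M : ℕ} (h : Rp N M (1 / 2) 1) : False := by
  have hp : ∀ k : ℕ, Rp N (M ^ k) (N 1 * (1 / 2) ^ k) 1 := by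
    intro k
    induction k with
    | zero => simpa using Rp.single (N := N) 1 (1 : R)
    | succ k ih =>
      have := ih.mul hN h
      rwa [mul_one, mul_assoc, ← pow_succ, ← pow_succ] at this
  have hJ : M < 2 ^ (M + 1) := (Nat.lt_succ_self M).trans Nat.lt_two_pow_self
  obtain ⟨θ, hθ, hθJ⟩ : ∃ θ : ℝ, 1 < θ ∧ θ ^ (M + 1) = 3 / 2 :=
    ⟨(3 / 2 : ℝ) ^ (((M + 1 : ℕ) : ℝ)⁻¹), Real.one_lt_rpow (by norm_num) (by positivity),
      Real.rpow_inv_natCast_pow (by norm_num) (Nat.succ_ne_zero M)⟩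
  obtain ⟨k0, hk0, hk⟩ := hs θ hθ
  have A0 : 0 ≤ N 1 := hN.nn 1
  have hd := hN.digit (m := 2 ^ k0) A0 (one_le_pow₀ hθ.le : 1 ≤ θ ^ k0)
    (fun i => by push_cast; exact hN.pow hk.le i)
  obtain ⟨k, hk1, hk2⟩ := exists_small (q := 3 / 4) (by norm_num) (by norm_num)
    ((2 ^ k0 : ℕ) * N 1 * (M + 1) * N 1)
  have h1 := (hp (k0 * k)).bound hN (fun t ht => hd ((M + 1) * k) t (by
    refine ht.trans_lt ((Nat.pow_lt_pow_left hJ (by positivity)).trans_eq ?_)
    rw [← pow_mul, ← pow_mul]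
    congr 1
    ring))
  have h2 : (θ ^ k0) ^ ((M + 1) * k) * (1 / 2) ^ (k0 * k) = ((3 / 4 : ℝ) ^ k) ^ k0 := by
    rw [← pow_mul, show k0 * ((M + 1) * k) = (M + 1) * (k0 * k) by ring, pow_mul, hθJ, ← mul_pow,
      ← pow_mul, mul_comm k k0]
    norm_num
  have h3 : ((3 / 4 : ℝ) ^ k) ^ k0 ≤ (3 / 4) ^ k :=
    pow_le_of_le_one (by positivity) (pow_le_one₀ (by norm_num) (by norm_num)) hk0.ne'
  have h4 : ((2 ^ k0 : ℕ) : ℝ) * N 1 * ((((M + 1) * k : ℕ) : ℝ) * (θ ^ k0) ^ ((M + 1) * k)) *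
      (N 1 * (1 / 2) ^ (k0 * k)) =
      (2 ^ k0 : ℕ) * N 1 * (M + 1) * N 1 * (k * ((3 / 4 : ℝ) ^ k) ^ k0) := by
    rw [← h2]; push_cast; ring
  have h5 : ((2 ^ k0 : ℕ) : ℝ) * N 1 * (M + 1) * N 1 * (k * ((3 / 4 : ℝ) ^ k) ^ k0) ≤
      (2 ^ k0 : ℕ) * N 1 * (M + 1) * N 1 * (k * (3 / 4 : ℝ) ^ k) := by gcongr
  have := hN.one
  linarith

/-- Integer combinations of nonempty words of bounded length in four letters. -/
def II (x : Fin 4 → R) : ℕ → R → Prop
  | 0, z => z = 0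
  | l + 1, z => ∃ (m : Fin 4 → ℤ) (d : Fin 4 → R), (∀ a, II x l (d a)) ∧
      z = ∑ a, x a * (m a + d a)

variable {x : Fin 4 → R}

theorem II.zero (l : ℕ) : II x l 0 := by
  induction l with
  | zero => rfl
  | succ l ih => exact ⟨0, 0, fun _ => ih, by simp⟩

theorem II.sub (l : ℕ) : ∀ {z z' : R}, II x l z → II x l z' → II x l (z - z') := by
  induction l with
  | zero =>
    intro z z' h h'
    change z - z' = 0
    rw [show z = 0 from h, show z' = 0 from h', sub_zero]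
  | succ l ih =>
    rintro _ _ ⟨m, d, h, rfl⟩ ⟨m', d', h', rfl⟩
    refine ⟨m - m', d - d', fun a => ih (h a) (h' a), ?_⟩
    rw [← sum_sub_distrib]
    refine sum_congr rfl fun a _ => ?_
    rw [← mul_sub, Pi.sub_apply, Pi.sub_apply, Int.cast_sub]
    congr 1
    abel

theorem II.succ (l : ℕ) : ∀ {z : R}, II x l z → II x (l + 1) z := by
  induction l with
  | zero => intro z h; rw [show z = 0 from h]; exact II.zero _
  | succ l ih =>
    rintro _ ⟨m, d, h, rfl⟩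
    exact ⟨m, d, fun a => ih (h a), rfl⟩

theorem II.mono {l l' : ℕ} (hl : l ≤ l') {z : R} (h : II x l z) : II x l' z := by
  induction hl with
  | refl => exact h
  | step _ ih => exact II.succ _ ih

theorem II.left {l : ℕ} {z : R} (h : II x l z) (m : ℤ) (a : Fin 4) :
    II x (l + 1) (x a * (m + z)) := by
  refine ⟨Pi.single a m, Pi.single a z, fun b => ?_, ?_⟩
  · by_cases e : b = a
    · rw [e, Pi.single_eq_same]; exact h
    · rw [Pi.single_eq_of_ne e]; exact II.zero _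
  · rw [sum_eq_single a (fun b _ e => by simp [Pi.single_eq_of_ne e]) (by simp)]
    simp

theorem II.rp (hN : Nm N) (hx : ∀ a, N (x a) ≤ 1 / 12) (l : ℕ) :
    ∀ {z : R}, II x l z → ∃ M, Rp N M (1 / 2) z := by
  induction l with
  | zero =>
    intro z h
    rw [show z = 0 from h]
    exact ⟨_, by simpa using (Rp.single (N := N) 0 (0 : R)).mono le_rfl (by
      rw [hN.zero]; norm_num : N 0 ≤ 1 / 2)⟩
  | succ l ih =>
    rintro _ ⟨m, d, h, rfl⟩
    have h1 : ∀ a, ∃ M, Rp N M (1 / 8) (x a * (m a + d a)) := by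
      intro a
      obtain ⟨M, hM⟩ := ih (h a)
      have h2 := (Rp.single (N := N) 1 (x a)).mul hN hM
      have h3 := ((Rp.single (N := N) (m a) (x a)).mono (le_max_left _ _) le_rfl).add
        (h2.mono (le_max_right _ _) le_rfl)
      rw [Int.cast_one, one_mul, Int.cast_comm, ← mul_add] at h3
      exact ⟨_, h3.mono le_rfl (by have := hx a; linarith)⟩
    choose M hM using h1
    have h2 : ∀ a, Rp N (∑ b, M b) (1 / 8) (x a * (m a + d a)) := fun a =>
      (hM a).mono (single_le_sum (fun _ _ => Nat.zero_le _) (mem_univ a)) le_rfl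
    refine ⟨∑ b, M b, ?_⟩
    rw [Fin.sum_univ_four (f := fun a => x a * (m a + d a))]
    exact ((((h2 0).add (h2 1)).add (h2 2)).add (h2 3)).mono le_rfl (by norm_num)

/-- The elements that keep the ring without unit generated by the letters stable. -/
def stab (x : Fin 4 → R) : Subring R where
  carrier := {w | ∀ l z, II x l z → ∃ l', II x l' (w * z)}
  mul_mem' := fun {a b} ha hb l z h => by
    obtain ⟨l', h'⟩ := hb l z h
    rw [mul_assoc]
    exact ha l' _ h'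
  one_mem' := fun l z h => ⟨l, by rwa [one_mul]⟩
  add_mem' := fun {a b} ha hb l z h => by
    obtain ⟨l1, h1⟩ := ha l z h
    obtain ⟨l2, h2⟩ := hb l z h
    have := II.sub _ (h1.mono (le_max_left l1 l2))
      (II.sub _ (II.zero _) (h2.mono (le_max_right l1 l2)))
    exact ⟨_, by rwa [zero_sub, sub_neg_eq_add, ← add_mul] at this⟩
  zero_mem' := fun l z _ => ⟨0, zero_mul z⟩
  neg_mem' := fun {a} ha l z h => by
    obtain ⟨l1, h1⟩ := ha l z h
    have := II.sub _ (II.zero _) h1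
    exact ⟨_, by rwa [zero_sub, ← neg_mul] at this⟩

theorem mem_stab (a : Fin 4) : x a ∈ stab x := fun l z h =>
  ⟨l + 1, by simpa using h.left 0 a⟩

theorem not_inv_mem_stab (hN : Nm N)
    (hs : ∀ θ : ℝ, 1 < θ → ∃ k : ℕ, 0 < k ∧ N (2 ^ k) < θ ^ k) (hx : ∀ a, N (x a) ≤ 1 / 12)
    {w : R} (hw : w ∈ stab x) (a : Fin 4) : w * x a ≠ 1 := by
  intro e
  obtain ⟨l, h⟩ := hw 1 (x a) (by simpa using (II.zero (x := x) 0).left 1 a)
  rw [e] at h
  obtain ⟨M, hM⟩ := II.rp hN hx l h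
  exact hM.not_one hN hs

end Slow

end Pool.Agent.MP_8ed1d4_al
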