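import Pool.Agent.MP_8ed1d4_al.Normed

set_option autoImplicit false

/-!
Ring norms: the case where the powers of two grow exponentially, and the theorem.
-/

namespace Pool.Agent.MP_8ed1d4_al

open Finset Polynomial

universe u v

namespace Nm

variable {R : Type*} [CommRing R] {N : R → ℝ}

theorem prod (h : Nm N) {ι : Type*} (s : Finset ι) (y : ι → R) {b : ℝ} (hy : ∀ i, N (y i) ≤ b) :
    N (∏ i ∈ s, y i) ≤ N 1 * b ^ s.card := by
  classical
  induction s using Finset.induction_on with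
  | empty => simp
  | insert j s hj ih =>
    rw [prod_insert hj, card_insert_of_notMem hj, pow_succ, mul_comm (y j), ← mul_assoc]
    exact h.mul_le ih (hy j)

theorem det (h : Nm N) {ι : Type} [Fintype ι] [DecidableEq ι] (A : Matrix ι ι R) {b : ℝ}
    (hA : ∀ i j, N (A i j) ≤ b) :
    N A.det ≤ Fintype.card (Equiv.Perm ι) * (N 1 * b ^ Fintype.card ι) := by
  rw [Matrix.det_apply', ← nsmul_eq_mul, ← card_univ, ← sum_const]
  refine (h.sum _ _).trans (sum_le_sum fun σ _ => ?_)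
  have := h.prod univ (fun i => A (σ i) i) (fun i => hA _ _)
  rcases Int.units_eq_one_or (Equiv.Perm.sign σ) with e | e
  · simpa [e] using this
  · simpa [e, h.neg] using this

theorem diff (h : Nm N) {d e : R} {C a b : ℝ} (hd : ∀ k, N (d ^ k) ≤ C * a ^ k)
    (he : ∀ k, N (e ^ k) ≤ C * b ^ k) (k : ℕ) :
    ∀ i j : ℕ, N ((e - d) ^ k * (e ^ i * d ^ j)) ≤ C * C * (b ^ i * a ^ j) * (a + b) ^ k := by
  induction k with
  | zero =>
    intro i j
    rw [pow_zero, pow_zero, one_mul, mul_one]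
    exact (h.mul_le (he i) (hd j)).trans_eq (by ring)
  | succ k ih =>
    intro i j
    have e1 : (e - d) ^ (k + 1) * (e ^ i * d ^ j) =
        (e - d) ^ k * (e ^ (i + 1) * d ^ j) - (e - d) ^ k * (e ^ i * d ^ (j + 1)) := by ring
    rw [e1]
    exact ((h.sub _ _).trans (add_le_add (ih _ _) (ih _ _))).trans_eq (by ring)

end Nm

variable {D : Type v} [DivisionRing D] {F : Type u} [Field F] [Algebra F D] {N : D → ℝ}

/-- Coordinates with respect to an independent family are bounded. -/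
theorem coord_bound (hN : Nm N)
    (hc : ∀ x : D, (∀ y, x * y = y * x) → ∃ f : F, algebraMap F D f = x) {ι : Type} [Fintype ι]
    [DecidableEq ι] (b : ι → D) (hb : LinearIndependent F b) :
    ∃ C : ℝ, 0 ≤ C ∧ ∀ (φ : ι → F) (i : ι), N (algebraMap F D (φ i)) ≤ C * N (∑ j, φ j • b j) := by
  let Z : Submodule Dᵐᵒᵖ (ι → D) :=
    { carrier := {β | ∃ C : ℝ, 0 ≤ C ∧ ∀ φ : ι → F, N (∑ j, φ j • β j) ≤ C * N (∑ j, φ j • b j)}
      add_mem' := by
        rintro β β' ⟨C, h0, hC⟩ ⟨C', h0', hC'⟩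
        refine ⟨C + C', add_nonneg h0 h0', fun φ => ?_⟩
        simp only [Pi.add_apply, smul_add, sum_add_distrib, add_mul]
        exact (hN.add _ _).trans (add_le_add (hC φ) (hC' φ))
      zero_mem' := ⟨0, le_rfl, fun φ => by simp [hN.zero]⟩
      smul_mem' := by
        rintro c β ⟨C, h0, hC⟩
        refine ⟨C * N c.unop, mul_nonneg h0 (hN.nn _), fun φ => ?_⟩
        have e : ∑ j, φ j • (c • β) j = (∑ j, φ j • β j) * c.unop := by
          rw [sum_mul]
          exact sum_congr rfl fun j _ => by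
            rw [Pi.smul_apply, smul_mul_assoc, MulOpposite.smul_eq_mul_unop]
        rw [e]
        exact (hN.mul_le (hC φ) le_rfl).trans_eq (by ring) }
  have hZ : Z = ⊤ := by
    by_contra hne
    obtain ⟨f, hf, hker⟩ := Submodule.exists_le_ker_of_lt_top Z (lt_top_iff_ne_top.2 hne)
    have ef : ∀ β : ι → D, (f β).unop = ∑ j, (f (Pi.single j 1)).unop * β j := by
      intro β
      have e : β = ∑ j, MulOpposite.op (β j) • (Pi.single j 1 : ι → D) := by
        ext i
        rw [Finset.sum_apply, sum_eq_single i (fun j _ e => by simp [Pi.single_eq_of_ne e.symm])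
          (by simp)]
        simp
      conv_lhs => rw [e]
      rw [map_sum, Finset.unop_sum]
      exact sum_congr rfl fun j _ => by
        rw [map_smul, smul_eq_mul, MulOpposite.unop_mul, MulOpposite.unop_op]
    have h0 := martindale (F := F) (⊤ : Subring D) (fun z hz => hc z fun y => hz y trivial) b hb
      univ (fun j => (f (Pi.single j 1)).unop) (fun v _ => by
        have h1 : (fun j => v * b j) ∈ Z := ⟨N v, hN.nn v, fun φ => by
          have e : ∑ j, φ j • (v * b j) = v * ∑ j, φ j • b j := by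
            rw [mul_sum]
            exact sum_congr rfl fun j _ => (mul_smul_comm _ _ _).symm
          rw [e]
          exact hN.mul _ _⟩
        have h2 := ef fun j => v * b j
        rw [show f (fun j => v * b j) = 0 from hker h1] at h2
        simpa [mul_assoc] using h2.symm)
    refine hf (LinearMap.ext fun β => MulOpposite.unop_injective ?_)
    rw [ef]
    exact sum_eq_zero fun j _ => by rw [h0 j (mem_univ j), zero_mul]
  have h1 : ∀ i, ∃ C : ℝ, 0 ≤ C ∧ ∀ φ : ι → F,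
      N (algebraMap F D (φ i)) ≤ C * N (∑ j, φ j • b j) := by
    intro i
    obtain ⟨C, h0, hC⟩ : (Pi.single i 1 : ι → D) ∈ Z := hZ ▸ Submodule.mem_top
    refine ⟨C, h0, fun φ => le_trans (le_of_eq ?_) (hC φ)⟩
    rw [sum_eq_single i (fun j _ e => by simp [Pi.single_eq_of_ne e]) (by simp),
      Pi.single_eq_same, Algebra.algebraMap_eq_smul_one]
  choose C h0 hC using h1
  exact ⟨∑ i, C i, sum_nonneg fun i _ => h0 i, fun φ i => (hC i φ).trans
    (mul_le_mul_of_nonneg_right (single_le_sum (fun j _ => h0 j) (mem_univ i)) (hN.nn _))⟩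

/-- The field norm is bounded by the ring norm to the power of the degree. -/
theorem norm_bound (hN : Nm N)
    (hc : ∀ x : D, (∀ y, x * y = y * x) → ∃ f : F, algebraMap F D f = x) {K : Type*} [Field K]
    [Algebra F K] (j : K →ₐ[F] D) {n : ℕ} (B : Module.Basis (Fin n) F K) :
    ∃ C : ℝ, 0 ≤ C ∧ ∀ w : K, N (algebraMap F D (Algebra.norm F w)) ≤ C * N (j w) ^ n := by
  obtain ⟨C, h0, hC⟩ := coord_bound hN hc (fun i => j (B i))
    (B.linearIndependent.map' j.toLinearMap (LinearMap.ker_eq_bot.2 j.toRingHom.injective))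
  have h1 : ∀ (w : K) (i : Fin n), N (algebraMap F D (B.repr w i)) ≤ C * N (j w) := by
    intro w i
    have := hC (B.repr w) i
    simp only [← map_smul, ← map_sum] at this
    rwa [B.sum_repr] at this
  obtain ⟨S, hS⟩ : ∃ S, S = ∑ i, N (j (B i)) := ⟨_, rfl⟩
  have S0 : 0 ≤ S := hS ▸ sum_nonneg fun i _ => hN.nn _
  have A0 := hN.nn 1
  refine ⟨Fintype.card (Equiv.Perm (Fin n)) * (N 1 * (C * S) ^ n), by positivity, fun w => ?_⟩
  have h2 := (hN.comp (algebraMap F D)).det (Algebra.leftMulMatrix B w) (b := C * S * N (j w))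
    (fun i i' => by
      rw [Algebra.leftMulMatrix_eq_repr_mul]
      refine (h1 _ i).trans ?_
      rw [map_mul, mul_assoc, mul_comm S]
      exact mul_le_mul_of_nonneg_left (hN.mul_le le_rfl
        (hS ▸ single_le_sum (f := fun i => N (j (B i))) (fun i _ => hN.nn _) (mem_univ i'))) h0)
  rw [Algebra.norm_eq_matrix_det B]
  simp only [map_one, Fintype.card_fin] at h2
  exact h2.trans_eq (by ring)

theorem norm_sub_gen {K : Type*} [Field K] [Algebra F K] (pb : PowerBasis F K) (c : F) :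
    Algebra.norm F (algebraMap F K c - pb.gen) = (minpoly F pb.gen).eval c := by
  rw [Algebra.norm_eq_matrix_det pb.basis, ← charpoly_leftMulMatrix pb, Matrix.eval_charpoly,
    map_sub, AlgHom.commutes]
  rfl

/-- If the powers of two grow fast, a radical element near `1` is central. -/
theorem Hyp.central_of_near (H : Hyp F D) (hN : Nm N) {θ η : ℝ} (hθ : (1 + 2 * η) ^ 2 < θ)
    (hf : ∀ k : ℕ, 0 < k → θ ^ k ≤ N (2 ^ k)) {g : D} (hg : N (g - 1) ≤ η) {m : ℕ} (hm : 0 < m)
    {f0 : F} (h0 : g ^ m = algebraMap F D f0) : ∃ f : F, algebraMap F D f = g := by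
  by_contra hr
  obtain ⟨n, f, hn, -, -, hint, hmin⟩ := H.minpoly_radical hr hm h0
  obtain ⟨E, _, _, ι, hι⟩ := exists_field F ({g} : Set D) (by
    rintro a rfl b rfl; exact Commute.refl _)
  obtain ⟨e, rfl⟩ := hι g rfl
  have inj : Function.Injective ι := ι.toRingHom.injective
  rw [minpoly.algHom_eq ι inj] at hmin
  have hint' : IsIntegral F e := (isIntegral_algHom_iff ι inj).1 hint
  let pb := IntermediateField.adjoin.powerBasis hint'
  have hdim : pb.dim = n := by
    change (minpoly F e).natDegree = n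
    rw [hmin, natDegree_X_pow_sub_C]
  have hmp : minpoly F pb.gen = X ^ n - C f := (IntermediateField.minpoly_gen F e).trans hmin
  obtain ⟨C, C0, hC⟩ := norm_bound hN H.cen (ι.comp (IntermediateField.val _)) pb.basis
  rw [hdim] at hC
  have η0 : 0 ≤ η := (hN.nn _).trans hg
  have A0 := hN.nn 1
  have hN' := hN.comp (algebraMap F D)
  have key : ∀ (c : F) (β : ℝ), 0 ≤ β →
      (∀ k, N ((algebraMap F D c - ι e) ^ k) ≤ N 1 * β ^ k) →
      ∀ k, N (algebraMap F D ((c ^ n - f) ^ k)) ≤ C * N 1 ^ n * (β ^ n) ^ k := by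
    intro c β hβ hk k
    have h1 := hC ((algebraMap F _ c - pb.gen) ^ k)
    rw [map_pow, norm_sub_gen, hmp, map_pow (ι.comp _), map_sub, AlgHom.commutes] at h1
    simp only [eval_sub, eval_pow, eval_X, eval_C] at h1
    refine h1.trans ((mul_le_mul_of_nonneg_left (pow_le_pow_left₀ (hN.nn _) (hk k) n) C0).trans_eq
      ?_)
    rw [mul_pow, ← pow_mul, ← pow_mul, mul_comm k n, mul_assoc]
  have h1 := key 1 η η0 (fun k => hN.pow (by rw [map_one, ← neg_sub, hN.neg]; exact hg) k)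
  have h2 := key 2 (1 + η) (by linarith) (fun k => by
    have e2 : algebraMap F D 2 - ι e = 1 - (ι e - 1) := by
      rw [map_ofNat, ← one_add_one_eq_two]; abel
    rw [e2]
    exact hN.pow_one_sub hg k)
  obtain ⟨C', hC'⟩ : ∃ C', C' = C * N 1 ^ n := ⟨_, rfl⟩
  have C'0 : 0 ≤ C' := by rw [hC']; positivity
  rw [← hC'] at h1 h2
  have hp : 4 ≤ 2 ^ n := by
    calc 4 = 2 ^ 2 := rfl
      _ ≤ 2 ^ n := Nat.pow_le_pow_right two_pos hn
  obtain ⟨μ, hμ⟩ : ∃ μ : ℕ, 2 ^ n = μ + 1 := ⟨2 ^ n - 1, by omega⟩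
  have l1 : 1 ≤ (1 + 2 * η) ^ n := one_le_pow₀ (by linarith)
  have h3 : ∀ i : ℕ, N ((μ : D) ^ i) ≤ C' * C' * ((1 + 2 * η) ^ n) ^ i := by
    intro i
    have h4 := hN'.diff h1 h2 i 0 0
    have e1 : (2 ^ n - f - (1 ^ n - f) : F) = μ := by
      have := congrArg (Nat.cast : ℕ → F) hμ
      push_cast at this
      rw [this]; ring
    simp only [e1, pow_zero, mul_one, map_pow, map_natCast] at h4
    refine h4.trans (mul_le_mul_of_nonneg_left (pow_le_pow_left₀ (by positivity) ?_ i)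
      (by positivity))
    exact (pow_add_pow_le η0 (by linarith) (by omega)).trans_eq (by congr 1; ring)
  have θ0 : 0 < θ := lt_of_le_of_lt (by positivity) hθ
  obtain ⟨q, hq⟩ : ∃ q, q = ((1 + 2 * η) ^ 2 / θ) ^ n := ⟨_, rfl⟩
  obtain ⟨I, hI, hs⟩ := exists_small (q := q) (by rw [hq]; positivity)
    (hq ▸ pow_lt_one₀ (by positivity) ((div_lt_one θ0).2 hθ) (by omega)) (μ * (C' * C') * 2)
  have h5 := hN.digit (mul_nonneg C'0 C'0) l1 h3 (2 * I) (2 ^ (n * I)) (by
    rw [pow_mul, pow_mul]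
    exact Nat.pow_lt_pow_left (by nlinarith) hI.ne')
  have h6 := hf (n * I) (by positivity)
  push_cast at h5
  have e2 : ((1 + 2 * η) ^ n) ^ (2 * I) = q ^ I * θ ^ (n * I) := by
    rw [hq, ← pow_mul (_ / θ), ← mul_pow, div_mul_cancel₀ _ θ0.ne', ← pow_mul, ← pow_mul]
    congr 1
    ring
  rw [e2] at h5
  have h7 : 0 < θ ^ (n * I) := pow_pos θ0 _
  nlinarith

theorem Nm.inv_near (hN : Nm N) {s : D} {ε : ℝ} (hs : N s ≤ ε) (hε : ε ≤ 1 / 2) :
    1 + s ≠ 0 ∧ N ((1 + s)⁻¹ - 1) ≤ 2 * ε := by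
  have h0 : 1 + s ≠ 0 := fun e => by
    have := hN.one
    rw [eq_neg_of_add_eq_zero_left e, hN.neg] at this
    linarith
  refine ⟨h0, ?_⟩
  have e : (1 + s)⁻¹ - 1 = -s - s * ((1 + s)⁻¹ - 1) := by
    have := mul_inv_cancel₀ h0
    rw [add_mul, one_mul] at this
    rw [mul_sub, mul_one, eq_sub_of_add_eq' this]
    abel
  have h1 := hN.sub (-s) (s * ((1 + s)⁻¹ - 1))
  rw [← e, hN.neg] at h1
  have h2 := hN.mul_le (hs.trans hε) (le_refl (N ((1 + s)⁻¹ - 1)))
  linarith

theorem Nm.small_pair (hN : Nm N) {s0 : D} (h0 : s0 ≠ 0) (h1 : N s0 < 1) {a b : D}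
    (hab : a * b ≠ b * a) {ε : ℝ} (hε : 0 < ε) :
    ∃ s r : D, N s ≤ ε ∧ N r ≤ ε ∧ s * r ≠ r * s := by
  have ha := hN.nn a
  have hb := hN.nn b
  have A0 := hN.one
  obtain ⟨k, hk⟩ := exists_pow_lt_of_lt_one
    (show 0 < ε / (N 1 * (1 + N a + N b)) by positivity) h1
  have h2 := hN.pow (le_refl (N s0)) k
  have hs : s0 ^ k ≠ 0 := pow_ne_zero k h0
  generalize s0 ^ k = s at h2 hs
  have h3 : N s * (1 + N a + N b) ≤ ε := by
    rw [lt_div_iff₀ (by positivity)] at hk
    have : N s * (1 + N a + N b) ≤ N 1 * N s0 ^ k * (1 + N a + N b) := by gcongr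
    nlinarith
  have s0 := hN.nn s
  have h4 := hN.mul s a
  have h5 := hN.mul s b
  have h6 := mul_nonneg s0 ha
  have h7 := mul_nonneg s0 hb
  by_contra hc
  push Not at hc
  have e1 : s * a = a * s := mul_left_cancel₀ hs
    ((hc s (s * a) (by linarith) (by linarith)).trans (mul_assoc _ _ _))
  have e2 : s * b = b * s := mul_left_cancel₀ hs
    ((hc s (s * b) (by linarith) (by linarith)).trans (mul_assoc _ _ _))
  have e3 := hc (s * a) (s * b) (by linarith) (by linarith)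
  rw [mul_assoc, mul_assoc, ← mul_assoc a, ← mul_assoc b, ← e1, ← e2, mul_assoc, mul_assoc] at e3
  exact hab (mul_left_cancel₀ hs (mul_left_cancel₀ hs e3))

/-- The conjecture of Herstein for a division ring with a ring norm that is not discrete. -/
theorem Nm.comm (hN : Nm N)
    (h : ∀ x y : D, x ≠ 0 → y ≠ 0 →
      ∃ n : ℕ, 0 < n ∧ (x * y * x⁻¹ * y⁻¹) ^ n ∈ Subring.center D)
    {s0 : D} (h0 : s0 ≠ 0) (h1 : N s0 < 1) (a b : D) : a * b = b * a := by
  by_contra hab
  have hne : ∀ {s r : D}, s * r ≠ r * s → (1 + s) * (1 + r) ≠ (1 + r) * (1 + s) := by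
    intro s r hsr e
    apply hsr
    have e1 : s * r - r * s = (1 + s) * (1 + r) - (1 + r) * (1 + s) := by noncomm_ring
    rwa [e, sub_self, sub_eq_zero] at e1
  by_cases hs : ∀ θ : ℝ, 1 < θ → ∃ k : ℕ, 0 < k ∧ N (2 ^ k) < θ ^ k
  · obtain ⟨s, r, hs1, hr1, hsr⟩ := hN.small_pair h0 h1 hab (ε := 1 / 24) (by norm_num)
    have h2 := (hN.inv_near hs1 (by norm_num)).2
    have h3 := (hN.inv_near hr1 (by norm_num)).2
    let x : Fin 4 → D := ![s, (1 + s)⁻¹ - 1, r, (1 + r)⁻¹ - 1]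
    have hx : ∀ i, N (x i) ≤ 1 / 12 := by
      intro i
      fin_cases i
      · exact hs1.trans (by norm_num)
      · exact h2.trans (by norm_num)
      · exact hr1.trans (by norm_num)
      · exact h3.trans (by norm_num)
    have hm : ∀ i, 1 + x i ∈ stab x := fun i => (stab x).add_mem (stab x).one_mem (mem_stab i)
    have h4 := inv_mem_of_units h (stab x) (u := 1 + s) (v := 1 + r) (hm 0)
      (by simpa [x] using hm 1) (hm 2) (by simpa [x] using hm 3) (hne hsr) (mem_stab 0)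
    exact not_inv_mem_stab hN hs hx h4 0 (inv_mul_cancel₀ fun e => hsr (by
      rw [show s = 0 from e]; simp))
  · push Not at hs
    obtain ⟨θ, hθ, hf⟩ := hs
    have H := hyp_center h
    have A0 := hN.one
    obtain ⟨η, η0, η1, η2⟩ : ∃ η : ℝ, 0 < η ∧ η ≤ 1 ∧ η ≤ (θ - 1) / 9 :=
      ⟨min 1 ((θ - 1) / 9), lt_min one_pos (by linarith), min_le_left _ _, min_le_right _ _⟩
    obtain ⟨ε, ε0, ε1, ε2⟩ : ∃ ε : ℝ, 0 < ε ∧ ε ≤ 1 / 2 ∧ ε ≤ η / (N 1 + 1) ^ 2 :=
      ⟨min (1 / 2) (η / (N 1 + 1) ^ 2), lt_min (by norm_num) (by positivity), min_le_left _ _,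
        min_le_right _ _⟩
    obtain ⟨s, r, hs1, hr1, hsr⟩ := hN.small_pair h0 h1 hab ε0
    obtain ⟨u0, h2⟩ := hN.inv_near hs1 ε1
    obtain ⟨v0, h3⟩ := hN.inv_near hr1 ε1
    have hi : ∀ w : D, N (w - 1) ≤ 2 * ε → N w ≤ N 1 + 1 := fun w hw => by
      have := hN.add 1 (w - 1)
      rw [add_sub_cancel] at this
      linarith
    have e1 : (1 + s) * (1 + r) * (1 + s)⁻¹ * (1 + r)⁻¹ - 1 =
        (s * r - r * s) * (1 + s)⁻¹ * (1 + r)⁻¹ := by
      have e2 : s * r - r * s = (1 + s) * (1 + r) - (1 + r) * (1 + s) := by noncomm_ring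
      rw [e2, sub_mul, sub_mul, mul_inv_cancel_right₀ u0, mul_inv_cancel₀ v0]
    have h4 : N (s * r - r * s) ≤ ε :=
      (hN.sub _ _).trans ((add_le_add (hN.mul_le hs1 (hr1.trans ε1))
        (hN.mul_le hr1 (hs1.trans ε1))).trans_eq (by ring))
    have h5 := hN.mul_le (hN.mul_le h4 (hi _ h2)) (hi _ h3)
    rw [le_div_iff₀ (by positivity)] at ε2
    obtain ⟨m, hm, f0, hf0⟩ := H.rad _ _ u0 v0
    obtain ⟨f, hf1⟩ := H.central_of_near hN (η := η) (by nlinarith) hf
      (by rw [e1]; exact h5.trans (by nlinarith)) hm hf0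
    have h6 : (1 + s) * (1 + r) * (1 + s)⁻¹ = algebraMap _ D f * (1 + r) := by
      rw [hf1, inv_mul_cancel_right₀ v0]
    have h7 := H.eq_of_commute (x := 1 + r) (x' := (1 + s) * (1 + r) * (1 + s)⁻¹) ⟨_, u0, rfl⟩ (by
      rw [h6]
      exact (Algebra.commute_algebraMap_right f _).mul_right (Commute.refl _))
    exact hne hsr ((mul_inv_eq_iff_eq_mul₀ u0).1 h7)

end Pool.Agent.MP_8ed1d4_al
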