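import Pool.Agent.MP_8ed1d4_al.LocBdd

set_option autoImplicit false

/-!
Two consequences: ring norms, and positive definite involutions.
-/

namespace Pool.Agent.MP_8ed1d4_al

universe v

variable {D : Type v} [DivisionRing D]

theorem comm_of_ringNorm (N : RingNorm D) {s : D} (hs : s ≠ 0) (h1 : N s < 1)
    (h : ∀ x y : D, x ≠ 0 → y ≠ 0 →
      ∃ n : ℕ, 0 < n ∧ (x * y * x⁻¹ * y⁻¹) ^ n ∈ Subring.center D) (a b : D) :
    a * b = b * a := by
  have h0 : 0 < N 1 := map_pos_of_ne_zero N one_ne_zero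
  have h2 := map_mul_le_mul N 1 1
  rw [mul_one] at h2
  exact Nm.comm (N := N) ⟨apply_nonneg N, map_add_le_add N, map_mul_le_mul N,
    map_neg_eq_map N, map_zero N, by nlinarith⟩ h hs h1 a b

section Pos

variable [StarRing D]

/-- Sums of hermitian squares. -/
def Sq (D : Type v) [DivisionRing D] [StarRing D] : AddSubmonoid D :=
  AddSubmonoid.closure (Set.range fun d : D => star d * d)

theorem sq_mem (d : D) : star d * d ∈ Sq D := AddSubmonoid.subset_closure ⟨d, rfl⟩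

theorem Sq.conj {t : D} (ht : t ∈ Sq D) (d : D) : star d * t * d ∈ Sq D := by
  induction ht using AddSubmonoid.closure_induction with
  | mem x hx =>
    obtain ⟨e, rfl⟩ := hx
    have := sq_mem (e * d)
    rwa [star_mul, mul_assoc, ← mul_assoc (star e), ← mul_assoc] at this
  | zero => simp
  | add x y _ _ hx hy => rw [mul_add, add_mul]; exact add_mem hx hy

theorem Sq.one : (1 : D) ∈ Sq D := by simpa using sq_mem (1 : D)

theorem Sq.charZero (hp : (-1 : D) ∉ Sq D) : CharZero D := by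
  refine charZero_of_inj_zero fun n hn => ?_
  by_contra h0
  obtain ⟨m, rfl⟩ := Nat.exists_eq_succ_of_ne_zero h0
  rw [Nat.cast_succ] at hn
  exact hp (by simpa [eq_neg_of_add_eq_zero_left hn] using nsmul_mem (Sq.one (D := D)) m)

variable [CharZero D]

theorem Sq.smul {t : D} (ht : t ∈ Sq D) {q : ℚ} (hq : 0 ≤ q) : q • t ∈ Sq D := by
  have h1 := Sq.conj (nsmul_mem ht (q.num.toNat * q.den)) (((q.den : ℚ)⁻¹) • (1 : D))
  have h2 : (q.den : ℚ) ≠ 0 := by exact_mod_cast q.den_ne_zero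
  have h3 : ((q.num.toNat : ℕ) : ℚ) = q * q.den := by
    rw [Rat.mul_den_eq_num, ← Int.cast_natCast, Int.toNat_of_nonneg (Rat.num_nonneg.2 hq)]
  have h4 : (q.den : ℚ)⁻¹ * ((q.den : ℚ)⁻¹ * ((q.num.toNat * q.den : ℕ) : ℚ)) = q := by
    rw [Nat.cast_mul, h3]
    field_simp
  rwa [star_rat_smul, star_one, smul_mul_assoc, one_mul, mul_smul_comm, mul_one,
    ← Nat.cast_smul_eq_nsmul ℚ, smul_smul, smul_smul, mul_assoc, h4] at h1

/-- `d` has norm at most `r`. -/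
def Le (r : ℚ) (d : D) : Prop := 0 < r ∧ (r * r) • (1 : D) - star d * d ∈ Sq D

theorem Le.mul {r s : ℚ} {a b : D} (ha : Le r a) (hb : Le s b) : Le (r * s) (a * b) := by
  refine ⟨mul_pos ha.1 hb.1, ?_⟩
  have := add_mem (Sq.smul hb.2 (mul_self_nonneg r)) (Sq.conj ha.2 b)
  refine (congrArg (· ∈ Sq D) ?_).mp this
  simp only [star_mul, mul_sub, sub_mul, mul_smul_comm, smul_mul_assoc, mul_one, mul_assoc]
  module

theorem Le.add {r s : ℚ} {a b : D} (ha : Le r a) (hb : Le s b) : Le (r + s) (a + b) := by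
  have hr := ha.1
  have hs := hb.1
  refine ⟨add_pos hr hs, ?_⟩
  have := add_mem (add_mem (Sq.smul ha.2 (q := 1 + s / r) (by positivity))
    (Sq.smul hb.2 (q := 1 + r / s) (by positivity)))
    (Sq.smul (sq_mem (s • a - r • b)) (q := (r * s)⁻¹) (by positivity))
  refine (congrArg (· ∈ Sq D) ?_).mp this
  simp only [star_sub, star_add, star_rat_smul, mul_sub, sub_mul, mul_add, add_mul, mul_smul_comm,
    smul_mul_assoc]
  match_scalars <;> field_simp <;> ring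

theorem Le.neg {r : ℚ} {a : D} (ha : Le r a) : Le r (-a) := ⟨ha.1, by simpa using ha.2⟩

theorem Le.rat {r q : ℚ} (hr : 0 < r) (h : q * q ≤ r * r) : Le r (q • (1 : D)) := by
  refine ⟨hr, ?_⟩
  have := Sq.smul (Sq.one (D := D)) (sub_nonneg.2 h)
  refine (congrArg (· ∈ Sq D) ?_).mp this
  simp only [star_rat_smul, star_one, mul_smul_comm, mul_one]
  module

theorem Le.one_le (hp : (-1 : D) ∉ Sq D) {r : ℚ} (h : Le r (1 : D)) : 1 ≤ r := by
  by_contra hlt
  have h0 : 0 < 1 - r * r := by have := h.1; nlinarith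
  refine hp ((congrArg (· ∈ Sq D) ?_).mp (Sq.smul h.2 (inv_nonneg.2 h0.le)))
  rw [star_one, mul_one, ← neg_sub (1 : D), smul_neg, show (1 : D) - (r * r) • 1 = (1 - r * r) • 1 by
    rw [sub_smul, one_smul], smul_smul, inv_mul_cancel₀ h0.ne', one_smul]

theorem Le.inv {c : D} (hp : (-1 : D) ∉ Sq D) (h : star c * c - 1 ∈ Sq D) :
    c ≠ 0 ∧ Le 1 c⁻¹ := by
  have h0 : c ≠ 0 := by
    rintro rfl
    exact hp (by simpa using h)
  have h1 : star c ≠ 0 := star_ne_zero.2 h0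
  refine ⟨h0, one_pos, (congrArg (· ∈ Sq D) ?_).mp (Sq.conj h c⁻¹)⟩
  rw [mul_sub, sub_mul, mul_one, mul_one, one_smul, star_inv₀, inv_mul_cancel_left₀ h1,
    mul_inv_cancel₀ h0]

/-- The bounded elements. -/
def bdd (D : Type v) [DivisionRing D] [StarRing D] [CharZero D] : Subring D where
  carrier := {d | ∃ r, Le r d}
  mul_mem' := fun ⟨_, ha⟩ ⟨_, hb⟩ => ⟨_, ha.mul hb⟩
  one_mem' := ⟨1, by simpa using Le.rat (D := D) (q := 1) one_pos le_rfl⟩
  add_mem' := fun ⟨_, ha⟩ ⟨_, hb⟩ => ⟨_, ha.add hb⟩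
  zero_mem' := ⟨1, by simpa using Le.rat (D := D) (q := 0) one_pos (by norm_num)⟩
  neg_mem' := fun ⟨_, ha⟩ => ⟨_, ha.neg⟩

theorem frac_bdd (hp : (-1 : D) ∉ Sq D) (d : D) :
    ∃ e : D, e ≠ 0 ∧ e ∈ bdd D ∧ d * e ∈ bdd D := by
  have hs : star (1 + star d * d) = 1 + star d * d := by simp
  have h2 := sq_mem (star d * d)
  obtain ⟨h0, h1⟩ := Le.inv (c := 1 + star d * d) hp ((congrArg (· ∈ Sq D) (by
    rw [hs, star_mul, star_star]
    noncomm_ring)).mp (add_mem (add_mem (sq_mem d) (sq_mem d)) h2))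
  refine ⟨_, inv_ne_zero h0, ⟨1, h1⟩, 1, one_pos, (congrArg (· ∈ Sq D) ?_).mp
    (Sq.conj (add_mem (add_mem Sq.one (sq_mem d)) h2) (1 + star d * d)⁻¹)⟩
  have e : 1 + star d * d + star (star d * d) * (star d * d) =
      (1 + star d * d) * (1 + star d * d) - star d * d := by
    rw [star_mul, star_star]
    noncomm_ring
  rw [e, star_mul, star_inv₀, hs, mul_sub, sub_mul, inv_mul_cancel_left₀ h0, mul_inv_cancel₀ h0,
    mul_one, one_smul]
  simp only [mul_assoc]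

theorem unit_bdd (hp : (-1 : D) ∉ Sq D) {a : D} (ha : a ∈ bdd D) :
    ∃ q : ℚ, q • (1 : D) + a ∈ bdd D ∧ (q • (1 : D) + a)⁻¹ ∈ bdd D := by
  obtain ⟨r, hr⟩ := ha
  have h0 := mul_pos hr.1 hr.1
  refine ⟨r * r + 2, add_mem ⟨_, Le.rat (by positivity) le_rfl⟩ ⟨r, hr⟩, 1, (Le.inv hp ?_).2⟩
  have := add_mem (add_mem (add_mem (Sq.smul (sq_mem (1 + a)) (q := r * r + 2) (by positivity))
    (Sq.smul hr.2 (q := r * r + 2) (by positivity))) (sq_mem a))
    (Sq.smul Sq.one (q := r * r + 1) (by positivity))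
  refine (congrArg (· ∈ Sq D) ?_).mp this
  simp only [star_add, star_rat_smul, star_one, mul_add, add_mul, mul_smul_comm, smul_mul_assoc,
    mul_one, one_mul]
  module

omit [CharZero D] in
/-- The conjecture of Herstein for division rings with a positive definite involution. -/
theorem comm_of_pos (hp : (-1 : D) ∉ Sq D)
    (h : ∀ x y : D, x ≠ 0 → y ≠ 0 →
      ∃ n : ℕ, 0 < n ∧ (x * y * x⁻¹ * y⁻¹) ^ n ∈ Subring.center D) (a b : D) :
    a * b = b * a := by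
  have := Sq.charZero hp
  by_cases hc : ∀ x ∈ bdd D, ∀ y ∈ bdd D, Commute x y
  · obtain ⟨e, e0, he, hae⟩ := frac_bdd hp a
    obtain ⟨f, f0, hf, hbf⟩ := frac_bdd hp b
    have h1 : ∀ y ∈ bdd D, Commute a y := fun y hy => by
      rw [← mul_inv_cancel_right₀ e0 a]
      exact (hc _ hae y hy).mul_left (hc _ he y hy).inv_left₀
    rw [← mul_inv_cancel_right₀ f0 b]
    exact (h1 _ hbf).mul_right (h1 _ hf).inv_right₀
  push Not at hc
  obtain ⟨x, hx, y, hy, hxy⟩ := hc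
  obtain ⟨p, hp1, hp2⟩ := unit_bdd hp hx
  obtain ⟨q, hq1, hq2⟩ := unit_bdd hp hy
  have all : ∀ d : D, ∃ r, Le r d := by
    intro d
    obtain ⟨e, e0, he, hde⟩ := frac_bdd hp d
    rw [← mul_inv_cancel_right₀ e0 d]
    refine (bdd D).mul_mem hde (inv_mem_of_units h _ hp1 hp2 hq1 hq2 (fun e1 => hxy ?_) he)
    have e2 : x * y - y * x = (p • (1 : D) + x) * (q • (1 : D) + y) -
        (q • (1 : D) + y) * (p • (1 : D) + x) := by
      simp only [mul_add, add_mul, mul_smul_comm, smul_mul_assoc, mul_one, one_mul]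
      module
    rwa [e1, sub_self, sub_eq_zero] at e2
  obtain ⟨N, hN, hle⟩ := Nm.of_bounds
    (fun (d : D) (c : ℝ) => (d = 0 ∧ c = 0) ∨ ∃ r : ℚ, Le r d ∧ c = r)
    (fun d => (all d).elim fun r hr => ⟨r, Or.inr ⟨r, hr, rfl⟩⟩)
    (by
      rintro d _ (⟨-, rfl⟩ | ⟨r, hr, rfl⟩)
      · exact le_rfl
      · exact_mod_cast hr.1.le)
    (by
      rintro d e _ _ (⟨rfl, rfl⟩ | ⟨r, hr, rfl⟩) (⟨rfl, rfl⟩ | ⟨s, hs, rfl⟩)
      · exact Or.inl ⟨add_zero 0, add_zero 0⟩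
      · exact Or.inr ⟨s, by rwa [zero_add], zero_add _⟩
      · exact Or.inr ⟨r, by rwa [add_zero], add_zero _⟩
      · exact Or.inr ⟨r + s, hr.add hs, by push_cast; rfl⟩)
    (by
      rintro d e _ _ (⟨rfl, rfl⟩ | ⟨r, hr, rfl⟩) (⟨rfl, rfl⟩ | ⟨s, hs, rfl⟩)
      · exact Or.inl ⟨zero_mul _, zero_mul _⟩
      · exact Or.inl ⟨zero_mul _, zero_mul _⟩
      · exact Or.inl ⟨mul_zero _, mul_zero _⟩
      · exact Or.inr ⟨r * s, hr.mul hs, by push_cast; rfl⟩)
    (by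
      rintro d _ (⟨rfl, rfl⟩ | ⟨r, hr, rfl⟩)
      · exact Or.inl ⟨neg_zero, rfl⟩
      · exact Or.inr ⟨r, hr.neg, rfl⟩)
    (Or.inl ⟨rfl, rfl⟩)
    (by
      rintro _ (⟨e, -⟩ | ⟨r, hr, rfl⟩)
      · exact absurd e one_ne_zero
      · exact_mod_cast hr.one_le hp)
  refine hN.comm h (s0 := (1 / 2 : ℚ) • (1 : D)) (smul_ne_zero (by norm_num) one_ne_zero)
    ((hle _ _ (Or.inr ⟨1 / 2, Le.rat (by norm_num) le_rfl, rfl⟩)).trans_lt (by norm_num)) a b

end Pos

end Pool.Agent.MP_8ed1d4_al
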