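import Pool.Agent.MP_8ed1d4_al.Comm

set_option autoImplicit false
set_option linter.style.haveILetI false
set_option linter.unusedVariables false

open Polynomial

namespace Pool.Agent.MP_8ed1d4_al

universe u v

variable {F : Type u} {D : Type v} [Field F] [DivisionRing D] [Algebra F D]

theorem Hyp.commutator_ne_one (H : Hyp F D) (b s : D) : b * s - s * b ≠ 1 := by
  intro h
  have hb : b ≠ 0 := by rintro rfl; simp at h
  have h1 : b * (s * b) * b⁻¹ = s * b + 1 := by
    rw [← mul_assoc, mul_inv_cancel_right₀ hb, ← h]; abel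
  have := H.eq_of_commute (x := s * b) (x' := s * b + 1) ⟨b, hb, h1.symm⟩
    ((Commute.refl _).add_right (Commute.one_right _))
  simp at this

theorem Hyp.central_of_pow_char (H : Hyp F D) {p : ℕ} [Fact p.Prime] [CharP F p] {b : D} {f : F}
    (hb : b ^ p = algebraMap F D f) : ∃ g : F, algebraMap F D g = b := by
  apply H.cen
  by_contra hne
  push Not at hne
  obtain ⟨x, hx⟩ := hne
  let δ : Module.End F D := LinearMap.mulLeft F b - LinearMap.mulRight F b
  have hδ : ∀ z, δ z = b * z - z * b := fun z => rfl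
  haveI : CharP (Module.End F D) p := charP_of_injective_algebraMap (algebraMap F (Module.End F D)).injective p
  have hp : δ ^ p = 0 := by
    ext z
    rw [sub_pow_char_of_commute p (LinearMap.commute_mulLeft_right b b), LinearMap.sub_apply,
      LinearMap.pow_mulLeft, LinearMap.pow_mulRight, LinearMap.mulLeft_apply,
      LinearMap.mulRight_apply, hb, Algebra.commutes]
    simp
  have hex : ∃ k : ℕ, (δ ^ (k + 1)) (δ x) = 0 := by
    refine ⟨p, ?_⟩
    rw [pow_succ', hp]; simp
  classical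
  have h1 := Nat.find_spec hex
  have h2 : (δ ^ (Nat.find hex)) (δ x) ≠ 0 := by
    rcases Nat.eq_zero_or_pos (Nat.find hex) with h0 | h0
    · rw [h0]; simpa [hδ, sub_eq_zero] using hx
    · have := Nat.find_min hex (m := Nat.find hex - 1) (by omega)
      rwa [Nat.sub_add_cancel h0] at this
  set k := Nat.find hex
  have h3 : (δ ^ k) (δ x) = δ ((δ ^ k) x) := by
    rw [← Module.End.mul_apply, ← pow_succ, pow_succ', Module.End.mul_apply]
  rw [pow_succ', Module.End.mul_apply, h3] at h1
  rw [h3] at h2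
  set z := (δ ^ k) x
  set w := δ z with hw
  have hbw : Commute b w := by
    rw [hδ w, sub_eq_zero] at h1; exact h1
  apply H.commutator_ne_one b (z * w⁻¹)
  rw [mul_assoc z, ← hbw.inv_right₀.eq, ← mul_assoc, ← mul_assoc, ← sub_mul, ← hδ, ← hw,
    mul_inv_cancel₀ h2]

theorem multiset_prod_pow {R : Type*} [CommMonoid R] (s : Multiset R) {n : ℕ} {a : R}
    (h : ∀ ρ ∈ s, ρ ^ n = a) : s.prod ^ n = a ^ s.card := by
  induction s using Multiset.induction_on with
  | empty => simp
  | cons b s ih =>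
    rw [Multiset.prod_cons, mul_pow, Multiset.card_cons, pow_succ', h b (by simp),
      ih (fun ρ hρ => h ρ (by simp [hρ]))]

/-- The minimal polynomial of a non-central radical element. -/
theorem Hyp.minpoly_radical (H : Hyp F D) {r : D} (hr : ¬ ∃ f : F, algebraMap F D f = r)
    {m : ℕ} (hm : 0 < m) {f0 : F} (h0 : r ^ m = algebraMap F D f0) :
    ∃ (n : ℕ) (f : F), 2 ≤ n ∧ (n : F) ≠ 0 ∧ r ^ n = algebraMap F D f ∧ IsIntegral F r ∧
      minpoly F r = X ^ n - C f := by
  classical
  have hex : ∃ n : ℕ, 0 < n ∧ ∃ f : F, r ^ n = algebraMap F D f := ⟨m, hm, f0, h0⟩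
  obtain ⟨hn0, f, hf⟩ := Nat.find_spec hex
  have hmin := fun k (hk : k < Nat.find hex) => Nat.find_min hex hk
  set n := Nat.find hex
  have hr0 : r ≠ 0 := by rintro rfl; exact hr ⟨0, map_zero _⟩
  have hf0 : f ≠ 0 := by
    rintro rfl
    exact pow_ne_zero n hr0 (by rw [hf, map_zero])
  have hn2 : 2 ≤ n := by
    by_contra hlt
    have : n = 1 := by omega
    rw [this, pow_one] at hf
    exact hr ⟨f, hf.symm⟩
  have hroot : aeval r (X ^ n - C f : F[X]) = 0 := by simp [hf]
  have hint : IsIntegral F r := ⟨X ^ n - C f, monic_X_pow_sub_C f hn0.ne', hroot⟩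
  have hdvd : minpoly F r ∣ X ^ n - C f := minpoly.dvd _ _ hroot
  have hnF : (n : F) ≠ 0 := by
    intro hz
    obtain ⟨p, hp⟩ := CharP.exists F
    have hpn : p ∣ n := (CharP.cast_eq_zero_iff F p n).1 hz
    rcases CharP.char_is_prime_or_zero F p with hpr | rfl
    · haveI := Fact.mk hpr
      obtain ⟨k, hk⟩ := hpn
      have hk0 : 0 < k := Nat.pos_of_ne_zero (by rintro rfl; omega)
      obtain ⟨g, hg⟩ := H.central_of_pow_char (p := p) (b := r ^ k) (f := f) (by
        rw [← pow_mul, mul_comm, ← hk, hf])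
      refine hmin k ?_ ⟨hk0, g, hg.symm⟩
      have := hpr.two_le
      nlinarith
    · omega
  set d := (minpoly F r).natDegree with hd
  have hd0 : 0 < d := minpoly.natDegree_pos hint
  have hdn : d ≤ n := by
    have := natDegree_le_of_dvd hdvd (X_pow_sub_C_ne_zero hn0 f)
    rwa [natDegree_X_pow_sub_C] at this
  -- the constant coefficient
  set c := (-1) ^ d * (minpoly F r).coeff 0 with hc
  have hcn : c ^ n = f ^ d := by
    let Ω := AlgebraicClosure F
    apply (algebraMap F Ω).injective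
    have hsp : ((minpoly F r).map (algebraMap F Ω)).Splits := IsAlgClosed.splits _
    have h1 := hsp.coeff_zero_eq_prod_roots_of_monic ((minpoly.monic hint).map _)
    rw [coeff_map, natDegree_map, ← hd] at h1
    have h2 : algebraMap F Ω c = ((minpoly F r).map (algebraMap F Ω)).roots.prod := by
      rw [hc, map_mul, h1, ← mul_assoc, map_pow, map_neg, map_one, ← mul_pow, neg_mul_neg, one_mul, one_pow,
        one_mul]
    rw [map_pow, h2, multiset_prod_pow (a := algebraMap F Ω f), map_pow]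
    · rw [← hsp.natDegree_eq_card_roots, natDegree_map]
    · intro ρ hρ
      have h3 := (mem_roots'.1 hρ).2
      rw [IsRoot, eval_map_algebraMap] at h3
      have h4 := aeval_eq_zero_of_dvd_aeval_eq_zero hdvd h3
      simpa [sub_eq_zero] using h4
  have hc0 : c ≠ 0 := by
    intro h; rw [h, zero_pow hn0.ne'] at hcn
    exact pow_ne_zero d hf0 hcn.symm
  obtain ⟨g, hg⟩ := H.central_of_pow_eq_one (η := r ^ d * algebraMap F D c⁻¹) hn0 (by
    rw [(Algebra.commute_algebraMap_right c⁻¹ (r ^ d)).mul_pow, ← pow_mul,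
      mul_comm d, pow_mul, hf, ← map_pow, ← map_pow, ← map_mul, inv_pow, hcn,
      mul_inv_cancel₀ (pow_ne_zero d hf0), map_one])
  have hdn' : d = n := by
    by_contra hne
    refine hmin d (by omega) ⟨hd0, g * c, ?_⟩
    rw [map_mul, hg, mul_assoc, ← map_mul, inv_mul_cancel₀ hc0, map_one, mul_one]
  refine ⟨n, f, hn2, hnF, hf, hint, ?_⟩
  exact (eq_of_monic_of_dvd_of_natDegree_le (minpoly.monic hint) (monic_X_pow_sub_C f hn0.ne')
    hdvd (by rw [natDegree_X_pow_sub_C, ← hd, hdn'])).symm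

theorem Hyp.infinite (H : Hyp F D) {r : D} (hr : ¬ ∃ f : F, algebraMap F D f = r)
    {m : ℕ} (hm : 0 < m) {f0 : F} (h0 : r ^ m = algebraMap F D f0) : Infinite F := by
  by_contra hfin
  rw [not_infinite_iff_finite] at hfin
  have hr0 : r ≠ 0 := by rintro rfl; exact hr ⟨0, map_zero _⟩
  have hf0 : f0 ≠ 0 := by
    rintro rfl
    exact pow_ne_zero m hr0 (by rw [h0, map_zero])
  obtain ⟨k, hk, hk1⟩ := isOfFinOrder_iff_pow_eq_one.1 (isOfFinOrder_of_finite (Units.mk0 f0 hf0))
  have h2 : f0 ^ k = 1 := by simpa using congrArg Units.val hk1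
  exact hr (H.central_of_pow_eq_one (Nat.mul_pos hm hk) (by rw [pow_mul, h0, ← map_pow, h2, map_one]))

/-- If `D` is not commutative there is a non-central commutator. -/
theorem Hyp.exists_noncentral (H : Hyp F D) {a b : D} (hab : a * b ≠ b * a) :
    ∃ x y : D, x ≠ 0 ∧ y ≠ 0 ∧ ¬ ∃ f : F, algebraMap F D f = x * y * x⁻¹ * y⁻¹ := by
  have ha : a ≠ 0 := by rintro rfl; simp at hab
  have hb : b ≠ 0 := by rintro rfl; simp at hab
  refine ⟨a, b, ha, hb, ?_⟩
  rintro ⟨f, hf⟩
  have h1 : a * b * a⁻¹ = algebraMap F D f * b := by rw [hf, inv_mul_cancel_right₀ hb]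
  have := H.eq_of_commute (x := b) (x' := a * b * a⁻¹) ⟨a, ha, rfl⟩ (by
    rw [h1]
    exact (Algebra.commute_algebraMap_right f b).mul_right (Commute.refl b))
  apply hab
  rw [mul_inv_eq_iff_eq_mul₀ ha] at this
  exact this

/-- The ratio of two distinct conjugates, shifted by an element fixed by the conjugation,
is a non-central commutator. -/
theorem Hyp.ratio (H : Hyp F D) {x y t : D} (hy : y ≠ 0) (hne : y * x * y⁻¹ ≠ x)
    (ht : Commute t y) : x + t ≠ 0 ∧
      y * (x + t) * y⁻¹ * (x + t)⁻¹ = 1 + (y * x * y⁻¹ - x) * (x + t)⁻¹ ∧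
      ¬ ∃ f : F, algebraMap F D f = y * (x + t) * y⁻¹ * (x + t)⁻¹ := by
  have hconj := conj_add_comm hy x ht
  have hxt : x + t ≠ 0 := by
    intro h0
    apply hne
    have : x = -t := eq_neg_of_add_eq_zero_left h0
    rw [this, ← ht.neg_left.eq, mul_assoc, mul_inv_cancel₀ hy, mul_one]
  refine ⟨hxt, ?_, ?_⟩
  · rw [hconj, ← mul_inv_cancel₀ hxt, ← add_mul]; congr 1; abel
  · rintro ⟨f, hf⟩
    have h1 : y * (x + t) * y⁻¹ = algebraMap F D f * (x + t) := by
      rw [hf, inv_mul_cancel_right₀ hxt]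
    have := H.eq_of_commute (x := x + t) (x' := y * (x + t) * y⁻¹) ⟨y, hy, rfl⟩ (by
      rw [h1]
      exact (Algebra.commute_algebraMap_right f _).mul_right (Commute.refl _))
    rw [hconj] at this
    exact hne (add_right_cancel this)

/-- Partial fractions. -/
theorem pfrac [Infinite F] {a : D} (ha : IsIntegral F a)
    (hnc : ¬ ∃ f : F, algebraMap F D f = a) (ℓ : D →ₗ[F] F) (m0 : F)
    (h : ∀ τ : F, ℓ (a - algebraMap F D τ)⁻¹ = m0) :
    m0 = 0 ∧ ∀ q : F[X], ℓ (aeval a q) = 0 := by
  classical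
  have hne : ∀ τ : F, a - algebraMap F D τ ≠ 0 := fun τ h0 => hnc ⟨τ, (sub_eq_zero.1 h0).symm⟩
  obtain ⟨s, hs⟩ := Infinite.exists_subset_card_eq F (minpoly F a).natDegree
  obtain ⟨σ, hσ⟩ := Infinite.exists_notMem_finset s
  set P : F[X] := Lagrange.nodal s id with hP
  have hPa : aeval a P ≠ 0 := by
    rw [hP, Lagrange.nodal]
    clear hs hσ hP
    induction s using Finset.induction_on with
    | empty => simp
    | insert i s hi ih =>
      rw [Finset.prod_insert hi, map_mul]
      exact mul_ne_zero (by simpa using hne i) ih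
  have hcomm : ∀ p q : F[X], Commute (aeval a p) (aeval a q) := fun p q =>
    (Commute.all p q).map (aeval a)
  have key : ∀ q : F[X], ℓ (aeval a q * (aeval a P)⁻¹ * (a - algebraMap F D σ)⁻¹) = 0 := by
    intro q
    have h1 : aeval a q = aeval a (q %ₘ minpoly F a) := by
      rw [aeval_modByMonic_eq_self_of_root (minpoly.aeval F a)]
    have hdeg : (q %ₘ minpoly F a).degree < s.card := by
      rw [hs, ← degree_eq_natDegree (minpoly.ne_zero ha)]
      exact degree_modByMonic_lt _ (minpoly.monic ha)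
    rw [h1, Lagrange.eq_interpolate (s := s) (v := id) (Set.injOn_id _) hdeg,
      Lagrange.interpolate_apply, map_sum, Finset.sum_mul, Finset.sum_mul, map_sum]
    refine Finset.sum_eq_zero (fun i hi => ?_)
    rw [Lagrange.basis_eq_prod_sub_inv_mul_nodal_div hi, ← Lagrange.nodal_erase_eq_nodal_div hi,
      map_mul (aeval a), map_mul (aeval a), aeval_C, aeval_C, ← mul_assoc, ← map_mul, mul_assoc, mul_assoc,
      ← Algebra.smul_def, map_smul]
    have h2 : aeval a (Lagrange.nodal (s.erase i) id) * (aeval a P)⁻¹ =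
        (a - algebraMap F D i)⁻¹ := by
      rw [mul_inv_eq_iff_eq_mul₀ hPa, hP, Lagrange.nodal_eq_mul_nodal_erase hi, map_mul]
      simp only [id, map_sub, aeval_X, aeval_C]
      rw [inv_mul_cancel_left₀ (hne i)]
    have hiσ : i - σ ≠ 0 := sub_ne_zero.2 (fun h => hσ (h ▸ hi))
    have h3 : (a - algebraMap F D i)⁻¹ * (a - algebraMap F D σ)⁻¹ =
        (i - σ)⁻¹ • ((a - algebraMap F D i)⁻¹ - (a - algebraMap F D σ)⁻¹) := by
      rw [eq_inv_smul_iff₀ hiσ, inv_sub_inv' (hne i) (hne σ), Algebra.smul_def,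
        ← mul_assoc, Algebra.commutes, map_sub]
      congr 2
      abel
    rw [← mul_assoc, h2, h3, map_smul, map_sub, h, h]
    simp
  refine ⟨?_, fun q => ?_⟩
  · have := key P
    rwa [mul_inv_cancel₀ hPa, one_mul, h] at this
  · have := key (q * (X - C σ) * P)
    rw [map_mul (aeval a), mul_inv_cancel_right₀ hPa, map_mul (aeval a)] at this
    simp only [map_sub, aeval_X, aeval_C] at this
    rwa [mul_inv_cancel_right₀ (hne σ)] at this

end Pool.Agent.MP_8ed1d4_al
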