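import Pool.Agent.MP_8ed1d4_al.Radical

set_option autoImplicit false
set_option linter.style.haveILetI false
set_option linter.unusedVariables false

open Polynomial

namespace Pool.Agent.MP_8ed1d4_al

universe u v

variable {F : Type u} {D : Type v} [Field F] [DivisionRing D] [Algebra F D]

theorem trace_conj (T : D →ₗ[F] F) (hT : ∀ a b, T (a * b) = T (b * a)) {a c : D} (h : Cj a c) :
    T c = T a := by
  obtain ⟨y, hy, rfl⟩ := h
  rw [hT, inv_mul_cancel_left₀ hy]

theorem Hyp.trace_radical (H : Hyp F D) (T : D →ₗ[F] F) (hT : ∀ a b, T (a * b) = T (b * a))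
    {r : D} (hr : ¬ ∃ f : F, algebraMap F D f = r)
    {m : ℕ} (hm : 0 < m) {f0 : F} (h0 : r ^ m = algebraMap F D f0) : T r = 0 := by
  obtain ⟨n, f, hn2, hnF, hf, hint, hmin⟩ := H.minpoly_radical hr hm h0
  obtain ⟨l, hl, hlen, hp⟩ := wedderburn H.cen hint
  have h1 := nextCoeff_prod_list l
  rw [hp, hmin, Polynomial.map_sub, Polynomial.map_pow, map_X, map_C,
    nextCoeff_of_natDegree_pos (by rw [natDegree_X_pow_sub_C]; omega), natDegree_X_pow_sub_C,
    coeff_sub, coeff_X_pow, coeff_C, if_neg (by omega), if_neg (by omega), sub_zero] at h1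
  have h2 : T l.sum = l.length * T r := by
    clear hlen hp h1
    induction l with
    | nil => simp
    | cons c l ih =>
      rw [List.sum_cons, map_add, ih (fun c hc => hl c (List.mem_cons_of_mem _ hc)),
        trace_conj T hT (hl c List.mem_cons_self), List.length_cons]
      push_cast; ring
  rw [hlen, hmin, natDegree_X_pow_sub_C, neg_eq_zero.1 h1.symm, map_zero] at h2
  exact (mul_eq_zero.1 h2.symm).resolve_left hnF

theorem Hyp.trace_mul_conj [Infinite F] (H : Hyp F D) (T : D →ₗ[F] F)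
    (hT : ∀ a b, T (a * b) = T (b * a)) {z z' : D} (hz : IsIntegral F z)
    (hnc : ¬ ∃ f : F, algebraMap F D f = z) (hc : Cj z z') : T (z' * z) = T (z * z) := by
  by_cases hne : z' = z
  · rw [hne]
  obtain ⟨y, hy, rfl⟩ := hc
  have := (pfrac hz hnc (T ∘ₗ LinearMap.mulLeft F (y * z * y⁻¹ - z)) (-T 1) (fun τ => by
    obtain ⟨h1, h2, h3⟩ := H.ratio (t := -algebraMap F D τ) hy hne
      (Algebra.commute_algebraMap_left τ y).neg_left
    obtain ⟨n, hn, f, hf⟩ := H.rad y _ hy h1
    have h4 := H.trace_radical T hT h3 hn hf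
    rw [h2, map_add, ← sub_eq_add_neg] at h4
    simp only [LinearMap.comp_apply, LinearMap.mulLeft_apply]
    exact eq_neg_of_add_eq_zero_right h4)).2 X
  simp only [LinearMap.comp_apply, LinearMap.mulLeft_apply, aeval_X, sub_mul, map_sub] at this
  exact sub_eq_zero.1 this

theorem Hyp.trace_mul_comm [Infinite F] (H : Hyp F D) (T : D →ₗ[F] F)
    (hT : ∀ a b, T (a * b) = T (b * a)) {z1 z2 a : D} (hz : IsIntegral F z2)
    (hnc : ¬ ∃ f : F, algebraMap F D f = z2) (hc : Cj z2 z1) (ha : IsIntegral F a) :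
    T (a * (z1 * z2 - z2 * z1)) = 0 := by
  by_cases hac : ∃ f : F, algebraMap F D f = a
  · obtain ⟨f, rfl⟩ := hac
    rw [← Algebra.smul_def, map_smul, map_sub, hT, sub_self, smul_zero]
  have := (pfrac ha hac (T ∘ₗ LinearMap.mulRight F z2 ∘ₗ LinearMap.mulLeft F (a * z1 - z1 * a)) 0
    (fun τ => by
      have hne : a - algebraMap F D τ ≠ 0 := fun h0 => hac ⟨τ, (sub_eq_zero.1 h0).symm⟩
      have h1 := H.trace_mul_conj T hT hz hnc (hc.trans ⟨_, hne, rfl⟩)
      have h2 := H.trace_mul_conj T hT hz hnc hc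
      have h3 : (a - algebraMap F D τ) * z1 * (a - algebraMap F D τ)⁻¹ =
          z1 + (a * z1 - z1 * a) * (a - algebraMap F D τ)⁻¹ := by
        rw [mul_inv_eq_iff_eq_mul₀ hne, add_mul, inv_mul_cancel_right₀ hne, sub_mul, mul_sub,
          Algebra.commutes]
        abel
      rw [h3, add_mul, map_add, h2] at h1
      simp only [LinearMap.comp_apply, LinearMap.mulLeft_apply, LinearMap.mulRight_apply]
      exact left_eq_add.1 h1.symm)).2 1
  simp only [LinearMap.comp_apply, LinearMap.mulLeft_apply, LinearMap.mulRight_apply, map_one,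
    mul_one, map_sub] at this
  rw [mul_sub, map_sub, ← mul_assoc, ← mul_assoc, hT (a * z2), ← mul_assoc]
  exact this

theorem isIntegral_of_one_add {g : D} (h : IsIntegral F (1 + g)) : IsIntegral F g := by
  refine IsIntegral.of_mem_of_fg _ h.fg_adjoin_singleton _ ?_
  have : g = (1 + g) - 1 := by abel
  rw [this]
  exact Subalgebra.sub_mem _ (Algebra.subset_adjoin (by simp)) (Subalgebra.one_mem _)

theorem Hyp.trace_eq_zero (H : Hyp F D) (T : D →ₗ[F] F)
    (hT : ∀ a b, T (a * b) = T (b * a)) {a b : D} (hab : a * b ≠ b * a) (d : D) : T d = 0 := by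
  obtain ⟨x0, y0, hx0, hy0, hr⟩ := H.exists_noncentral hab
  obtain ⟨m, hm, f0, h0⟩ := H.rad x0 y0 hx0 hy0
  generalize x0 * y0 * x0⁻¹ * y0⁻¹ = r at hr h0
  haveI := H.infinite hr hm h0
  obtain ⟨n, f, hn2, hnF, hf, hint, -⟩ := H.minpoly_radical hr hm h0
  have hr0 : r ≠ 0 := by rintro h; exact hr ⟨0, by rw [h, map_zero]⟩
  have : ∃ y, r * y ≠ y * r := by
    by_contra h
    push Not at h
    exact hr (H.cen r h)
  obtain ⟨y, hy⟩ := this
  have hy0 : y ≠ 0 := by rintro rfl; simp at hy
  set z := y * r * y⁻¹ with hz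
  have hcj : Cj r z := ⟨y, hy0, rfl⟩
  have hzr : z ≠ r := by
    intro h; apply hy; rw [hz, mul_inv_eq_iff_eq_mul₀ hy0] at h; exact h.symm
  have hv : r * (z * r) * r⁻¹ ≠ z * r := by
    intro h
    rw [← mul_assoc, mul_inv_cancel_right₀ hr0] at h
    exact hzr (H.eq_of_commute hcj h)
  have hznc : ¬ ∃ f : F, algebraMap F D f = z := by
    rintro ⟨g, hg⟩
    apply hv
    rw [← mul_assoc, mul_inv_cancel_right₀ hr0, ← hg, Algebra.commutes]
  have key : ∀ t, Commute t r → T (z * r + t) = 0 := by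
    intro t ht
    obtain ⟨h1, h2, -⟩ := H.ratio hr0 hv ht
    obtain ⟨k, hk, g, hg⟩ := H.rad r _ hr0 h1
    have hi : IsIntegral F (r * (z * r + t) * r⁻¹ * (z * r + t)⁻¹) :=
      ⟨X ^ k - C g, monic_X_pow_sub_C g hk.ne', by simp [hg]⟩
    rw [h2] at hi
    have hi2 := (isIntegral_of_one_add hi).inv
    have h3 := H.trace_mul_comm T hT (hcj.isIntegral hint) hznc hcj.symm hi2
    have h4 : r * (z * r) * r⁻¹ = r * z := by rw [← mul_assoc, mul_inv_cancel_right₀ hr0]
    rw [h4] at h3 hv
    rwa [mul_inv_rev, inv_inv, inv_mul_cancel_right₀ (sub_ne_zero.2 hv)] at h3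
  have key2 : ∀ t, Commute t r → T t = 0 := by
    intro t ht
    have h1 := key t ht
    have h2 := key 0 (Commute.zero_left r)
    rw [add_zero] at h2
    rwa [map_add, h2, zero_add] at h1
  let e : ℕ → D := fun i => r ^ i * d * (r ^ i)⁻¹
  have he : ∀ i, r * e i = e (i + 1) * r := by
    intro i
    simp only [e]
    rw [pow_succ' r, mul_inv_rev, ← mul_assoc, ← mul_assoc, ← mul_assoc,
      inv_mul_cancel_right₀ hr0]
  have hen : e n = e 0 := by
    simp only [e]
    rw [hf, Algebra.commutes, mul_inv_cancel_right₀ (by rw [← hf]; exact pow_ne_zero n hr0)]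
    simp
  have hs : Commute (∑ i ∈ Finset.range n, e i) r := by
    have h1 := Finset.sum_range_succ e n
    rw [Finset.sum_range_succ', hen, add_left_inj] at h1
    show _ * _ = _ * _
    rw [Finset.mul_sum]
    simp only [he]
    rw [← Finset.sum_mul, h1]
  have h1 := key2 _ hs
  rw [map_sum, Finset.sum_congr rfl (g := fun _ => T d)
    (fun i _ => trace_conj T hT ⟨_, pow_ne_zero i hr0, rfl⟩)] at h1
  simp only [Finset.sum_const, Finset.card_range, nsmul_eq_mul] at h1
  exact (mul_eq_zero.1 h1).resolve_left hnF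

theorem Hyp.closure_eq_top (H : Hyp F D) {a b : D} (hab : a * b ≠ b * a) :
    AddSubgroup.closure {c : D | ∃ a b : D, c = a * b - b * a} = ⊤ := by
  set A := AddSubgroup.closure {c : D | ∃ a b : D, c = a * b - b * a}
  have hsm : ∀ (f : F) (x : D), x ∈ A → f • x ∈ A := by
    intro f x hx
    induction hx using AddSubgroup.closure_induction with
    | mem x hx =>
      obtain ⟨a, b, rfl⟩ := hx
      exact AddSubgroup.subset_closure ⟨f • a, b, by simp [smul_sub]⟩
    | zero => rw [smul_zero]; exact A.zero_mem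
    | add x y _ _ hx hy => rw [smul_add]; exact A.add_mem hx hy
    | neg x _ hx => rw [smul_neg]; exact A.neg_mem hx
  let U : Submodule F D :=
    { carrier := A
      add_mem' := A.add_mem
      zero_mem' := A.zero_mem
      smul_mem' := hsm }
  by_contra hne
  have hU : U < ⊤ := by
    rw [lt_top_iff_ne_top]
    intro h
    apply hne
    rw [eq_top_iff]
    intro x _
    have : x ∈ U := by rw [h]; trivial
    exact this
  obtain ⟨T, hT0, hT⟩ := U.exists_le_ker_of_lt_top hU
  apply hT0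
  ext d
  refine H.trace_eq_zero T (fun a b => ?_) hab d
  have : a * b - b * a ∈ U := AddSubgroup.subset_closure ⟨a, b, rfl⟩
  have := hT this
  rw [LinearMap.mem_ker, map_sub] at this
  exact sub_eq_zero.1 this

theorem hyp_center {D : Type v} [DivisionRing D]
    (h : ∀ x y : D, x ≠ 0 → y ≠ 0 →
        ∃ n : ℕ, 0 < n ∧ (x * y * x⁻¹ * y⁻¹) ^ n ∈ Subring.center D) :
    Hyp (Subring.center D) D where
  cen x hx := ⟨⟨x, Subring.mem_center_iff.2 (fun y => (hx y).symm)⟩, rfl⟩
  rad x y hx hy := by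
    obtain ⟨n, hn, hm⟩ := h x y hx hy
    exact ⟨n, hn, ⟨_, hm⟩, rfl⟩

end Pool.Agent.MP_8ed1d4_al
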