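import Pool.Agent.MP_8ed1d4_al.AdicCor

set_option autoImplicit false

/-!
A subring with two noncommuting units is a division ring.
-/

namespace Pool.Agent.MP_8ed1d4_al

open Polynomial

universe u v

variable {D : Type v} [DivisionRing D] {F : Type u} [Field F] [Algebra F D]

theorem inv_mem_of_mul {L : Subring D} {a b : D} (hb : b ∈ L) (h : a * b = 1) : a⁻¹ ∈ L :=
  eq_inv_of_mul_eq_one_right h ▸ hb

/-- The data: an element with a central power and a unit that does not commute with it. -/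
structure Pair (L : Subring D) (x u : D) : Prop where
  hx : x ∈ L
  hu : u ∈ L
  hu' : u⁻¹ ∈ L
  ne : x * u ≠ u * x
  rad : ∃ n : ℕ, 0 < n ∧ ∀ a, x ^ n * a = a * x ^ n

namespace Pair

variable {L : Subring D} {x u : D}

theorem x0 (P : Pair L x u) : x ≠ 0 := fun h => P.ne (by simp [h])

theorem u0 (P : Pair L x u) : u ≠ 0 := fun h => P.ne (by simp [h])

theorem mono (P : Pair L x u) {L' : Subring D} (h : L ≤ L') : Pair L' x u :=
  ⟨h P.hx, h P.hu, h P.hu', P.ne, P.rad⟩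

theorem field (P : Pair L x u) (H : Hyp F D) {t : D} (ht : t ∈ L) (hc : ∀ a, t * a = a * t) :
    t⁻¹ ∈ L := by
  by_cases h0 : t = 0
  · rw [h0, inv_zero]; exact L.zero_mem
  by_contra hti
  obtain ⟨n, hn, hxn⟩ := P.rad
  exact P.ne (H.comm_of_radical L ht h0 hti hc P.hx hn hxn P.hu P.u0 P.hu')

theorem hx' (P : Pair L x u) (H : Hyp F D) : x⁻¹ ∈ L := by
  obtain ⟨n, hn, hxn⟩ := P.rad
  obtain ⟨m, rfl⟩ := Nat.exists_eq_succ_of_ne_zero hn.ne'
  refine inv_mem_of_mul (L.mul_mem (L.pow_mem P.hx m) (P.field H (L.pow_mem P.hx (m + 1)) hxn)) ?_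
  rw [← mul_assoc, ← pow_succ', mul_inv_cancel₀ (pow_ne_zero _ P.x0)]

theorem comm_unit (P : Pair L x u) (H : Hyp F D) {y : D} (hy : y ∈ L) (hy' : y⁻¹ ∈ L)
    (hne : x * y ≠ y * x) : (x * y - y * x)⁻¹ ∈ L := by
  have hy0 : y ≠ 0 := fun h => hne (by simp [h])
  obtain ⟨m, hm, f, hf⟩ := H.rad x y P.x0 hy0
  have hg : x * y * x⁻¹ * y⁻¹ ∈ L := L.mul_mem (L.mul_mem (L.mul_mem P.hx hy) (P.hx' H)) hy'
  have e : x * y * x⁻¹ * y⁻¹ - 1 = (x * y - y * x) * (x⁻¹ * y⁻¹) := by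
    rw [sub_mul, mul_assoc y, mul_inv_cancel_left₀ P.x0, mul_inv_cancel₀ hy0, mul_assoc (x * y)]
  obtain ⟨r, hr, er⟩ := Dv.pow_sub_one (s := x * y - y * x) hg
    ⟨_, L.mul_mem (P.hx' H) hy', e⟩ m
  have h0 : (x * y * x⁻¹ * y⁻¹) ^ m - 1 ≠ 0 := fun h =>
    hne (H.comm_of_central (H.central_of_pow_eq_one hm (sub_eq_zero.1 h)))
  have h1 := P.field H (L.sub_mem (L.pow_mem hg m) L.one_mem) (fun a => by
    rw [hf, sub_mul, mul_sub, Algebra.commutes, one_mul, mul_one])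
  exact inv_mem_of_mul (L.mul_mem hr h1) (by rw [← mul_assoc, ← er, mul_inv_cancel₀ h0])

theorem unit_of_comm (P : Pair L x u) (H : Hyp F D) {y : D} (hy : y ∈ L)
    (hne : x * y ≠ y * x) (hw : (x * y - y * x)⁻¹ ∈ L) : y⁻¹ ∈ L := by
  have hy0 : y ≠ 0 := fun h => hne (by simp [h])
  have hw0 : x * y - y * x ≠ 0 := sub_ne_zero.2 hne
  obtain ⟨q, hq⟩ : ∃ q, q = y * x * (x * y - y * x)⁻¹ := ⟨_, rfl⟩
  have hqL : q ∈ L := hq ▸ L.mul_mem (L.mul_mem hy P.hx) hw
  have hpL : q + 1 ∈ L := L.add_mem hqL L.one_mem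
  have ep : q + 1 = x * y * (x * y - y * x)⁻¹ := by
    rw [hq, ← mul_inv_cancel₀ hw0, ← add_mul, add_sub_cancel]
  have hp0 : q + 1 ≠ 0 := ep ▸ mul_ne_zero (mul_ne_zero P.x0 hy0) (inv_ne_zero hw0)
  have eg : y * x * y⁻¹ * x⁻¹ = q * (q + 1)⁻¹ := by
    rw [ep, hq, mul_inv_rev, mul_inv_rev, inv_inv]
    simp only [mul_assoc, inv_mul_cancel_left₀ hw0]
  obtain ⟨m, hm, f, hf⟩ := H.rad y x hy0 P.x0
  have hc : Commute q (q + 1) := (Commute.refl q).add_right (Commute.one_right q)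
  have hfc : ∀ a, algebraMap F D f * a = a * algebraMap F D f := fun a => Algebra.commutes f a
  have hf0 : algebraMap F D f ≠ 0 := hf ▸ pow_ne_zero _ (by simp [hy0, P.x0])
  generalize algebraMap F D f = φ at hf hfc hf0
  have e1 : (q + 1) ^ m * φ = q ^ m := by
    rw [← hfc, ← hf, eg, hc.inv_right₀.mul_pow, inv_pow, inv_mul_cancel_right₀ (pow_ne_zero _ hp0)]
  let ev : L[X] →+* D := eval₂RingHom' L.subtype φ fun a => (hfc a).symm
  have hev : ∀ r : L[X], ev r = eval₂ L.subtype φ r := fun _ => rfl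
  have hle : L ≤ ev.range := fun a ha => ⟨C ⟨a, ha⟩, by rw [hev, eval₂_C]; rfl⟩
  obtain ⟨r, hr⟩ := (P.mono hle).field H ⟨X, by rw [hev, eval₂_X]⟩ hfc
  have key : ∀ r : L[X], ∃ k : ℕ, ∀ j, k ≤ j → ((q + 1) ^ m) ^ j * ev r ∈ L := by
    intro r
    induction r using Polynomial.induction_on' with
    | add a b ha hb =>
      obtain ⟨k, hk⟩ := ha
      obtain ⟨k', hk'⟩ := hb
      exact ⟨max k k', fun j hj => by
        rw [map_add, mul_add]
        exact L.add_mem (hk j (le_of_max_le_left hj)) (hk' j (le_of_max_le_right hj))⟩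
    | monomial i a =>
      refine ⟨i, fun j hj => ?_⟩
      obtain ⟨d, rfl⟩ := Nat.exists_eq_add_of_le' hj
      rw [hev, eval₂_monomial, ← (Commute.pow_left (hfc _) i).eq, pow_add, mul_assoc,
        ← mul_assoc _ (φ ^ i), ← Commute.mul_pow (hfc _).symm, e1]
      exact L.mul_mem (L.pow_mem (L.pow_mem hpL _) _) (L.mul_mem (L.pow_mem (L.pow_mem hqL _) _) a.2)
  obtain ⟨k, hk⟩ := key r
  have h1 := hk k le_rfl
  rw [hr] at h1
  obtain ⟨s, hs, es⟩ := Dv.pow_sub_one (s := q) (L.pow_mem hpL m)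
    (Dv.pow_sub_one hpL ⟨1, L.one_mem, by simp⟩ m) (k + 1)
  obtain ⟨d, rfl⟩ := Nat.exists_eq_succ_of_ne_zero hm.ne'
  have e2 : q * (q ^ d * (((q + 1) ^ (d + 1)) ^ k * φ⁻¹) - s) = 1 := by
    rw [mul_sub, ← es, ← mul_assoc, ← pow_succ', ← e1, mul_assoc, ← mul_assoc φ, hfc,
      mul_inv_cancel_right₀ hf0, ← pow_succ', sub_sub_cancel]
  refine inv_mem_of_mul (L.mul_mem (L.mul_mem P.hx hw)
    (L.sub_mem (L.mul_mem (L.pow_mem hqL d) h1) hs)) ?_
  rw [← mul_assoc, ← mul_assoc, ← hq, e2]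

theorem add_unit (P : Pair L x u) (H : Hyp F D) {y c : D} (hy : y ∈ L) (hy' : y⁻¹ ∈ L)
    (hne : x * y ≠ y * x) (hc : c ∈ L) (hxc : x * c = c * x) : (y + c)⁻¹ ∈ L := by
  have e : x * (y + c) - (y + c) * x = x * y - y * x := by
    rw [mul_add, add_mul, hxc, add_sub_add_right_eq_sub]
  refine P.unit_of_comm H (L.add_mem hy hc) (fun h => hne ?_) ?_
  · rw [← sub_eq_zero, ← e, h, sub_self]
  · rw [e]; exact P.comm_unit H hy hy' hne

theorem cent_unit (P : Pair L x u) (H : Hyp F D) {c : D} (hc : c ∈ L) (hxc : x * c = c * x) :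
    c⁻¹ ∈ L := by
  by_cases h0 : c = 0
  · rw [h0, inv_zero]; exact L.zero_mem
  have h1 := P.add_unit H P.hu P.hu' P.ne hc hxc
  have e : u⁻¹ * (u + c) = 1 + u⁻¹ * c := by rw [mul_add, inv_mul_cancel₀ P.u0]
  have h2 : x * (1 + u⁻¹ * c) ≠ (1 + u⁻¹ * c) * x := fun h => P.ne (by
    rw [mul_add, add_mul, mul_one, one_mul, add_right_inj, mul_assoc u⁻¹, ← hxc, ← mul_assoc,
      ← mul_assoc] at h
    have h3 : Commute x u⁻¹ := mul_right_cancel₀ h0 h
    simpa using h3.inv_right₀.eq)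
  have h3 := P.add_unit H (L.add_mem L.one_mem (L.mul_mem P.hu' hc))
    (by rw [← e, mul_inv_rev, inv_inv]; exact L.mul_mem h1 P.hu) h2 (L.neg_mem L.one_mem) (by simp)
  rw [add_neg_cancel_comm, mul_inv_rev, inv_inv] at h3
  have h4 := L.mul_mem h3 P.hu'
  rwa [mul_inv_cancel_right₀ P.u0] at h4

end Pair

theorem martindale {ι : Type} [DecidableEq ι] (L : Subring D)
    (hL : ∀ z : D, (∀ a ∈ L, z * a = a * z) → ∃ f : F, algebraMap F D f = z) (b : ι → D)
    (hb : LinearIndependent F b) (s : Finset ι) :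
    ∀ a : ι → D, (∀ v ∈ L, ∑ i ∈ s, a i * v * b i = 0) → ∀ i ∈ s, a i = 0 := by
  induction s using Finset.induction_on with
  | empty => intro a _ i hi; simp at hi
  | insert j s hj ih =>
    intro a ha
    have hj0 : a j = 0 := by
      by_contra h0
      have h1 := ih (fun i => 0) (fun v _ => by simp)
      have h2 : ∀ i ∈ insert j s, ∃ f : F, algebraMap F D f = (a j)⁻¹ * a i := by
        intro i hi
        rcases Finset.mem_insert.1 hi with rfl | hi
        · exact ⟨1, by rw [map_one, inv_mul_cancel₀ h0]⟩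
        refine hL _ fun σ hσ => sub_eq_zero.1 ?_
        refine ih (fun i => (a j)⁻¹ * a i * σ - σ * ((a j)⁻¹ * a i)) (fun v hv => ?_) i hi
        have e1 := ha (σ * v) (L.mul_mem hσ hv)
        have e2 := ha v hv
        rw [Finset.sum_insert hj] at e1 e2
        have e3 : ∑ i ∈ s, ((a j)⁻¹ * a i * σ - σ * ((a j)⁻¹ * a i)) * v * b i =
            (a j)⁻¹ * ∑ i ∈ s, a i * (σ * v) * b i - σ * ((a j)⁻¹ * ∑ i ∈ s, a i * v * b i) := by
          simp only [Finset.mul_sum, ← Finset.sum_sub_distrib, sub_mul, mul_assoc]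
        rw [e3, eq_neg_of_add_eq_zero_right e1, eq_neg_of_add_eq_zero_right e2]
        simp only [mul_neg, mul_assoc, inv_mul_cancel_left₀ h0, sub_self]
      choose! g hg using h2
      have h3 := linearIndependent_iff'.1 hb (insert j s) g (by
        have e := congrArg ((a j)⁻¹ * ·) (ha 1 L.one_mem)
        simp only [Finset.mul_sum, mul_one, mul_zero] at e
        rw [← e]
        exact Finset.sum_congr rfl fun i hi => by rw [Algebra.smul_def, hg i hi, mul_assoc]) j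
        (Finset.mem_insert_self j s)
      have h4 := hg j (Finset.mem_insert_self j s)
      rw [h3, map_zero, inv_mul_cancel₀ h0] at h4
      exact zero_ne_one h4
    intro i hi
    rcases Finset.mem_insert.1 hi with rfl | hi
    · exact hj0
    refine ih a (fun v hv => ?_) i hi
    have e := ha v hv
    rwa [Finset.sum_insert hj, hj0, zero_mul, zero_mul, zero_add] at e

theorem Pair.div_core {L : Subring D} {x u : D} (P : Pair L x u) (H : Hyp F D)
    (hL : ∀ z : D, (∀ a ∈ L, z * a = a * z) → ∃ f : F, algebraMap F D f = z) {y : D}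
    (hy : y ∈ L) : y⁻¹ ∈ L := by
  classical
  by_cases hy0 : y = 0
  · rw [hy0, inv_zero]; exact L.zero_mem
  obtain ⟨m, hm, hxm⟩ := P.rad
  obtain ⟨f0, hf0⟩ := H.cen _ hxm
  obtain ⟨n, f, hn, -, e, -, hmin⟩ := H.minpoly_radical (r := x)
    (fun ⟨g, hg⟩ => P.ne (by rw [← hg, Algebra.commutes])) hm hf0.symm
  have hb := linearIndependent_pow (K := F) x
  rw [hmin, natDegree_X_pow_sub_C] at hb
  let E : D → D := fun z => ∑ j : Fin n, (x ^ (j : ℕ))⁻¹ * z * x ^ (j : ℕ)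
  have hEL : ∀ z ∈ L, E z ∈ L := fun z hz => L.sum_mem fun j _ => by
    rw [← inv_pow]
    exact L.mul_mem (L.mul_mem (L.pow_mem (P.hx' H) _) hz) (L.pow_mem P.hx _)
  have hEx : ∀ z, x * E z = E z * x := fun z => by
    have h1 : E z = ∑ j ∈ Finset.range n, (x ^ j)⁻¹ * z * x ^ j :=
      Fin.sum_univ_eq_sum_range (fun j => (x ^ j)⁻¹ * z * x ^ j) n
    have h2 := Finset.sum_range_succ (fun j => (x ^ j)⁻¹ * z * x ^ j) n
    have h3 : (x ^ n)⁻¹ * z * x ^ n = (x ^ 0)⁻¹ * z * x ^ 0 := by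
      rw [mul_assoc, e, ← Algebra.commutes, ← e, inv_mul_cancel_left₀ (pow_ne_zero _ P.x0)]
      simp
    rw [Finset.sum_range_succ', h3, add_left_inj, ← h1] at h2
    nth_rewrite 1 [← h2]
    rw [h1, Finset.mul_sum, Finset.sum_mul]
    refine Finset.sum_congr rfl fun j _ => ?_
    rw [pow_succ, mul_inv_rev]
    simp only [mul_assoc, mul_inv_cancel_left₀ P.x0]
  let C₁ : Subfield D :=
    { carrier := {c | c ∈ L ∧ x * c = c * x}
      mul_mem' := fun ha hb => ⟨L.mul_mem ha.1 hb.1, (Commute.mul_right ha.2 hb.2).eq⟩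
      one_mem' := ⟨L.one_mem, by simp⟩
      add_mem' := fun ha hb => ⟨L.add_mem ha.1 hb.1, (Commute.add_right ha.2 hb.2).eq⟩
      zero_mem' := ⟨L.zero_mem, by simp⟩
      neg_mem' := fun ha => ⟨L.neg_mem ha.1, (Commute.neg_right ha.2).eq⟩
      inv_mem' := fun c hc => ⟨P.cent_unit H hc.1 hc.2, (Commute.inv_right₀ hc.2).eq⟩ }
  let M : Submodule C₁ D :=
    { carrier := L
      add_mem' := L.add_mem
      zero_mem' := L.zero_mem
      smul_mem' := fun c z hz => L.mul_mem c.2.1 hz }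
  have : Module.Finite Dᵐᵒᵖ D := Module.Finite.of_surjective
    (LinearMap.toSpanSingleton Dᵐᵒᵖ D 1) fun z => ⟨MulOpposite.op z, by simp⟩
  let ω : D → Fin n → D := fun v j => v * x ^ (j : ℕ)
  obtain ⟨t', ht', hsp⟩ := (Submodule.fg_span_iff_fg_span_finset_subset (R := Dᵐᵒᵖ)
    (ω '' L)).1 (IsNoetherian.noetherian _)
  obtain ⟨t, ht, rfl⟩ := Finset.subset_set_image_iff.1 ht'
  let Θ : M →ₗ[C₁] (t → C₁) :=
    { toFun := fun z v => ⟨E (z * v), hEL _ (L.mul_mem z.2 (ht v.2)), hEx _⟩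
      map_add' := fun z w => funext fun v => Subtype.ext (by
        simp only [E, Submodule.coe_add, add_mul, mul_add, Finset.sum_add_distrib, Pi.add_apply,
          Subfield.coe_add])
      map_smul' := fun c z => funext fun v => Subtype.ext (by
        change E (c * z * v) = c * E (z * v)
        simp only [E, Finset.mul_sum]
        refine Finset.sum_congr rfl fun j _ => ?_
        have h1 : Commute (x ^ (j : ℕ))⁻¹ c := (Commute.pow_left c.2.2 j).inv_left₀
        simp only [← mul_assoc, h1.eq]) }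
  have hΘ : Function.Injective Θ := by
    rw [injective_iff_map_eq_zero]
    intro z hz
    have h1 : ∀ ξ ∈ Submodule.span Dᵐᵒᵖ (↑(Finset.image ω t) : Set (Fin n → D)),
        ∑ j : Fin n, (x ^ (j : ℕ))⁻¹ * z * ξ j = 0 := by
      intro ξ hξ
      induction hξ using Submodule.span_induction with
      | mem ξ hξ =>
        obtain ⟨v, hv, rfl⟩ := Finset.mem_image.1 hξ
        have h2 : E (z * v) = 0 := congrArg Subtype.val (congrFun hz ⟨v, hv⟩)
        rw [← h2]
        simp only [E, ω, mul_assoc]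
      | zero => simp
      | add ξ ζ _ _ h h' => simp only [Pi.add_apply, mul_add, Finset.sum_add_distrib, h, h', add_zero]
      | smul d ξ _ h =>
        simp only [Pi.smul_apply, MulOpposite.smul_eq_mul_unop, ← mul_assoc]
        rw [← Finset.sum_mul, h, zero_mul]
    have h2 := martindale L hL _ hb Finset.univ (fun j => (x ^ (j : ℕ))⁻¹ * z) (fun v hv => by
      have h3 := h1 (ω v) (hsp ▸ Submodule.subset_span ⟨v, hv, rfl⟩)
      simpa only [ω, mul_assoc] using h3) ⟨0, by omega⟩ (Finset.mem_univ _)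
    exact Subtype.ext (by simpa using h2)
  have : Module.Finite C₁ M := Module.Finite.of_injective Θ hΘ
  let ρ : M →ₗ[C₁] M :=
    { toFun := fun z => ⟨z * y, L.mul_mem z.2 hy⟩
      map_add' := fun z w => Subtype.ext (add_mul _ _ _)
      map_smul' := fun c z => Subtype.ext (mul_assoc _ _ _) }
  obtain ⟨z, hz⟩ := LinearMap.surjective_of_injective (f := ρ)
    (fun z w h => Subtype.ext (mul_right_cancel₀ hy0 (congrArg Subtype.val h))) ⟨1, L.one_mem⟩
  have h1 : (z : D) * y = 1 := congrArg Subtype.val hz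
  rw [← eq_inv_of_mul_eq_one_left h1]
  exact z.2

theorem Hyp.exists_pair (H : Hyp F D) {L : Subring D} {u v : D} (hu : u ∈ L) (hu' : u⁻¹ ∈ L)
    (hv : v ∈ L) (hv' : v⁻¹ ∈ L) (hne : u * v ≠ v * u) : Pair L (v * u * v⁻¹ * u⁻¹) u := by
  have hu0 : u ≠ 0 := fun h => hne (by simp [h])
  have hv0 : v ≠ 0 := fun h => hne (by simp [h])
  obtain ⟨n, hn, f, hf⟩ := H.rad v u hv0 hu0
  refine ⟨L.mul_mem (L.mul_mem (L.mul_mem hv hu) hv') hu', hu, hu', fun h => hne ?_, n, hn,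
    fun a => by rw [hf, Algebra.commutes]⟩
  have h1 : Commute u (v * u * v⁻¹) := by
    have h2 : Commute u (v * u * v⁻¹ * u⁻¹ * u) := Commute.mul_right h.symm (Commute.refl u)
    rwa [inv_mul_cancel_right₀ hu0] at h2
  have h2 := H.eq_of_commute ⟨v, hv0, rfl⟩ h1
  rw [← h2, inv_mul_cancel_right₀ hv0, h2]

/-- A subring with two noncommuting units is a division ring. -/
theorem inv_mem_of_units
    (h : ∀ x y : D, x ≠ 0 → y ≠ 0 →
      ∃ n : ℕ, 0 < n ∧ (x * y * x⁻¹ * y⁻¹) ^ n ∈ Subring.center D)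
    (L : Subring D) {u v : D} (hu : u ∈ L) (hu' : u⁻¹ ∈ L) (hv : v ∈ L) (hv' : v⁻¹ ∈ L)
    (hne : u * v ≠ v * u) {y : D} (hy : y ∈ L) : y⁻¹ ∈ L := by
  let S : Subfield D := bic (L : Set D)
  have hS : ∀ a ∈ L, a ∈ S := fun a ha w hw => hw a ha
  have H : Hyp (Subring.center S) S := hyp_center (fun x y hx hy => by
    obtain ⟨n, hn, hm⟩ := h x y (by simpa using hx) (by simpa using hy)
    refine ⟨n, hn, Subring.mem_center_iff.2 (fun g => Subtype.ext ?_)⟩
    simpa using Subring.mem_center_iff.1 hm g)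
  exact (H.exists_pair (L := L.comap S.subtype) (u := ⟨u, hS u hu⟩) (v := ⟨v, hS v hv⟩) hu hu'
    hv hv' (fun e => hne (congrArg Subtype.val e))).div_core H
    (fun z hz => H.cen z fun a => Subtype.ext (a.2 z fun s hs =>
      (congrArg Subtype.val (hz ⟨s, hS s hs⟩ hs)).symm).symm) (y := ⟨y, hS y hy⟩) hy

end Pool.Agent.MP_8ed1d4_al
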