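import Mathlib

set_option autoImplicit false

open Polynomial

namespace Pool.Agent.MP_8ed1d4_al

variable {F D : Type*} [Field F] [DivisionRing D] [Algebra F D]

/-- `b` is conjugate to `a` by a nonzero element. -/
def Cj (a b : D) : Prop := ∃ y : D, y ≠ 0 ∧ b = y * a * y⁻¹

theorem Cj.refl (a : D) : Cj a a := ⟨1, one_ne_zero, by simp⟩

theorem Cj.symm {a b : D} (h : Cj a b) : Cj b a := by
  obtain ⟨y, hy, rfl⟩ := h
  refine ⟨y⁻¹, inv_ne_zero hy, ?_⟩
  rw [inv_inv]
  calc a = (y⁻¹ * y) * a * (y⁻¹ * y) := by rw [inv_mul_cancel₀ hy]; simp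
    _ = _ := by simp only [mul_assoc]

theorem Cj.trans {a b c : D} (h : Cj a b) (h' : Cj b c) : Cj a c := by
  obtain ⟨y, hy, rfl⟩ := h
  obtain ⟨z, hz, rfl⟩ := h'
  refine ⟨z * y, mul_ne_zero hz hy, ?_⟩
  rw [mul_inv_rev]
  simp only [mul_assoc]

theorem conj_pow' {y : D} (hy : y ≠ 0) (a : D) (n : ℕ) :
    (y * a * y⁻¹) ^ n = y * a ^ n * y⁻¹ := by
  induction n with
  | zero => simp [mul_inv_cancel₀ hy]
  | succ n ih =>
    rw [pow_succ, ih, pow_succ]
    calc y * a ^ n * y⁻¹ * (y * a * y⁻¹) = y * a ^ n * (y⁻¹ * y) * a * y⁻¹ := by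
          simp only [mul_assoc]
      _ = _ := by rw [inv_mul_cancel₀ hy]; simp only [mul_assoc, one_mul]

theorem eval_X_pow' (c : D) (n : ℕ) : eval c (X ^ n : D[X]) = c ^ n := by
  have := eval_mul_X_pow (p := (1 : D[X])) (x := c) (k := n)
  simpa using this

theorem eval_mul_conj (h g : D[X]) (x : D) (hc : eval x g ≠ 0) :
    eval x (h * g) = eval (eval x g * x * (eval x g)⁻¹) h * eval x g := by
  induction h using Polynomial.induction_on' with
  | add p q hp hq => rw [add_mul, eval_add, eval_add, hp, hq, add_mul]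
  | monomial n a =>
    rw [← C_mul_X_pow_eq_monomial, mul_assoc, eval_C_mul, eval_C_mul, X_pow_mul,
      eval_mul_X_pow, eval_X_pow']
    rw [conj_pow' hc, mul_assoc a, mul_assoc _ (eval x g)⁻¹, inv_mul_cancel₀ hc, mul_one]

theorem eval_mul_of_root (h g : D[X]) (x : D) (hc : eval x g = 0) : eval x (h * g) = 0 := by
  induction h using Polynomial.induction_on' with
  | add p q hp hq => rw [add_mul, eval_add, hp, hq, add_zero]
  | monomial n a =>
    rw [← C_mul_X_pow_eq_monomial, mul_assoc, eval_C_mul, X_pow_mul, eval_mul_X_pow, hc]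
    simp

theorem exists_factor (h : D[X]) (c : D) : ∃ q : D[X], h = q * (X - C c) + C (eval c h) := by
  induction h using Polynomial.induction_on' with
  | add p q hp hq =>
    obtain ⟨p', hp'⟩ := hp
    obtain ⟨q', hq'⟩ := hq
    refine ⟨p' + q', ?_⟩
    rw [eval_add, C_add, add_mul]
    conv_lhs => rw [hp', hq']
    abel
  | monomial n a =>
    have key : ∀ n : ℕ, ∃ q : D[X], (X : D[X]) ^ n = q * (X - C c) + C (c ^ n) := by
      intro n
      induction n with
      | zero => exact ⟨0, by simp⟩
      | succ n ih =>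
        obtain ⟨q, hq⟩ := ih
        refine ⟨X ^ n + q * C c, ?_⟩
        have hcomm : (X - C c : D[X]) * C c = C c * (X - C c) := by
          rw [sub_mul, mul_sub, X_mul_C]
        have h1 : (X : D[X]) ^ (n + 1) = X ^ n * (X - C c) + X ^ n * C c := by
          rw [pow_succ, mul_sub]; abel
        rw [h1, add_mul, mul_assoc q, ← hcomm, ← mul_assoc q, pow_succ, C_mul, add_assoc,
          ← add_mul, ← hq]
    obtain ⟨q, hq⟩ := key n
    refine ⟨C a * q, ?_⟩
    rw [eval_monomial, ← C_mul_X_pow_eq_monomial, C_mul, mul_assoc, ← mul_add, ← hq]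

theorem eval_map_eq_aeval (p : F[X]) (x : D) : eval x (p.map (algebraMap F D)) = aeval x p := by
  rw [aeval_def, eval_map]

theorem aeval_conj {y : D} (hy : y ≠ 0) (a : D) (p : F[X]) :
    aeval (y * a * y⁻¹) p = y * aeval a p * y⁻¹ := by
  induction p using Polynomial.induction_on' with
  | add p q hp hq => rw [map_add, map_add, hp, hq, mul_add, add_mul]
  | monomial n c =>
    rw [aeval_monomial, aeval_monomial, conj_pow' hy, ← mul_assoc, ← mul_assoc,
      Algebra.commutes c y]
    simp only [mul_assoc]

theorem Cj.aeval_eq_zero {a b : D} (h : Cj a b) {p : F[X]} (hp : aeval a p = 0) :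
    aeval b p = 0 := by
  obtain ⟨y, hy, rfl⟩ := h
  rw [aeval_conj hy, hp]; simp

theorem Cj.isIntegral {a b : D} (h : Cj a b) (ha : IsIntegral F a) : IsIntegral F b := by
  obtain ⟨p, hp, hpa⟩ := ha
  exact ⟨p, hp, h.aeval_eq_zero (F := F) (p := p) hpa⟩

/-- A nonzero polynomial over `D` killing a whole conjugacy class has large degree. -/
theorem degree_of_vanish (hc : ∀ x : D, (∀ y, x * y = y * x) → ∃ f : F, algebraMap F D f = x)
    {a : D} : ∀ (k : ℕ) (g : D[X]), g.natDegree = k → g ≠ 0 →
      (∀ b, Cj a b → eval b g = 0) → (minpoly F a).natDegree ≤ k := by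
  intro k
  induction k using Nat.strong_induction_on with
  | _ k ih =>
    intro g hk hg hv
    by_contra hlt
    push Not at hlt
    have hl : g.leadingCoeff ≠ 0 := leadingCoeff_ne_zero.2 hg
    set g1 : D[X] := C g.leadingCoeff⁻¹ * g with hg1
    have hmon : g1.Monic := by
      rw [Monic, hg1, leadingCoeff_mul, leadingCoeff_C, inv_mul_cancel₀ hl]
    have hdeg : g1.natDegree = k := by
      rw [hg1, natDegree_C_mul (inv_ne_zero hl), hk]
    have hv1 : ∀ b, Cj a b → eval b g1 = 0 := fun b hb => by
      rw [hg1, eval_C_mul, hv b hb, mul_zero]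
    clear_value g1
    have hcen : ∀ i y, g1.coeff i * y = y * g1.coeff i := by
      intro i y
      by_cases hy : y = 0
      · simp [hy]
      have hz : g1 * C y - C y * g1 = 0 := by
        by_contra hne
        have hlt2 : (g1 * C y - C y * g1).natDegree < k := by
          have hk0 : k ≠ 0 := by
            rintro rfl
            have h1 : g1 = 1 := hmon.natDegree_eq_zero.1 hdeg
            apply hne; rw [h1]; simp
          have hle : (g1 * C y - C y * g1).natDegree ≤ k := by
            refine (natDegree_sub_le _ _).trans (max_le ?_ ?_)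
            · exact (natDegree_mul_C_le _ _).trans hdeg.le
            · exact (natDegree_C_mul_le _ _).trans hdeg.le
          refine lt_of_le_of_ne hle ?_
          intro heq
          have : (g1 * C y - C y * g1).coeff k = 0 := by
            rw [coeff_sub, coeff_mul_C, coeff_C_mul, ← hdeg, hmon.coeff_natDegree]; simp
          rw [← heq] at this
          exact hne (leadingCoeff_eq_zero.1 this)
        have := ih _ hlt2 _ rfl hne (by
          intro b hb
          rw [eval_sub, eval_C_mul, hv1 b hb, eval_mul_conj g1 (C y) b (by simpa using hy)]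
          simp only [eval_C]
          rw [hv1 _ (hb.trans ⟨y, hy, rfl⟩)]; simp)
        omega
      have := congrArg (fun p => coeff p i) hz
      simp only [coeff_sub, coeff_mul_C, coeff_C_mul, coeff_zero] at this
      exact sub_eq_zero.1 this
    have hl2 : g1 ∈ Polynomial.lifts (algebraMap F D) := by
      rw [lifts_iff_coeff_lifts]
      intro i
      exact hc _ (hcen i)
    obtain ⟨g0, hg0, hdeg0, hmon0⟩ := lifts_and_natDegree_eq_and_monic hl2 hmon
    have h0 : aeval a g0 = 0 := by
      rw [← eval_map_eq_aeval, hg0]; exact hv1 a (Cj.refl a)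
    have := natDegree_le_natDegree (minpoly.min F a hmon0 h0)
    omega

theorem monic_prod_list (l : List D) : (l.map (fun c => (X - C c : D[X]))).prod.Monic ∧
    (l.map (fun c => (X - C c : D[X]))).prod.natDegree = l.length := by
  induction l with
  | nil => simp
  | cons c l ih =>
    simp only [List.map_cons, List.prod_cons, List.length_cons]
    refine ⟨(monic_X_sub_C c).mul ih.1, ?_⟩
    rw [(monic_X_sub_C c).natDegree_mul' ih.1.ne_zero, natDegree_X_sub_C, ih.2, add_comm]

/-- Wedderburn's factorisation theorem. -/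
theorem wedderburn (hc : ∀ x : D, (∀ y, x * y = y * x) → ∃ f : F, algebraMap F D f = x)
    {a : D} (ha : IsIntegral F a) : ∃ l : List D, (∀ c ∈ l, Cj a c) ∧
      l.length = (minpoly F a).natDegree ∧
      (l.map (fun c => (X - C c : D[X]))).prod = (minpoly F a).map (algebraMap F D) := by
  set χ : D[X] := (minpoly F a).map (algebraMap F D) with hχ
  have hχm : χ.Monic := (minpoly.monic ha).map _
  have hχd : χ.natDegree = (minpoly F a).natDegree := (minpoly.monic ha).natDegree_map _
  have hχv : ∀ b, Cj a b → eval b χ = 0 := fun b hb => by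
    rw [hχ, eval_map_eq_aeval]; exact hb.aeval_eq_zero (minpoly.aeval F a)
  have key : ∀ k, k ≤ (minpoly F a).natDegree → ∃ (l : List D) (h : D[X]), (∀ c ∈ l, Cj a c) ∧
      l.length = k ∧ χ = h * (l.map (fun c => (X - C c : D[X]))).prod := by
    intro k
    induction k with
    | zero => intro _; exact ⟨[], χ, by simp, rfl, by simp⟩
    | succ k ih =>
      intro hk
      obtain ⟨l, h, hl, hlen, hfac⟩ := ih (by omega)
      set g := (l.map (fun c => (X - C c : D[X]))).prod with hg
      have hgm := monic_prod_list l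
      have : ∃ b, Cj a b ∧ eval b g ≠ 0 := by
        by_contra hne
        push Not at hne
        have := degree_of_vanish hc (a := a) _ g rfl hgm.1.ne_zero hne
        rw [hgm.2] at this; omega
      obtain ⟨b, hb, hgb⟩ := this
      have h1 := hχv b hb
      rw [hfac, eval_mul_conj h g b hgb] at h1
      have h2 := (mul_eq_zero.1 h1).resolve_right hgb
      obtain ⟨q, hq⟩ := exists_factor h (eval b g * b * (eval b g)⁻¹)
      rw [h2, C_0, add_zero] at hq
      refine ⟨(eval b g * b * (eval b g)⁻¹) :: l, q, ?_, by simp [hlen], ?_⟩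
      · intro c hcl
        rcases List.mem_cons.1 hcl with rfl | hcl
        · exact hb.trans ⟨_, hgb, rfl⟩
        · exact hl c hcl
      · rw [List.map_cons, List.prod_cons, ← mul_assoc, ← hq, ← hg, hfac]
  obtain ⟨l, h, hl, hlen, hfac⟩ := key _ le_rfl
  have hgm := monic_prod_list l
  refine ⟨l, hl, hlen, ?_⟩
  have hh0 : h ≠ 0 := by rintro rfl; exact hχm.ne_zero (by rw [hfac]; simp)
  have hd : h.natDegree = 0 := by
    have := congrArg natDegree hfac
    rw [natDegree_mul hh0 hgm.1.ne_zero, hgm.2, hχd, hlen] at this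
    omega
  have hlc : h.leadingCoeff = 1 := by
    have := congrArg leadingCoeff hfac
    rw [leadingCoeff_mul, hgm.1.leadingCoeff, mul_one, hχm.leadingCoeff] at this
    exact this.symm
  have h1 : h = 1 := (show h.Monic from hlc).natDegree_eq_zero.1 hd
  rw [hfac, h1, one_mul]

theorem root_of_prod (l : List D) (b : D)
    (h : eval b (l.map (fun c => (X - C c : D[X]))).prod = 0) : ∃ c ∈ l, Cj b c := by
  induction l with
  | nil => simp at h
  | cons c l ih =>
    simp only [List.map_cons, List.prod_cons] at h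
    by_cases hz : eval b (l.map (fun c => (X - C c : D[X]))).prod = 0
    · obtain ⟨c', hc', hb⟩ := ih hz
      exact ⟨c', List.mem_cons_of_mem _ hc', hb⟩
    · rw [eval_mul_conj _ _ _ hz] at h
      have h2 := (mul_eq_zero.1 h).resolve_right hz
      rw [eval_sub, eval_X, eval_C, sub_eq_zero] at h2
      exact ⟨c, List.mem_cons_self, _, hz, h2.symm⟩

/-- Dickson's theorem: roots of the minimal polynomial are conjugate. -/
theorem dickson (hc : ∀ x : D, (∀ y, x * y = y * x) → ∃ f : F, algebraMap F D f = x)
    {a b : D} (ha : IsIntegral F a) (hb : aeval b (minpoly F a) = 0) : Cj a b := by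
  obtain ⟨l, hl, -, hp⟩ := wedderburn hc ha
  obtain ⟨c, hcl, hbc⟩ := root_of_prod l b (by rw [hp, eval_map_eq_aeval, hb])
  exact (hl c hcl).trans hbc.symm

theorem nextCoeff_prod_list (l : List D) :
    (l.map (fun c => (X - C c : D[X]))).prod.nextCoeff = -l.sum := by
  induction l with
  | nil => simp [nextCoeff]
  | cons c l ih =>
    simp only [List.map_cons, List.prod_cons, List.sum_cons]
    rw [(monic_X_sub_C c).nextCoeff_mul (monic_prod_list l).1, ih, nextCoeff_X_sub_C, neg_add]

theorem eval_prod_list_central (l : List D) (t : F) :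
    eval (algebraMap F D t) (l.map (fun c => (X - C c : D[X]))).prod =
      (l.map (fun c => algebraMap F D t - c)).prod := by
  induction l with
  | nil => simp
  | cons c l ih =>
    simp only [List.map_cons, List.prod_cons]
    by_cases hz : eval (algebraMap F D t) (l.map (fun c => (X - C c : D[X]))).prod = 0
    · rw [eval_mul_of_root _ _ _ hz, ← ih, hz, mul_zero]
    · rw [eval_mul_conj _ _ _ hz, ← Algebra.commutes, mul_assoc (algebraMap F D t),
        mul_inv_cancel₀ hz, mul_one, ih]
      simp

end Pool.Agent.MP_8ed1d4_al
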